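import Pool.Agent.Y661.EX.Lim2

/-! Reflection, the first two coefficients, and the Taylor expansion in a fixed volume. -/

set_option autoImplicit false
set_option linter.unusedSectionVars false

open scoped BigOperators Topology
open MeasureTheory Filter ProbabilityTheory

namespace Pool.Agent.Y661.EX

open Pool.Agent.H4R2.AE (T Hop)
open Pool.Agent.H4R2.AE.Conc (PP QQ int_mp)

section refl

variable {d L : ℕ} [NeZero L]

theorem phi_neg (V : T d L → ℝ) (n : ℕ) :
    phi (fun y => -V y) n = fun x => (-1) ^ n * phi V n x := by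
  induction n using Nat.strong_induction_on with
  | _ n ih =>
    cases n with
    | zero =>
      funext x
      rw [phi_zero, phi_zero, pow_zero, one_mul]
    | succ n =>
      have hep : ∀ k, k ≤ n → ep (fun y => -V y) (k + 1) = (-1) ^ (k + 1) * ep V (k + 1) := by
        intro k hk
        show av (fun y => -V y * phi (fun y => -V y) k y) =
          (-1) ^ (k + 1) * av (fun y => V y * phi V k y)
        rw [ih k (by omega), ← av_smul]
        congr 1
        funext y
        ring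
      rw [phi_succ, phi_succ, ← Gr_smul]
      congr 1
      funext x
      rw [mul_add, Finset.mul_sum, ih n (by omega)]
      congr 1
      · ring
      · refine Finset.sum_congr rfl fun k _ => ?_
        have hk := k.2
        rw [hep k (by omega), ih (n - k) (by omega)]
        have e1 : ((-1 : ℝ)) ^ (n + 1) = (-1) ^ ((k : ℕ) + 1) * (-1) ^ (n - (k : ℕ)) := by
          rw [← pow_add]
          congr 1
          omega
        rw [e1]
        ring

theorem ep_neg (V : T d L → ℝ) (n : ℕ) : ep (fun y => -V y) n = (-1) ^ n * ep V n := by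
  cases n with
  | zero =>
    show (0 : ℝ) = (-1) ^ 0 * 0
    simp
  | succ k =>
    show av (fun y => -V y * phi (fun y => -V y) k y) =
      (-1) ^ (k + 1) * av (fun y => V y * phi V k y)
    rw [phi_neg, ← av_smul]
    congr 1
    funext y
    ring

variable (μ : Measure ℝ) [IsProbabilityMeasure μ]

theorem aL_neg (n : ℕ) : aL (μ.map fun t => -t) d L n = (-1) ^ n * aL μ d L n := by
  have : IsProbabilityMeasure (μ.map fun t : ℝ => -t) :=
    Measure.isProbabilityMeasure_map measurable_neg.aemeasurable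
  have hmp : MeasurePreserving (fun (V : T d L → ℝ) x => -V x) (PP (T d L) μ)
      (PP (T d L) (μ.map fun t => -t)) :=
    measurePreserving_pi (fun _ : T d L => μ) (fun _ : T d L => μ.map fun t => -t)
      (f := fun _ (t : ℝ) => -t) (fun _ => ⟨measurable_neg, rfl⟩)
  unfold aL
  have hm : Measurable (fun V : T d L → ℝ => ep V n) := by
    cases n with
    | zero => exact measurable_const
    | succ n => exact (pb_ep n).1.measurable
  rw [← int_mp hmp hm, ← integral_const_mul]
  refine integral_congr_ae (Filter.Eventually.of_forall fun V => ?_)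
  exact ep_neg V n

theorem aL_odd (hs : μ.map (fun t => -t) = μ) (n : ℕ) (hn : Odd n) : aL μ d L n = 0 := by
  have h := aL_neg (d := d) (L := L) μ n
  rw [hs, hn.neg_one_pow] at h
  linarith

end refl

section first

variable {d L : ℕ} [NeZero L] (μ : Measure ℝ) [IsProbabilityMeasure μ]
  (hμ : ∀ n : ℕ, Integrable (fun t : ℝ => |t| ^ n) μ)

theorem eval_int (x : T d L) : ∫ V : T d L → ℝ, V x ∂(PP (T d L) μ) = ∫ t, t ∂μ :=
  int_mp (measurePreserving_eval (fun _ : T d L => μ) x) (g := fun t : ℝ => t) measurable_id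

theorem pair_eval (x y : T d L) : ∫ V : T d L → ℝ, V x * V y ∂(PP (T d L) μ) =
    (∫ t, t ∂μ) ^ 2 + if x = y then (∫ t, t ^ 2 ∂μ) - (∫ t, t ∂μ) ^ 2 else 0 := by
  by_cases h : x = y
  · subst h
    rw [if_pos rfl]
    have e1 : ∀ V : T d L → ℝ, V x * V x = V x ^ 2 := fun V => by ring
    simp only [e1]
    have e2 : ∫ V : T d L → ℝ, V x ^ 2 ∂(PP (T d L) μ) = ∫ t, t ^ 2 ∂μ :=
      int_mp (measurePreserving_eval (fun _ : T d L => μ) x) (g := fun t : ℝ => t ^ 2)
        (by fun_prop)
    rw [e2]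
    ring
  · rw [if_neg h, add_zero]
    have hi : iIndepFun (fun (i : T d L) (ω : T d L → ℝ) => (fun t : ℝ => t) (ω i))
        (Measure.pi fun _ : T d L => μ) :=
      iIndepFun_pi (X := fun (_ : T d L) (t : ℝ) => t) fun _ => aemeasurable_id
    have hxy := hi.indepFun h
    have h1 := hxy.integral_fun_mul_eq_mul_integral
      (by exact (measurable_pi_apply x).aestronglyMeasurable)
      (by exact (measurable_pi_apply y).aestronglyMeasurable)
    refine h1.trans ?_
    have a := eval_int μ x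
    have b := eval_int μ y
    beta_reduce
    rw [sq]
    exact congrArg₂ (· * ·) a b

include hμ

theorem aL_one : aL μ d L 1 = ∫ t, t ∂μ := by
  have h1 : ∀ V : T d L → ℝ, ep V 1 = (∑ y, V y) / NS d L := by
    intro V
    show av (fun y => V y * phi V 0 y) = _
    unfold av
    congr 1
    refine Finset.sum_congr rfl fun y _ => ?_
    beta_reduce
    rw [phi_zero, mul_one]
  unfold aL
  simp only [h1]
  rw [integral_div, integral_finset_sum _ fun y _ => pb_int μ hμ (pb_coord y)]
  simp only [eval_int μ]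
  rw [sum_const', mul_comm, mul_div_assoc, div_self NS_pos.ne', mul_one]

omit hμ in
theorem phi_one (V : T d L → ℝ) (z : T d L) : phi V 1 z = -∑ x, Gz z x * V x := by
  rw [phi_succ]
  simp only [Finset.univ_eq_empty, Finset.sum_empty, add_zero]
  have h1 : (fun x => -(V x * phi V 0 x)) = fun x => (-1) * V x := by
    funext x
    rw [phi_zero]
    ring
  rw [h1, Gr_smul]
  beta_reduce
  rw [Gr_eq]
  ring

/-- the average of the diagonal of the Green function -/
noncomputable def Gdiag (d L : ℕ) [NeZero L] : ℝ := av fun z : T d L => Gz z z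

theorem aL_two : aL μ d L 2 = -(((∫ t, t ^ 2 ∂μ) - (∫ t, t ∂μ) ^ 2) * Gdiag d L) := by
  have h1 : ∀ V : T d L → ℝ, ep V 2 = -((∑ y, ∑ x, Gz y x * (V y * V x)) / NS d L) := by
    intro V
    show av (fun y => V y * phi V 1 y) = _
    unfold av
    rw [← neg_div, ← Finset.sum_neg_distrib]
    congr 1
    refine Finset.sum_congr rfl fun y _ => ?_
    beta_reduce
    rw [phi_one, mul_neg, Finset.mul_sum]
    congr 1
    exact Finset.sum_congr rfl fun x _ => by ring
  unfold aL
  simp only [h1]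
  have p1 : ∀ y x : T d L, PBg Wa (fun V : T d L → ℝ => Gz y x * (V y * V x)) := fun y x =>
    pb_mul Wa Wa_ge (pb_const Wa _) (pb_mul Wa Wa_ge (pb_coord y) (pb_coord x))
  rw [integral_neg, integral_div, integral_finset_sum _ fun y _ =>
    pb_int μ hμ (pb_sum Wa Wa_ge _ fun x _ => p1 y x)]
  have h2 : ∀ y : T d L, ∫ V : T d L → ℝ, ∑ x, Gz y x * (V y * V x) ∂(PP (T d L) μ) =
      ((∫ t, t ^ 2 ∂μ) - (∫ t, t ∂μ) ^ 2) * Gz y y := by
    intro y
    rw [integral_finset_sum _ fun x _ => pb_int μ hμ (p1 y x)]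
    have h3 : ∀ x : T d L, ∫ V : T d L → ℝ, Gz y x * (V y * V x) ∂(PP (T d L) μ) =
        Gz y x * (∫ t, t ∂μ) ^ 2 +
          if y = x then ((∫ t, t ^ 2 ∂μ) - (∫ t, t ∂μ) ^ 2) * Gz y x else 0 := by
      intro x
      rw [integral_const_mul, pair_eval, mul_add]
      congr 1
      split_ifs
      · ring
      · ring
    rw [Finset.sum_congr rfl fun x _ => h3 x, Finset.sum_add_distrib, ← Finset.sum_mul]
    have h4 : ∑ x, Gz y x = 0 := sum_Gr _
    rw [h4, zero_mul, zero_add, Finset.sum_ite_eq, if_pos (Finset.mem_univ y)]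
  rw [Finset.sum_congr rfl fun y _ => h2 y, ← Finset.mul_sum]
  unfold Gdiag av
  ring

end first

/-- in a fixed volume the energy of the positive eigenfunction has the Taylor coefficients `ep` -/
theorem taylor {d L : ℕ} [NeZero L] (V : T d L → ℝ) (N : ℕ) : ∃ C l0 : ℝ, 0 < l0 ∧
    ∀ lam : ℝ, 0 < lam → lam ≤ l0 → ∀ (E0 : ℝ) (ψ : T d L → ℝ), (∀ x, 0 < ψ x) →
      (∀ x, Hop lam V ψ x = E0 * ψ x) →
      |E0 - ∑ k ∈ Finset.range N, lam ^ (k + 1) * ep V (k + 1)| ≤ C * lam ^ (N + 1) := by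
  obtain ⟨S, hS⟩ : ∃ S : ℝ, S = 1 + ∑ x, |V x| + ∑ n ∈ Finset.range (N + 1), ∑ x, |phi V n x| :=
    ⟨_, rfl⟩
  have h0 : 0 ≤ ∑ x, |V x| := Finset.sum_nonneg fun _ _ => abs_nonneg _
  have h0' : 0 ≤ ∑ n ∈ Finset.range (N + 1), ∑ x, |phi V n x| :=
    Finset.sum_nonneg fun _ _ => Finset.sum_nonneg fun _ _ => abs_nonneg _
  have hS1 : 1 ≤ S := by linarith
  have h1 : ∀ x, |V x| ≤ S := fun x => by
    have := Finset.single_le_sum (f := fun x => |V x|) (fun _ _ => abs_nonneg _) (Finset.mem_univ x)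
    beta_reduce at this
    linarith
  have h2 : ∀ n ≤ N, ∀ x, |phi V n x| ≤ S := fun n hn x => by
    have a := Finset.single_le_sum (f := fun x => |phi V n x|) (fun _ _ => abs_nonneg _)
      (Finset.mem_univ x)
    have b := Finset.single_le_sum (f := fun n => ∑ x, |phi V n x|)
      (fun _ _ => Finset.sum_nonneg fun _ _ => abs_nonneg _)
      (Finset.mem_range.2 (show n < N + 1 by omega))
    beta_reduce at a b
    linarith
  have hN : (0 : ℝ) ≤ N := Nat.cast_nonneg N
  have hNS : 0 ≤ N * S := by positivity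
  refine ⟨2 * ((1 + (N : ℝ) * (N + 1)) * S ^ 3), min 1 (1 / (2 * (N * S) + 1)), by positivity, ?_⟩
  intro lam hl hll E0 ψ hψ hE
  have hl1 : lam ≤ 1 := hll.trans (min_le_left _ _)
  have hl2 : lam ≤ 1 / (2 * (N * S) + 1) := hll.trans (min_le_right _ _)
  have h3 : lam * (N * S) ≤ 1 / 2 := by
    rw [le_div_iff₀ (by positivity)] at hl2
    nlinarith
  have h4 := energy_close V lam N S hS1 hl hl1 h1 h2 h3 E0 ψ hψ hE
  refine h4.trans (le_of_eq ?_)
  ring

/-- convergence of the averaged coefficients along all volumes -/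
theorem lim_all (μ : Measure ℝ) [IsProbabilityMeasure μ]
    (hμ : ∀ n : ℕ, Integrable (fun t : ℝ => |t| ^ n) μ) (d : ℕ) (hd : 4 ≤ d) (N : ℕ) (K : ℝ)
    (hK : 0 ≤ K) (hE : HE d μ K N) (k : ℕ) (hk : k < N) :
    Tendsto (fun L : ℕ => aL μ d (L + 1) (k + 1)) atTop (𝓝 (bco μ d (k + 1))) := by
  obtain ⟨C, n0, ρ, hC, hρ0, hρ1, -, hl⟩ := lim_bco μ hμ d hd N K hK hE
  obtain ⟨h1, -, h3⟩ := hl k hk
  have hs1 : √ρ < 1 := by
    rw [Real.sqrt_lt' one_pos]
    simpa using hρ1
  have h4 : Tendsto (fun m : ℕ => C * √(ρ ^ m)) atTop (𝓝 0) := by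
    have h5 : Tendsto (fun m : ℕ => C * √(ρ ^ m)) atTop (𝓝 (C * √0)) :=
      ((Real.continuous_sqrt.tendsto 0).comp
        (tendsto_pow_atTop_nhds_zero_of_lt_one hρ0.le hρ1)).const_mul C
    simpa using h5
  rw [Metric.tendsto_atTop] at h1 h4 ⊢
  intro ε hε
  obtain ⟨m1, hm1⟩ := h1 (ε / 2) (by positivity)
  obtain ⟨m2, hm2⟩ := h4 (ε / 2) (by positivity)
  refine ⟨2 ^ (max n0 (max m1 m2)), fun L hL => ?_⟩
  obtain ⟨m, hm⟩ : ∃ m, m = Nat.log 2 (L + 1) := ⟨_, rfl⟩
  have hmm : max n0 (max m1 m2) ≤ m := by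
    rw [hm]
    exact Nat.le_log_of_pow_le (by norm_num) (by omega)
  have a1 : n0 ≤ m := (le_max_left _ _).trans hmm
  have a2 : m1 ≤ m := ((le_max_left _ _).trans (le_max_right _ _)).trans hmm
  have a3 : m2 ≤ m := ((le_max_right _ _).trans (le_max_right _ _)).trans hmm
  have b1 := hm1 m a2
  have b2 := hm2 m a3
  have b3 := h3 m a1 (L + 1) (by rw [hm]; exact Nat.pow_log_le_self 2 (by omega))
    (by rw [hm]; exact (Nat.lt_pow_succ_log_self (by norm_num) (L + 1)).le)
  rw [Real.dist_eq] at b1 b2 ⊢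
  rw [sub_zero, abs_of_nonneg (by positivity)] at b2
  have e1 : aL μ d (L + 1) (k + 1) - bco μ d (k + 1) =
      -(aL μ d (2 ^ m) (k + 1) - aL μ d (L + 1) (k + 1)) +
        (aL μ d (2 ^ m) (k + 1) - bco μ d (k + 1)) := by ring
  rw [e1]
  have e2 := abs_add_le (-(aL μ d (2 ^ m) (k + 1) - aL μ d (L + 1) (k + 1)))
    (aL μ d (2 ^ m) (k + 1) - bco μ d (k + 1))
  rw [abs_neg] at e2
  linarith

end Pool.Agent.Y661.EX
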