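import Pool.Agent.Y661.EX.CoreG
import Pool.Agent.Y661.EX.Ident
import Pool.Agent.Y661.ED.Fin

/-! Gaussian disorder: the expansion of the effective edge. -/

set_option autoImplicit false
set_option linter.unusedSectionVars false

open scoped BigOperators ENNReal Topology
open MeasureTheory ProbabilityTheory Filter

namespace Pool.Agent.Y661.EX

open Pool.Agent.H4R2.AE (T Hop)
open Pool.Agent.H4R2.AE.Conc (PP QQ int_mp)
open Pool.Agent.Results.MP_1906c1_mp.ScaleAtEdge (H HT sc SpreadOut Localized)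
open Pool.Agent.Y661.ED (Gd es_asymp unique_energy)

theorem inter_nonempty {Ω : Type} [MeasurableSpace Ω] (P : Measure Ω) [IsProbabilityMeasure P]
    (G1 G2 : Set Ω) (hG2 : MeasurableSet G2) (h1 : 3 / 4 ≤ P.real G1) (h2 : 3 / 4 ≤ P.real G2) :
    ∃ ω, ω ∈ G1 ∧ ω ∈ G2 := by
  by_contra hcon
  push Not at hcon
  have h3 : G1 ∩ G2 = ∅ := by
    ext ω
    simp only [Set.mem_inter_iff, Set.mem_empty_iff_false, iff_false, not_and]
    exact hcon ω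
  have h4 := measureReal_union_add_inter (μ := P) (s := G1) (t := G2) hG2
  rw [h3, measureReal_empty] at h4
  have h5 : P.real (G1 ∪ G2) ≤ 1 := measureReal_le_one
  linarith

theorem sc_ge (d : ℕ) (σ : ℝ) (hσ : 0 < σ) (hσ1 : σ ≤ 1) : 1 / σ ≤ sc d σ := by
  unfold sc
  split_ifs
  · exact le_rfl
  · apply one_div_le_one_div_of_le (by positivity)
    nlinarith

/-- powers are smaller than the exponential scale -/
theorem exp_big (k : ℝ) (hk : 0 < k) (m : ℕ) : ∃ σ0 : ℝ, 0 < σ0 ∧ σ0 ≤ 1 ∧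
    ∀ σ x : ℝ, 0 < σ → σ ≤ σ0 → 1 / σ ≤ x → (1 / σ) ^ m ≤ Real.exp (k * x) ∧
      Real.exp (-(k * x)) ≤ 1 / 4 := by
  have hf : (0 : ℝ) < (m + 1).factorial := by positivity
  refine ⟨min 1 (min (k ^ (m + 1) / (m + 1).factorial) (k / 2)), by positivity, min_le_left _ _, ?_⟩
  intro σ x hσ hσ0 hx
  have a1 : σ ≤ k ^ (m + 1) / (m + 1).factorial :=
    hσ0.trans ((min_le_right _ _).trans (min_le_left _ _))
  have a2 : σ ≤ k / 2 := hσ0.trans ((min_le_right _ _).trans (min_le_right _ _))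
  have h1 : k * (1 / σ) ≤ k * x := by gcongr
  constructor
  · refine le_trans ?_ (Real.exp_le_exp.2 h1)
    have h2 := Real.pow_div_factorial_le_exp (k * (1 / σ)) (by positivity) (m + 1)
    refine le_trans ?_ h2
    rw [le_div_iff₀ hf, mul_pow, pow_succ (1 / σ) m]
    rw [le_div_iff₀ hf] at a1
    have h3 : ((m + 1).factorial : ℝ) ≤ k ^ (m + 1) * (1 / σ) := by
      rw [mul_one_div, le_div_iff₀ hσ]
      linarith
    calc (1 / σ) ^ m * ((m + 1).factorial : ℝ) ≤ (1 / σ) ^ m * (k ^ (m + 1) * (1 / σ)) := by gcongr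
      _ = _ := by ring
  · have h2 : 2 ≤ k * x := by
      refine le_trans ?_ h1
      rw [mul_one_div, le_div_iff₀ hσ]
      linarith
    have h3 : Real.exp (-(k * x)) ≤ Real.exp (-2) := Real.exp_le_exp.2 (by linarith)
    have h4 : Real.exp (-2) ≤ 1 / 4 := by
      rw [Real.exp_neg, inv_le_comm₀ (Real.exp_pos _) (by norm_num)]
      have h5 := Real.quadratic_le_exp_of_nonneg (x := 2) (by norm_num)
      norm_num at h5 ⊢
      linarith
    exact h3.trans h4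

/-- the flat states near the edge `Es` (energies counted from the top) -/
def FlatG (d : ℕ) (k K η σ Es : ℝ) : Prop :=
  ∀ (L : ℕ) [NeZero L], (L : ℝ) ≤ Real.exp (k * sc d σ) →
    ∃ G : Set (T d L → ℝ), MeasurableSet G ∧
      1 - Real.exp (-(k * sc d σ)) ≤ (Measure.pi fun _ : T d L => gaussianReal 0 1).real G ∧
      ∀ V ∈ G, ∃ (E0 : ℝ) (ψ : T d L → ℝ), |E0 - (2 * d - Es)| ≤ K / (L : ℝ) ^ 2 ∧
        (∀ x, 1 ≤ ψ x ∧ ψ x ≤ 1 + η) ∧ ∀ x, Hop σ V ψ x = E0 * ψ x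

theorem flat_of (d : ℕ) (k : ℝ) (hk : 0 < k) (N : ℕ) : ∃ σ1 : ℝ, 0 < σ1 ∧ σ1 ≤ 1 ∧
    ∀ K η σ Es : ℝ, 0 < σ → σ ≤ σ1 → FlatG d k K η σ Es →
      ∀ (L : ℕ) [NeZero L], (L : ℝ) ≤ (1 / σ) ^ (2 * (N + 1)) →
        FlatAt d (gaussianReal 0 1) K σ (2 * d - Es) L := by
  obtain ⟨σ1, hσ1, hσ11, h⟩ := exp_big k hk (2 * (N + 1))
  refine ⟨σ1, hσ1, hσ11, ?_⟩
  intro K η σ Es hσ hσσ hfl L _ hL
  obtain ⟨h1, h2⟩ := h σ (sc d σ) hσ hσσ (sc_ge d σ hσ (hσσ.trans hσ11))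
  obtain ⟨G, -, hP, hG⟩ := hfl L (hL.trans h1)
  refine ⟨G, by linarith, fun V hV => ?_⟩
  obtain ⟨E0, ψ, a1, a2, a3⟩ := hG V hV
  exact ⟨E0, ψ, a1, fun x => by linarith [(a2 x).1], a3⟩

theorem gauss_mom (n : ℕ) : Integrable (fun t : ℝ => |t| ^ n) (gaussianReal 0 1) := by
  rcases Nat.eq_zero_or_pos n with h | h
  · subst h
    simp only [pow_zero]
    exact integrable_const _
  · have h1 : MemLp (id : ℝ → ℝ) (n : ℝ≥0∞) (gaussianReal 0 1) := by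
      have := memLp_id_gaussianReal (μ := 0) (v := 1) (n : NNReal)
      simpa using this
    have h2 := h1.integrable_norm_pow (by omega)
    simpa using h2

theorem gauss_neg : (gaussianReal 0 1).map (fun t => -t) = gaussianReal 0 1 := by
  rw [gaussianReal_map_neg, neg_zero]

theorem heG (d : ℕ) (hd : 4 ≤ d) : ∃ K : ℝ, 0 ≤ K ∧ ∀ N, HE d (gaussianReal 0 1) K N := by
  obtain ⟨k, K, hk, hk1, hK, h⟩ := coreG d hd 1 one_pos le_rfl
  refine ⟨K, hK.le, fun N => ?_⟩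
  obtain ⟨σ1, hσ1, hσ11, hf⟩ := flat_of d k hk N
  refine ⟨min σ1 k, lt_min hσ1 hk, ?_⟩
  intro σ hσ hσσ
  obtain ⟨Es, -, -, h2, -⟩ := h σ hσ (hσσ.trans (min_le_right _ _))
  exact ⟨2 * d - Es, hf K 1 σ Es hσ (hσσ.trans (min_le_left _ _)) h2⟩

theorem bco_lim (d : ℕ) (hd : 4 ≤ d) (n : ℕ) :
    Tendsto (fun m : ℕ => aL (gaussianReal 0 1) d (2 ^ m) (n + 1)) atTop
      (𝓝 (bco (gaussianReal 0 1) d (n + 1))) := by
  obtain ⟨K, hK, hE⟩ := heG d hd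
  obtain ⟨C, n0, ρ, -, -, -, -, hl⟩ := lim_bco (gaussianReal 0 1) gauss_mom d hd (n + 1) K hK
    (hE (n + 1))
  exact (hl n (by omega)).1

theorem bco_odd (d : ℕ) (hd : 4 ≤ d) (n : ℕ) (hn : Even n) :
    bco (gaussianReal 0 1) d (n + 1) = 0 := by
  have h := bco_lim d hd n
  have h1 : ∀ m : ℕ, aL (gaussianReal 0 1) d (2 ^ m) (n + 1) = 0 := fun m =>
    aL_odd (gaussianReal 0 1) gauss_neg (n + 1) hn.add_one
  simp only [h1] at h
  exact tendsto_nhds_unique h tendsto_const_nhds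

/-- the second coefficient -/
theorem bco_two (d : ℕ) (hd : 4 ≤ d) : bco (gaussianReal 0 1) d 2 = -Gd d := by
  by_contra hcon
  obtain ⟨D, hD⟩ : ∃ D, D = |bco (gaussianReal 0 1) d 2 + Gd d| := ⟨_, rfl⟩
  have hD0 : 0 < D := by
    rw [hD]
    apply abs_pos.2
    intro h
    exact hcon (by linarith)
  obtain ⟨K, hK, hE⟩ := heG d hd
  obtain ⟨C, σ0, hC, hσ0, hexp⟩ := expansion (gaussianReal 0 1) gauss_mom d hd 2 K hK (hE 2)
  obtain ⟨σ1, hσ1, hE2⟩ := hE 2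
  obtain ⟨_, _, _, _, has⟩ := es_asymp d (by omega)
  obtain ⟨s0, hs0, hs01, has⟩ := has (min 1 (D / 4)) (by positivity) (min_le_left _ _)
  obtain ⟨σ, hσ⟩ : ∃ σ : ℝ, σ = min (min (min σ0 σ1) (min s0 (1 / 16)))
    (min (min ((s0 / 2) ^ 4) (D / (4 * (K + 1)))) ((D / (8 * (C + 1))) ^ 2)) := ⟨_, rfl⟩
  have hσ0' : 0 < σ := by rw [hσ]; positivity
  have b1 : σ ≤ σ0 := by
    rw [hσ]
    exact (min_le_left _ _).trans ((min_le_left _ _).trans (min_le_left _ _))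
  have b2 : σ ≤ σ1 := by
    rw [hσ]
    exact (min_le_left _ _).trans ((min_le_left _ _).trans (min_le_right _ _))
  have b3 : σ ≤ s0 := by
    rw [hσ]
    exact (min_le_left _ _).trans ((min_le_right _ _).trans (min_le_left _ _))
  have b4 : σ ≤ 1 / 16 := by
    rw [hσ]
    exact (min_le_left _ _).trans ((min_le_right _ _).trans (min_le_right _ _))
  have b5 : σ ≤ (s0 / 2) ^ 4 := by
    rw [hσ]
    exact (min_le_right _ _).trans ((min_le_left _ _).trans (min_le_left _ _))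
  have b6 : σ ≤ D / (4 * (K + 1)) := by
    rw [hσ]
    exact (min_le_right _ _).trans ((min_le_left _ _).trans (min_le_right _ _))
  have b7 : σ ≤ (D / (8 * (C + 1))) ^ 2 := by
    rw [hσ]
    exact (min_le_right _ _).trans (min_le_right _ _)
  have hσle1 : σ ≤ 1 := by linarith
  -- powers of the scale
  obtain ⟨b, hb⟩ : ∃ b : ℝ, b = σ ^ (-(1 / 4) : ℝ) := ⟨_, rfl⟩
  have hbpos : 0 < b := by rw [hb]; exact Real.rpow_pos_of_pos hσ0' _
  have hbn : ∀ n : ℕ, b ^ n = σ ^ (-(1 / 4) * (n : ℝ)) := by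
    intro n
    rw [hb, ← Real.rpow_natCast, ← Real.rpow_mul hσ0'.le]
  have hb4 : b ^ 4 = 1 / σ := by
    have h1 : (-(1 / 4) * ((4 : ℕ) : ℝ) : ℝ) = -1 := by norm_num
    rw [hbn 4, h1, Real.rpow_neg_one, one_div]
  have hb6 : σ ^ (-(3 / 2) : ℝ) = b ^ 6 := by
    rw [hbn 6]
    norm_num
  have hb7 : σ ^ (-(7 / 4) : ℝ) = b ^ 7 := by
    rw [hbn 7]
    norm_num
  have hb2 : 2 ≤ b := by
    have h1 : (2 : ℝ) ^ 4 ≤ b ^ 4 := by
      rw [hb4, le_div_iff₀ hσ0']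
      linarith
    exact le_of_pow_le_pow_left₀ (by norm_num) hbpos.le h1
  have hbs : 2 / s0 ≤ b := by
    have h1 : (2 / s0) ^ 4 ≤ b ^ 4 := by
      rw [hb4, le_div_iff₀ hσ0', div_pow]
      rw [div_pow] at b5
      calc 2 ^ 4 / s0 ^ 4 * σ ≤ 2 ^ 4 / s0 ^ 4 * (s0 ^ 4 / 2 ^ 4) := by gcongr
        _ = 1 := by field_simp
    exact le_of_pow_le_pow_left₀ (by norm_num) hbpos.le h1
  obtain ⟨L, hL⟩ : ∃ L : ℕ, L = ⌈b ^ 6⌉₊ := ⟨_, rfl⟩
  have hL1 : b ^ 6 ≤ L := by rw [hL]; exact Nat.le_ceil _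
  have hL2 : (L : ℝ) ≤ b ^ 7 := by
    have h1 : (L : ℝ) < b ^ 6 + 1 := by rw [hL]; exact Nat.ceil_lt_add_one (by positivity)
    have h2 : 1 ≤ b ^ 6 := one_le_pow₀ (by linarith)
    have h3 : b ^ 7 = b ^ 6 * b := by ring
    rw [h3]
    nlinarith
  have hLpos : (0 : ℝ) < L := lt_of_lt_of_le (by positivity) hL1
  have : NeZero L := ⟨by
    rintro rfl
    simp at hLpos⟩
  obtain ⟨Es, hEs⟩ := hE2 σ hσ0' b2
  have hL3 : (L : ℝ) ≤ (1 / σ) ^ (2 * (2 + 1)) := by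
    rw [← hb4, ← pow_mul]
    refine hL2.trans ?_
    exact pow_le_pow_right₀ (by linarith) (by norm_num)
  obtain ⟨G1, hP1, hG1⟩ := hEs L hL3
  obtain ⟨-, has⟩ := has σ hσ0' b3
  obtain ⟨G2, hG2m, hP2, hG2⟩ := has L (by rw [hb6]; exact hL1) (by rw [hb7]; exact hL2)
  have hP2' : 3 / 4 ≤ (PP (T d L) (gaussianReal 0 1)).real G2 := by
    refine le_trans ?_ hP2
    rw [← hb]
    have h1 : 2 ≤ s0 * b := by
      rw [div_le_iff₀ hs0] at hbs
      linarith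
    have h3 : Real.exp (-(s0 * b)) ≤ Real.exp (-2) := Real.exp_le_exp.2 (by linarith)
    have h4 : Real.exp (-2) ≤ 1 / 4 := by
      rw [Real.exp_neg, inv_le_comm₀ (Real.exp_pos _) (by norm_num)]
      have h5 := Real.quadratic_le_exp_of_nonneg (x := 2) (by norm_num)
      norm_num at h5 ⊢
      linarith
    linarith
  obtain ⟨V, hV1, hV2⟩ := inter_nonempty _ G1 G2 hG2m hP1 hP2'
  obtain ⟨E1, ψ1, p1, p2, p3⟩ := hG1 V hV1
  obtain ⟨E2, ψ2, q1, q2, q3⟩ := hG2 V hV2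
  have hE12 := unique_energy σ E1 E2 V ψ1 ψ2 p2 (fun x => by linarith [(q2 x).1]) p3 q3
  rw [← hE12] at q1
  have hb1 : bco (gaussianReal 0 1) d 1 = 0 := bco_odd d hd 0 (by norm_num)
  have he := hexp σ hσ0' b1 Es hEs
  rw [Finset.sum_range_succ, Finset.sum_range_one] at he
  simp only [zero_add, hb1, mul_zero, Nat.reduceAdd] at he
  have hKL : K / (L : ℝ) ^ 2 ≤ K * σ * σ ^ 2 := by
    have h1 : (1 : ℝ) / (L : ℝ) ^ 2 ≤ σ ^ 3 := by
      rw [div_le_iff₀ (by positivity)]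
      have h2 : (b ^ 6) ^ 2 ≤ (L : ℝ) ^ 2 := by gcongr
      have h3 : σ ^ 3 * (b ^ 6) ^ 2 = 1 := by
        have : (b ^ 6) ^ 2 = (b ^ 4) ^ 3 := by ring
        rw [this, hb4]
        field_simp
      calc (1 : ℝ) = σ ^ 3 * (b ^ 6) ^ 2 := h3.symm
        _ ≤ σ ^ 3 * (L : ℝ) ^ 2 := by gcongr
    calc K / (L : ℝ) ^ 2 = K * (1 / (L : ℝ) ^ 2) := by ring
      _ ≤ K * σ ^ 3 := by gcongr
      _ = _ := by ring
  have hσ2 : 0 < σ ^ 2 := by positivity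
  have hfin : D * σ ^ 2 ≤ (min 1 (D / 4) + K * σ + C * √σ) * σ ^ 2 := by
    have e1 : (bco (gaussianReal 0 1) d 2 + Gd d) * σ ^ 2 =
        -(Es - σ ^ 2 * bco (gaussianReal 0 1) d 2) - (E1 - Es) + (E1 + Gd d * σ ^ 2) := by ring
    have e2 : D * σ ^ 2 = |(bco (gaussianReal 0 1) d 2 + Gd d) * σ ^ 2| := by
      rw [abs_mul, abs_of_pos hσ2, hD]
    rw [e2, e1]
    have e3 := abs_add_le (-(Es - σ ^ 2 * bco (gaussianReal 0 1) d 2) - (E1 - Es))
      (E1 + Gd d * σ ^ 2)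
    have e4 := abs_sub (-(Es - σ ^ 2 * bco (gaussianReal 0 1) d 2)) (E1 - Es)
    rw [abs_neg] at e4
    have e5 : C * (σ ^ 2 * √σ) = C * √σ * σ ^ 2 := by ring
    rw [e5] at he
    linarith [p1.trans hKL]
  have hfin2 := le_of_mul_le_mul_right hfin hσ2
  have c1 : K * σ ≤ D / 4 := by
    rw [le_div_iff₀ (by positivity)] at b6
    nlinarith
  have c2 : C * √σ ≤ D / 8 := by
    have h1 : √σ ≤ D / (8 * (C + 1)) := by
      rw [Real.sqrt_le_left (by positivity)]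
      exact b7
    rw [le_div_iff₀ (by positivity)] at h1
    nlinarith [Real.sqrt_nonneg σ]
  have c3 : min 1 (D / 4) ≤ D / 4 := min_le_right _ _
  linarith

theorem sum_pairs (f : ℕ → ℝ) (N : ℕ) : ∑ k ∈ Finset.range (2 * N), f k =
    ∑ n ∈ Finset.range N, (f (2 * n) + f (2 * n + 1)) := by
  induction N with
  | zero => simp
  | succ N ih =>
    rw [show 2 * (N + 1) = 2 * N + 1 + 1 by ring, Finset.sum_range_succ, Finset.sum_range_succ,
      Finset.sum_range_succ, ih]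
    ring

/-- the coefficients of the upper edge -/
noncomputable def ca (d n : ℕ) : ℝ := if n = 0 then 2 * d else -bco (gaussianReal 0 1) d (2 * n)

theorem expG (d : ℕ) (hd : 4 ≤ d) (k K η : ℝ) (hk : 0 < k) (hk1 : k ≤ 1) (hK : 0 ≤ K)
    (hex : ∀ σ : ℝ, 0 < σ → σ ≤ k → ∃ Es : ℝ, FlatG d k K η σ Es) (N : ℕ) :
    ∃ C : ℝ, 0 ≤ C ∧ ∀ σ : ℝ, 0 < σ → σ ≤ k → ∀ Es : ℝ, |Es - 2 * d| ≤ 1 → FlatG d k K η σ Es →
      |Es - ∑ n ∈ Finset.range (N + 1), ca d n * σ ^ (2 * n)| ≤ C * σ ^ (2 * (N + 1)) := by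
  obtain ⟨σ1, hσ1, hσ11, hfl⟩ := flat_of d k hk (2 * (N + 1))
  have hE : HE d (gaussianReal 0 1) K (2 * (N + 1)) := by
    refine ⟨min σ1 k, lt_min hσ1 hk, fun σ hσ hσσ => ?_⟩
    obtain ⟨Es, h1⟩ := hex σ hσ (hσσ.trans (min_le_right _ _))
    exact ⟨2 * d - Es, hfl K η σ Es hσ (hσσ.trans (min_le_left _ _)) h1⟩
  obtain ⟨C1, σ0, hC1, hσ0, hexp⟩ := expansion (gaussianReal 0 1) gauss_mom d hd (2 * (N + 1)) K hK hE
  obtain ⟨t, ht⟩ : ∃ t : ℝ, t = min σ0 (min σ1 k) := ⟨_, rfl⟩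
  have ht0 : 0 < t := by rw [ht]; positivity
  have ht1 : t ≤ 1 := by
    rw [ht]
    exact (min_le_right _ _).trans ((min_le_right _ _).trans hk1)
  obtain ⟨b, hb⟩ : ∃ b : ℕ → ℝ, b = fun n => bco (gaussianReal 0 1) d (2 * n + 2) := ⟨_, rfl⟩
  obtain ⟨B, hB⟩ : ∃ B : ℝ, B = 1 + ∑ n ∈ Finset.range N, |b n| := ⟨_, rfl⟩
  have hB0 : 0 ≤ B := by
    rw [hB]
    have : 0 ≤ ∑ n ∈ Finset.range N, |b n| := Finset.sum_nonneg fun _ _ => abs_nonneg _
    linarith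
  -- the polynomial
  have hpoly : ∀ σ : ℝ, ∑ n ∈ Finset.range (N + 1), ca d n * σ ^ (2 * n) =
      2 * d - ∑ n ∈ Finset.range N, σ ^ (2 * n + 2) * b n := by
    intro σ
    rw [Finset.sum_range_succ']
    have e1 : ca d 0 * σ ^ (2 * 0) = 2 * d := by
      unfold ca
      simp
    rw [e1, add_comm, sub_eq_add_neg, ← Finset.sum_neg_distrib]
    congr 1
    refine Finset.sum_congr rfl fun n _ => ?_
    unfold ca
    rw [if_neg (by omega), hb]
    have e2 : 2 * (n + 1) = 2 * n + 2 := by ring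
    rw [e2]
    ring
  refine ⟨(C1 + |b N|) + B / t ^ (2 * (N + 1)), by positivity, ?_⟩
  intro σ hσ hσk Es hEs hF
  have hσ1' : σ ≤ 1 := hσk.trans hk1
  have hp : 0 < σ ^ (2 * (N + 1)) := by positivity
  have hn1 : 0 ≤ (C1 + |b N|) * σ ^ (2 * (N + 1)) := by positivity
  have hn2 : 0 ≤ B / t ^ (2 * (N + 1)) * σ ^ (2 * (N + 1)) := by positivity
  rw [hpoly]
  have e0 : Es - (2 * d - ∑ n ∈ Finset.range N, σ ^ (2 * n + 2) * b n) =
      -((2 * d - Es) - ∑ n ∈ Finset.range N, σ ^ (2 * n + 2) * b n) := by ring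
  rw [e0, abs_neg, add_mul]
  rcases le_or_gt σ t with h | h
  · have a1 : σ ≤ σ0 := h.trans (by rw [ht]; exact min_le_left _ _)
    have a2 : σ ≤ σ1 := h.trans (by rw [ht]; exact (min_le_right _ _).trans (min_le_left _ _))
    have h1 := hexp σ hσ a1 (2 * d - Es) (hfl K η σ Es hσ a2 hF)
    have e1 : ∑ k ∈ Finset.range (2 * (N + 1)), σ ^ (k + 1) * bco (gaussianReal 0 1) d (k + 1) =
        ∑ n ∈ Finset.range (N + 1), σ ^ (2 * n + 2) * b n := by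
      rw [sum_pairs]
      refine Finset.sum_congr rfl fun n _ => ?_
      rw [bco_odd d hd (2 * n) (even_two_mul n), hb]
      ring
    rw [e1, Finset.sum_range_succ] at h1
    have h2 : σ ^ (2 * (N + 1)) * √σ ≤ σ ^ (2 * (N + 1)) :=
      mul_le_of_le_one_right hp.le (Real.sqrt_le_one.2 hσ1')
    have h3 : |(2 * d - Es) - ∑ n ∈ Finset.range N, σ ^ (2 * n + 2) * b n| ≤
        |(2 * d - Es) - (∑ n ∈ Finset.range N, σ ^ (2 * n + 2) * b n +
          σ ^ (2 * N + 2) * b N)| + |σ ^ (2 * N + 2) * b N| := by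
      have e2 : (2 * d - Es) - ∑ n ∈ Finset.range N, σ ^ (2 * n + 2) * b n =
        ((2 * d - Es) - (∑ n ∈ Finset.range N, σ ^ (2 * n + 2) * b n +
          σ ^ (2 * N + 2) * b N)) + σ ^ (2 * N + 2) * b N := by ring
      rw [e2]
      exact abs_add_le _ _
    have h4 : |σ ^ (2 * N + 2) * b N| = |b N| * σ ^ (2 * (N + 1)) := by
      rw [abs_mul, abs_of_pos (by positivity : 0 < σ ^ (2 * N + 2))]
      ring
    have h5 : C1 * (σ ^ (2 * (N + 1)) * √σ) ≤ C1 * σ ^ (2 * (N + 1)) := by gcongr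
    linarith
  · have h1 : |(2 * d - Es) - ∑ n ∈ Finset.range N, σ ^ (2 * n + 2) * b n| ≤ B := by
      refine (abs_sub _ _).trans ?_
      rw [hB, abs_sub_comm]
      apply add_le_add hEs
      refine (Finset.abs_sum_le_sum_abs _ _).trans (Finset.sum_le_sum fun n _ => ?_)
      rw [abs_mul, abs_of_pos (by positivity : 0 < σ ^ (2 * n + 2))]
      exact mul_le_of_le_one_left (abs_nonneg _) (pow_le_one₀ hσ.le hσ1')
    have h2 : t ^ (2 * (N + 1)) ≤ σ ^ (2 * (N + 1)) := by gcongr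
    have h3 : B ≤ B / t ^ (2 * (N + 1)) * σ ^ (2 * (N + 1)) := by
      rw [div_mul_eq_mul_div, le_div_iff₀ (by positivity)]
      gcongr
    linarith

end Pool.Agent.Y661.EX
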