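import Pool.Agent.Results.MP_28b024_mp.MobilityEdgeScale
import Pool.Agent.Y661.EX.GauF

/-! Laws with bounded density on `[-1,1]`: the expansion of the effective edges. -/

set_option autoImplicit false
set_option linter.unusedSectionVars false

open scoped BigOperators ENNReal Topology
open MeasureTheory ProbabilityTheory Filter

namespace Pool.Agent.Y661.EX

open Pool.Agent.H4R2.AE (T Hop)
open Pool.Agent.H4R2.AE.Conc (PP QQ int_mp)
open Pool.Agent.Y661.ED (Gd)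

theorem bdd_mom (μ : Measure ℝ) [IsProbabilityMeasure μ] (h : μ (Set.Icc (-1) 1)ᶜ = 0) (n : ℕ) :
    Integrable (fun t : ℝ => |t| ^ n) μ := by
  have h1 : ∀ᵐ t ∂μ, t ∈ Set.Icc (-1 : ℝ) 1 := by
    rw [ae_iff]
    exact h
  refine Integrable.mono' (integrable_const (1 : ℝ)) (by fun_prop) ?_
  filter_upwards [h1] with t ht
  have h2 : |t| ≤ 1 := abs_le.2 ht
  rw [Real.norm_eq_abs, abs_of_nonneg (by positivity)]
  exact pow_le_one₀ (abs_nonneg _) h2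

/-- the flat states near the edge `Es` -/
def FlatB (d : ℕ) (μ : Measure ℝ) (k K lam Es : ℝ) : Prop :=
  ∀ (L : ℕ) [NeZero L],
    (L : ℝ) ≤ Real.exp (k * Pool.Agent.Results.MP_28b024_mp.MobilityEdgeScale.sc d lam) →
    ∃ G : Set (T d L → ℝ),
      1 - Real.exp (-(k * Pool.Agent.Results.MP_28b024_mp.MobilityEdgeScale.sc d lam)) ≤
        (Measure.pi fun _ : T d L => μ).real G ∧
      ∀ V ∈ G, ∃ (E0 : ℝ) (ψ : T d L → ℝ), |E0 - Es| ≤ K / (L : ℝ) ^ 2 ∧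
        (∀ x, 0 < ψ x) ∧ ∀ x, Hop lam V ψ x = E0 * ψ x

theorem flat_ofB (d : ℕ) (hd : 4 ≤ d) (k : ℝ) (hk : 0 < k) (N : ℕ) : ∃ σ1 : ℝ, 0 < σ1 ∧ σ1 ≤ 1 ∧
    ∀ (μ : Measure ℝ) (K lam Es : ℝ), 0 < lam → lam ≤ σ1 → FlatB d μ k K lam Es →
      ∀ (L : ℕ) [NeZero L], (L : ℝ) ≤ (1 / lam) ^ (2 * (N + 1)) →
        FlatAt d μ K lam Es L := by
  obtain ⟨σ1, hσ1, hσ11, h⟩ := exp_big k hk (2 * (N + 1))
  refine ⟨σ1, hσ1, hσ11, ?_⟩
  intro μ K lam Es hl hll hfl L _ hL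
  obtain ⟨h1, h2⟩ := h lam (Pool.Agent.Results.MP_28b024_mp.MobilityEdgeScale.sc d lam) hl hll
    (Pool.Agent.Results.MP_28b024_mp.MobilityEdgeScale.sc_ge d hd lam hl (hll.trans hσ11))
  obtain ⟨G, hP, hG⟩ := hfl L (hL.trans h1)
  exact ⟨G, by linarith, hG⟩

/-- the coefficients of the lower edge -/
noncomputable def cb (d : ℕ) (μ : Measure ℝ) (n : ℕ) : ℝ := if n = 0 then 0 else bco μ d n

section

variable (μ : Measure ℝ) [IsProbabilityMeasure μ] (hμ : ∀ n : ℕ, Integrable (fun t : ℝ => |t| ^ n) μ)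

include hμ

theorem expB (d : ℕ) (hd : 4 ≤ d) (k K : ℝ) (hk : 0 < k) (hK : 0 ≤ K)
    (hex : ∀ lam : ℝ, 0 < lam → lam ≤ k → ∃ Es : ℝ, FlatB d μ k K lam Es) (N : ℕ) :
    ∃ C : ℝ, 0 ≤ C ∧ ∀ lam : ℝ, 0 < lam → lam ≤ k → ∀ Es : ℝ, |Es| ≤ k → FlatB d μ k K lam Es →
      |Es - ∑ n ∈ Finset.range (N + 1), cb d μ n * lam ^ n| ≤ C * lam ^ (N + 1) := by
  obtain ⟨σ1, hσ1, hσ11, hfl⟩ := flat_ofB d hd k hk (N + 1)
  have hE : HE d μ K (N + 1) := by
    refine ⟨min σ1 k, lt_min hσ1 hk, fun σ hσ hσσ => ?_⟩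
    obtain ⟨Es, h1⟩ := hex σ hσ (hσσ.trans (min_le_right _ _))
    exact ⟨Es, hfl μ K σ Es hσ (hσσ.trans (min_le_left _ _)) h1⟩
  obtain ⟨C1, σ0, hC1, hσ0, hexp⟩ := expansion μ hμ d hd (N + 1) K hK hE
  obtain ⟨t, ht⟩ : ∃ t : ℝ, t = min σ0 (min σ1 k) := ⟨_, rfl⟩
  have ht0 : 0 < t := by rw [ht]; positivity
  obtain ⟨b, hb⟩ : ∃ b : ℕ → ℝ, b = fun n => bco μ d (n + 1) := ⟨_, rfl⟩
  obtain ⟨B, hB⟩ : ∃ B : ℝ, B = k + ∑ n ∈ Finset.range N, k ^ (n + 1) * |b n| := ⟨_, rfl⟩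
  have hB0 : 0 ≤ B := by
    rw [hB]
    have : 0 ≤ ∑ n ∈ Finset.range N, k ^ (n + 1) * |b n| :=
      Finset.sum_nonneg fun _ _ => by positivity
    linarith
  have hpoly : ∀ σ : ℝ, ∑ n ∈ Finset.range (N + 1), cb d μ n * σ ^ n =
      ∑ n ∈ Finset.range N, σ ^ (n + 1) * b n := by
    intro σ
    rw [Finset.sum_range_succ']
    have e1 : cb d μ 0 * σ ^ 0 = 0 := by
      unfold cb
      simp
    rw [e1, add_zero]
    refine Finset.sum_congr rfl fun n _ => ?_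
    unfold cb
    rw [if_neg (by omega), hb]
    ring
  refine ⟨(C1 + |b N|) + B / t ^ (N + 1), by positivity, ?_⟩
  intro σ hσ hσk Es hEs hF
  have hp : 0 < σ ^ (N + 1) := by positivity
  have hn1 : 0 ≤ (C1 + |b N|) * σ ^ (N + 1) := by positivity
  have hn2 : 0 ≤ B / t ^ (N + 1) * σ ^ (N + 1) := by positivity
  rw [hpoly, add_mul]
  rcases le_or_gt σ t with h | h
  · have a1 : σ ≤ σ0 := h.trans (by rw [ht]; exact min_le_left _ _)
    have a2 : σ ≤ σ1 := h.trans (by rw [ht]; exact (min_le_right _ _).trans (min_le_left _ _))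
    have h1 := hexp σ hσ a1 Es (hfl μ K σ Es hσ a2 hF)
    have e1 : ∑ k ∈ Finset.range (N + 1), σ ^ (k + 1) * bco μ d (k + 1) =
        ∑ n ∈ Finset.range (N + 1), σ ^ (n + 1) * b n := by
      refine Finset.sum_congr rfl fun n _ => ?_
      rw [hb]
    rw [e1, Finset.sum_range_succ] at h1
    have h2 : σ ^ (N + 1) * √σ ≤ σ ^ (N + 1) :=
      mul_le_of_le_one_right hp.le (Real.sqrt_le_one.2 (a2.trans hσ11))
    have h3 : |Es - ∑ n ∈ Finset.range N, σ ^ (n + 1) * b n| ≤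
        |Es - (∑ n ∈ Finset.range N, σ ^ (n + 1) * b n + σ ^ (N + 1) * b N)| +
          |σ ^ (N + 1) * b N| := by
      have e2 : Es - ∑ n ∈ Finset.range N, σ ^ (n + 1) * b n =
        (Es - (∑ n ∈ Finset.range N, σ ^ (n + 1) * b n + σ ^ (N + 1) * b N)) +
          σ ^ (N + 1) * b N := by ring
      rw [e2]
      exact abs_add_le _ _
    have h4 : |σ ^ (N + 1) * b N| = |b N| * σ ^ (N + 1) := by
      rw [abs_mul, abs_of_pos hp]
      ring
    have h5 : C1 * (σ ^ (N + 1) * √σ) ≤ C1 * σ ^ (N + 1) := by gcongr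
    linarith
  · have h1 : |Es - ∑ n ∈ Finset.range N, σ ^ (n + 1) * b n| ≤ B := by
      refine (abs_sub _ _).trans ?_
      rw [hB]
      apply add_le_add hEs
      refine (Finset.abs_sum_le_sum_abs _ _).trans (Finset.sum_le_sum fun n _ => ?_)
      rw [abs_mul, abs_of_pos (by positivity : 0 < σ ^ (n + 1))]
      gcongr
    have h2 : t ^ (N + 1) ≤ σ ^ (N + 1) := by gcongr
    have h3 : B ≤ B / t ^ (N + 1) * σ ^ (N + 1) := by
      rw [div_mul_eq_mul_div, le_div_iff₀ (by positivity)]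
      gcongr
    linarith

/-- the diagonal of the Green function on the torus converges -/
theorem gdiag_lim (d : ℕ) (hd : 4 ≤ d) :
    Tendsto (fun m : ℕ => Gdiag d (2 ^ m)) atTop (𝓝 (Gd d)) := by
  have h := bco_lim d hd 1
  have h1 : ∀ m : ℕ, aL (gaussianReal 0 1) d (2 ^ m) (1 + 1) = -Gdiag d (2 ^ m) := by
    intro m
    have h2 := aL_two (d := d) (L := 2 ^ m) (gaussianReal 0 1) gauss_mom
    have e1 : ∫ t, t ∂(gaussianReal 0 1) = 0 := integral_id_gaussianReal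
    have e2 : ∫ t, t ^ 2 ∂(gaussianReal 0 1) = 1 := by
      have h3 := variance_fun_id_gaussianReal (μ := 0) (v := 1)
      rw [variance_eq_integral measurable_id'.aemeasurable] at h3
      simpa [integral_id_gaussianReal] using h3
    rw [e1, e2] at h2
    rw [h2]
    ring
  simp only [h1] at h
  have h3 := h.neg
  simp only [neg_neg] at h3
  have e : bco (gaussianReal 0 1) d (1 + 1) = -Gd d := bco_two d hd
  rwa [e, neg_neg] at h3

theorem cb_one (d : ℕ) (hd : 4 ≤ d) (K : ℝ) (hK : 0 ≤ K) (hE : HE d μ K 1) :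
    cb d μ 1 = ∫ t, t ∂μ := by
  obtain ⟨C, n0, ρ, -, -, -, -, hl⟩ := lim_bco μ hμ d hd 1 K hK hE
  have h := (hl 0 (by norm_num)).1
  simp only [zero_add, aL_one μ hμ] at h
  have := tendsto_nhds_unique h tendsto_const_nhds
  unfold cb
  rw [if_neg one_ne_zero, this]

theorem cb_two (d : ℕ) (hd : 4 ≤ d) (K : ℝ) (hK : 0 ≤ K) (hE : HE d μ K 2) :
    cb d μ 2 = -(((∫ t, t ^ 2 ∂μ) - (∫ t, t ∂μ) ^ 2) * Gd d) := by
  obtain ⟨C, n0, ρ, -, -, -, -, hl⟩ := lim_bco μ hμ d hd 2 K hK hE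
  have h := (hl 1 (by norm_num)).1
  have h1 : ∀ m : ℕ, aL μ d (2 ^ m) (1 + 1) =
      -(((∫ t, t ^ 2 ∂μ) - (∫ t, t ∂μ) ^ 2) * Gdiag d (2 ^ m)) := fun m => aL_two μ hμ
  simp only [h1] at h
  have h2 := ((gdiag_lim μ hμ d hd).const_mul ((∫ t, t ^ 2 ∂μ) - (∫ t, t ∂μ) ^ 2)).neg
  have := tendsto_nhds_unique h h2
  unfold cb
  rw [if_neg two_ne_zero]
  exact this

end

end Pool.Agent.Y661.EX
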