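import Pool.Agent.Y661.EX.Bdd

/-! Laws with bounded density on `[-1,1]`: the final theorem. -/

set_option autoImplicit false
set_option linter.unusedSectionVars false

open scoped BigOperators ENNReal Topology
open MeasureTheory ProbabilityTheory Filter

namespace Pool.Agent.Y661.EX

open Pool.Agent.Results.MP_28b024_mp.MobilityEdgeScale

/-- `e n` are the Taylor coefficients at `λ = 0` of the lowest eigenvalue of `-Δ + λ V` on the
torus -/
def IsGroundTaylor {d L : ℕ} [NeZero L] (V : T d L → ℝ) (e : ℕ → ℝ) : Prop :=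
  ∀ N : ℕ, ∃ C δ : ℝ, 0 < δ ∧ ∀ lam : ℝ, 0 < lam → lam ≤ δ → ∀ (E : ℝ) (ψ : T d L → ℝ),
    (∀ x, 0 < ψ x) → (∀ x, HT lam V ψ x = E * ψ x) →
      |E - ∑ n ∈ Finset.range (N + 1), e n * lam ^ n| ≤ C * lam ^ (N + 1)

theorem ep_taylor {d L : ℕ} [NeZero L] (V : T d L → ℝ) : IsGroundTaylor V (ep V) := by
  intro N
  obtain ⟨C, l0, hl0, h⟩ := taylor V N
  refine ⟨C, l0, hl0, ?_⟩
  intro lam hl hll E ψ hψ hE
  have h1 := h lam hl hll E ψ hψ (fun x => by rw [← HT_eq]; exact hE x)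
  have h2 : ∑ n ∈ Finset.range (N + 1), ep V n * lam ^ n =
      ∑ k ∈ Finset.range N, lam ^ (k + 1) * ep V (k + 1) := by
    rw [Finset.sum_range_succ']
    have e1 : ep V 0 * lam ^ 0 = 0 := by
      show (0 : ℝ) * lam ^ 0 = 0
      rw [zero_mul]
    rw [e1, add_zero]
    exact Finset.sum_congr rfl fun n _ => mul_comm _ _
  rw [h2]
  exact h1

theorem flatB_of (d : ℕ) (η : ℝ) (μ : Measure ℝ) (k K lam Es : ℝ)
    (h : ∀ (L : ℕ) [NeZero L], (L : ℝ) ≤ Real.exp (k * sc d lam) →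
        ∃ G : Set (T d L → ℝ), MeasurableSet G ∧
          1 - Real.exp (-(k * sc d lam)) ≤ (Measure.pi fun _ : T d L => μ).real G ∧
          ∀ V ∈ G, ExtendedGroundState lam η (K / (L : ℝ) ^ 2) Es V) :
    FlatB d μ k K lam Es := by
  intro L _ hL
  obtain ⟨G, -, hP, hG⟩ := h L hL
  refine ⟨G, hP, fun V hV => ?_⟩
  obtain ⟨E0, ψ, h1, h2, h3, -⟩ := hG V hV
  exact ⟨E0, ψ, h1, fun x => by linarith [(h2 x).1], fun x => by rw [← HT_eq]; exact h3 x⟩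

/-- existence of the edges to all orders -/
theorem heB (d : ℕ) (hd : 4 ≤ d) (μ : Measure ℝ) [IsProbabilityMeasure μ]
    (h1 : μ (Set.Icc (-1) 1)ᶜ = 0) (M : ℝ) (hM : 0 < M)
    (h2 : μ ≤ ENNReal.ofReal M • (volume : Measure ℝ)) :
    ∃ K : ℝ, 0 ≤ K ∧ ∀ N, HE d μ K N := by
  obtain ⟨k, K, hk, hK, -, h⟩ := side d hd M hM 1 one_pos le_rfl
  refine ⟨K, hK.le, fun N => ?_⟩
  obtain ⟨σ1, hσ1, hσ11, hf⟩ := flat_ofB d hd k hk N
  refine ⟨min σ1 k, lt_min hσ1 hk, ?_⟩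
  intro lam hl hll
  obtain ⟨Es, -, h3, -⟩ := h μ h1 h2 lam hl (hll.trans (min_le_right _ _))
  refine ⟨Es, hf μ K lam Es hl (hll.trans (min_le_left _ _)) ?_⟩
  apply flatB_of d 1
  intro L _ hL
  obtain ⟨G, hG, hP, hF⟩ := h3 L hL
  exact ⟨G, hG, hP, fun V hV => extended_of (hF V hV)⟩

/-- reflection of the law -/
theorem cb_neg (d : ℕ) (hd : 4 ≤ d) (μ : Measure ℝ) [IsProbabilityMeasure μ]
    (h1 : μ (Set.Icc (-1) 1)ᶜ = 0) (M : ℝ) (hM : 0 < M)
    (h2 : μ ≤ ENNReal.ofReal M • (volume : Measure ℝ)) (n : ℕ) :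
    cb d (μ.map fun t => -t) n = (-1) ^ n * cb d μ n := by
  have hm : IsProbabilityMeasure (μ.map fun t : ℝ => -t) :=
    Measure.isProbabilityMeasure_map measurable_neg.aemeasurable
  unfold cb
  cases n with
  | zero => simp
  | succ n =>
    rw [if_neg (by omega), if_neg (by omega)]
    obtain ⟨K, hK, hE⟩ := heB d hd μ h1 M hM h2
    obtain ⟨K', hK', hE'⟩ := heB d hd (μ.map fun t => -t) (supp_neg μ h1) M hM (dens_neg μ M h2)
    obtain ⟨_, _, _, -, -, -, -, hl⟩ := lim_bco μ (bdd_mom μ h1) d hd (n + 1) K hK (hE (n + 1))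
    obtain ⟨_, _, _, -, -, -, -, hl'⟩ := lim_bco (μ.map fun t => -t)
      (bdd_mom _ (supp_neg μ h1)) d hd (n + 1) K' hK' (hE' (n + 1))
    have a1 := (hl n (by omega)).1
    have a2 := (hl' n (by omega)).1
    simp only [aL_neg] at a2
    exact tendsto_nhds_unique a2 (a1.const_mul _)

/-- **the expansion** -/
theorem mainB (d : ℕ) (hd : 4 ≤ d) :
    ∃ (e : (L : ℕ) → (T d (L + 1) → ℝ) → ℕ → ℝ) (a : Measure ℝ → ℕ → ℝ),
    (∀ L V, IsGroundTaylor V (e L V)) ∧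
    (∀ (μ : Measure ℝ) [IsProbabilityMeasure μ], μ (Set.Icc (-1) 1)ᶜ = 0 →
      (∃ M : ℝ, μ ≤ ENNReal.ofReal M • (volume : Measure ℝ)) →
      a μ 0 = 0 ∧ a μ 1 = ∫ t, t ∂μ ∧
      a μ 2 = -(((∫ t, t ^ 2 ∂μ) - (∫ t, t ∂μ) ^ 2) * Pool.Agent.Y661.ED.Gd d) ∧
      ∀ n, (∀ L, Integrable (fun V => e L V n) (Measure.pi fun _ : T d (L + 1) => μ)) ∧
        Tendsto (fun L : ℕ => ∫ V, e L V n ∂(Measure.pi fun _ : T d (L + 1) => μ)) atTop
          (𝓝 (a μ n))) ∧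
    ∀ (M : ℝ), 0 < M → ∀ η : ℝ, 0 < η → η ≤ 1 → ∃ k K : ℝ, 0 < k ∧ 0 < K ∧
      ∀ (μ : Measure ℝ) [IsProbabilityMeasure μ],
      μ (Set.Icc (-1) 1)ᶜ = 0 → μ ≤ ENNReal.ofReal M • (volume : Measure ℝ) →
      ∃ Em Ep : ℝ → ℝ,
      (∀ N : ℕ, ∃ C : ℝ, ∀ lam : ℝ, 0 < lam → lam ≤ k →
        |Em lam - ∑ n ∈ Finset.range (N + 1), a μ n * lam ^ n| ≤ C * lam ^ (N + 1) ∧
        |Ep lam - (4 * d - ∑ n ∈ Finset.range (N + 1), a μ n * (-lam) ^ n)| ≤
          C * lam ^ (N + 1)) ∧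
      ∀ lam : ℝ, 0 < lam → lam ≤ k →
      (∀ (L : ℕ) [NeZero L], (L : ℝ) ≤ Real.exp (k * sc d lam) →
        ∃ G : Set (T d L → ℝ), MeasurableSet G ∧
          1 - Real.exp (-(k * sc d lam)) ≤ (Measure.pi fun _ : T d L => μ).real G ∧
          ∀ V ∈ G, ExtendedGroundState lam η (K / (L : ℝ) ^ 2) (Em lam) V) ∧
      (∀ (L : ℕ) [NeZero L], (L : ℝ) ≤ Real.exp (k * sc d lam) →
        ∃ G : Set (T d L → ℝ), MeasurableSet G ∧
          1 - Real.exp (-(k * sc d lam)) ≤ (Measure.pi fun _ : T d L => μ.map fun t => -t).real G ∧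
          ∀ V ∈ G, ExtendedGroundState lam η (K / (L : ℝ) ^ 2) (4 * d - Ep lam) V) ∧
      (∀ κ : ℝ, Real.exp (-(k * sc d lam)) ≤ κ → κ ≤ 1 →
        ∀ᵐ ω ∂(Measure.infinitePi fun _ : Fin d → ℤ => μ),
          Localized (H lam ω) {E | E ≤ Em lam - κ ∨ Ep lam + κ ≤ E}
            (k * Real.sqrt κ / Real.log (2 / (κ * lam)))) ∧
      ∃ Bad : ((Fin d → ℤ) → ℝ) → Set (Fin d → ℤ),
        (∀ x, MeasurableSet {ω | x ∈ Bad ω}) ∧
        (∀ ω a x, x ∈ Bad (fun y => ω (y + a)) ↔ x + a ∈ Bad ω) ∧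
        (∀ x, (Measure.infinitePi fun _ : Fin d → ℤ => μ).real {ω | x ∈ Bad ω} ≤
          Real.exp (-(k * sc d lam))) ∧
        ∀ ω x, x ∉ Bad ω → ∀ κ : ℝ, Real.exp (-(k * sc d lam)) ≤ κ → κ ≤ 1 →
          (∀ (E : ℝ) (u : (Fin d → ℤ) → ℂ), (E ≤ Em lam + κ ∨ Ep lam - κ ≤ E) → SqSummable u →
            (∀ y, H lam ω u y = (E : ℂ) * u y) →
              ‖u x‖ ^ 2 ≤ K * κ ^ ((d : ℝ) / 2) * ∑' y, ‖u y‖ ^ 2) ∧
          ∀ m : Measure ℝ, IsSpectralMeasureAt (H lam ω) x m →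
            m.real (Set.Iic (Em lam + κ)) ≤ K * κ ^ ((d : ℝ) / 2) := by
  refine ⟨fun L V => ep V, fun μ => cb d μ, fun L V => ep_taylor V, ?_, ?_⟩
  · intro μ _ hs hM'
    obtain ⟨M', hM'⟩ := hM'
    obtain ⟨M, hM, hMM⟩ : ∃ M : ℝ, 0 < M ∧ μ ≤ ENNReal.ofReal M • (volume : Measure ℝ) := by
      refine ⟨max M' 1, by positivity, hM'.trans ?_⟩
      have h1 : ENNReal.ofReal M' ≤ ENNReal.ofReal (max M' 1) :=
        ENNReal.ofReal_le_ofReal (le_max_left _ _)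
      intro s
      simp only [Measure.smul_apply, smul_eq_mul]
      gcongr
    obtain ⟨K, hK, hE⟩ := heB d hd μ hs M hM hMM
    refine ⟨by simp [cb], cb_one μ (bdd_mom μ hs) d hd K hK (hE 1),
      cb_two μ (bdd_mom μ hs) d hd K hK (hE 2), fun n => ⟨fun L => ?_, ?_⟩⟩
    · cases n with
      | zero =>
        show Integrable (fun _ => (0 : ℝ)) _
        exact integrable_const _
      | succ n => exact pb_int μ (bdd_mom μ hs) (pb_ep n)
    · cases n with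
      | zero =>
        have h1 : ∀ L : ℕ, ∫ V : T d (L + 1) → ℝ, ep V 0
            ∂(Measure.pi fun _ : T d (L + 1) => μ) = 0 := by
          intro L
          show ∫ V : T d (L + 1) → ℝ, (0 : ℝ) ∂(Measure.pi fun _ : T d (L + 1) => μ) = 0
          simp
        simp only [h1]
        unfold cb
        simp
      | succ n =>
        have h1 := lim_all μ (bdd_mom μ hs) d hd (n + 1) K hK (hE (n + 1)) n (by omega)
        have e2 : cb d μ (n + 1) = bco μ d (n + 1) := if_neg (by omega)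
        rw [← e2] at h1
        exact h1
  · intro M hM η hη hη1
    obtain ⟨k, K, hk, hK, h⟩ := result d hd M hM η hη hη1
    refine ⟨k, K, hk, hK, ?_⟩
    intro μ _ hs hD
    have hm : IsProbabilityMeasure (μ.map fun t : ℝ => -t) :=
      Measure.isProbabilityMeasure_map measurable_neg.aemeasurable
    have h' := h μ hs hD
    choose! Em Ep h1 h2 h3 h4 h5 h6 using h'
    refine ⟨Em, Ep, ?_, fun lam hl hlk => ⟨h3 lam hl hlk, h4 lam hl hlk, h5 lam hl hlk,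
      h6 lam hl hlk⟩⟩
    intro N
    obtain ⟨C1, hC1, hc1⟩ := expB μ (bdd_mom μ hs) d hd k K hk hK.le
      (fun lam hl hlk => ⟨Em lam, flatB_of d η μ k K lam (Em lam) (h3 lam hl hlk)⟩) N
    obtain ⟨C2, hC2, hc2⟩ := expB (μ.map fun t => -t) (bdd_mom _ (supp_neg μ hs)) d hd k K hk hK.le
      (fun lam hl hlk => ⟨4 * d - Ep lam, flatB_of d η _ k K lam (4 * d - Ep lam)
        (h4 lam hl hlk)⟩) N
    refine ⟨C1 + C2, fun lam hl hlk => ⟨?_, ?_⟩⟩
    · have q := hc1 lam hl hlk (Em lam) ((h1 lam hl hlk).trans hlk)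
        (flatB_of d η μ k K lam (Em lam) (h3 lam hl hlk))
      have q2 : 0 ≤ C2 * lam ^ (N + 1) := by positivity
      linarith
    · have q := hc2 lam hl hlk (4 * d - Ep lam) (by
        rw [abs_sub_comm]
        exact (h2 lam hl hlk).trans hlk)
        (flatB_of d η _ k K lam (4 * d - Ep lam) (h4 lam hl hlk))
      have q2 : 0 ≤ C1 * lam ^ (N + 1) := by positivity
      have e1 : ∑ n ∈ Finset.range (N + 1), cb d (μ.map fun t => -t) n * lam ^ n =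
          ∑ n ∈ Finset.range (N + 1), cb d μ n * (-lam) ^ n := by
        refine Finset.sum_congr rfl fun n _ => ?_
        rw [cb_neg d hd μ hs M hM hD, neg_pow lam]
        ring
      rw [e1] at q
      have e2 : Ep lam - (4 * d - ∑ n ∈ Finset.range (N + 1), cb d μ n * (-lam) ^ n) =
          -((4 * d - Ep lam) - ∑ n ∈ Finset.range (N + 1), cb d μ n * (-lam) ^ n) := by ring
      rw [e2, abs_neg]
      linarith

end Pool.Agent.Y661.EX
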