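import Pool.Agent.Y661.EX.Ser

/-! The dependence of the correctors on the value of the potential at one site. -/

set_option autoImplicit false
set_option linter.unusedSectionVars false

open scoped BigOperators
open PowerSeries (coeff mk X C)

namespace Pool.Agent.Y661.EX

open Pool.Agent.H4R2.AE (T)

/-- the norm of the coefficients up to order `n` -/
noncomputable def nrm (n : ℕ) (f : PowerSeries ℝ) : ℝ := ∑ k ∈ Finset.range (n + 1), |coeff k f|

theorem nrm_nonneg (n : ℕ) (f : PowerSeries ℝ) : 0 ≤ nrm n f :=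
  Finset.sum_nonneg fun _ _ => abs_nonneg _

theorem coeff_le (n k : ℕ) (hk : k ≤ n) (f : PowerSeries ℝ) : |coeff k f| ≤ nrm n f :=
  Finset.single_le_sum (f := fun k => |coeff k f|) (fun _ _ => abs_nonneg _)
    (Finset.mem_range.2 (by omega))

theorem nrm_add (n : ℕ) (f g : PowerSeries ℝ) : nrm n (f + g) ≤ nrm n f + nrm n g := by
  unfold nrm
  rw [← Finset.sum_add_distrib]
  refine Finset.sum_le_sum fun k _ => ?_
  rw [map_add]
  exact abs_add_le _ _

theorem nrm_neg (n : ℕ) (f : PowerSeries ℝ) : nrm n (-f) = nrm n f := by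
  unfold nrm
  refine Finset.sum_congr rfl fun k _ => ?_
  rw [map_neg, abs_neg]

theorem nrm_sub (n : ℕ) (f g : PowerSeries ℝ) : nrm n (f - g) ≤ nrm n f + nrm n g := by
  rw [sub_eq_add_neg]
  refine (nrm_add n _ _).trans ?_
  rw [nrm_neg]

theorem nrm_sum {ι : Type*} (s : Finset ι) (n : ℕ) (f : ι → PowerSeries ℝ) :
    nrm n (∑ i ∈ s, f i) ≤ ∑ i ∈ s, nrm n (f i) := by
  classical
  induction s using Finset.induction_on with
  | empty => simp [nrm]
  | insert i s hi ih =>
    rw [Finset.sum_insert hi, Finset.sum_insert hi]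
    exact (nrm_add n _ _).trans (by linarith)

theorem nrm_mul (n : ℕ) (f g : PowerSeries ℝ) : nrm n (f * g) ≤ nrm n f * nrm n g := by
  have h1 : ∀ k ∈ Finset.range (n + 1), |coeff k (f * g)| ≤
      ∑ i ∈ Finset.range (n + 1), ∑ j ∈ Finset.range (n + 1),
        if i + j = k then |coeff i f| * |coeff j g| else 0 := by
    intro k hk
    rw [PowerSeries.coeff_mul, Finset.Nat.sum_antidiagonal_eq_sum_range_succ_mk]
    refine (Finset.abs_sum_le_sum_abs _ _).trans ?_
    rw [Finset.mem_range] at hk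
    have h2 : ∑ i ∈ Finset.range k.succ, |coeff i f * coeff (k - i) g| ≤
        ∑ i ∈ Finset.range k.succ, ∑ j ∈ Finset.range (n + 1),
          if i + j = k then |coeff i f| * |coeff j g| else 0 := by
      refine Finset.sum_le_sum fun i hi => ?_
      rw [Finset.mem_range] at hi
      rw [abs_mul]
      have h3 := Finset.single_le_sum (s := Finset.range (n + 1))
        (f := fun j => if i + j = k then |coeff i f| * |coeff j g| else 0)
        (fun j _ => by
          beta_reduce
          split_ifs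
          · exact mul_nonneg (abs_nonneg _) (abs_nonneg _)
          · exact le_rfl) (Finset.mem_range.2 (show k - i < n + 1 by omega))
      beta_reduce at h3
      rwa [if_pos (by omega)] at h3
    refine h2.trans (Finset.sum_le_sum_of_subset_of_nonneg ?_ fun i _ _ => ?_)
    · intro i hi
      rw [Finset.mem_range] at hi ⊢
      omega
    · refine Finset.sum_nonneg fun j _ => ?_
      split_ifs
      · exact mul_nonneg (abs_nonneg _) (abs_nonneg _)
      · exact le_rfl
  unfold nrm
  refine (Finset.sum_le_sum h1).trans ?_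
  rw [Finset.sum_mul_sum, Finset.sum_comm]
  refine Finset.sum_le_sum fun i _ => ?_
  rw [Finset.sum_comm]
  refine Finset.sum_le_sum fun j _ => ?_
  rw [Finset.sum_ite_eq]
  split_ifs
  · exact le_rfl
  · exact mul_nonneg (abs_nonneg _) (abs_nonneg _)

theorem nrm_C (n : ℕ) (a : ℝ) : nrm n (C a) = |a| := by
  unfold nrm
  rw [Finset.sum_range_succ']
  have : ∀ k ∈ Finset.range n, |coeff (k + 1) (C a : PowerSeries ℝ)| = 0 := fun k _ => by
    rw [PowerSeries.coeff_C]
    simp
  rw [Finset.sum_eq_zero this, zero_add]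
  simp

theorem nrm_sq (n : ℕ) (f : PowerSeries ℝ) :
    nrm n f ^ 2 ≤ (n + 1) * ∑ k ∈ Finset.range (n + 1), coeff k f ^ 2 := by
  unfold nrm
  refine sq_sum_le_card_mul_sum_sq.trans (le_of_eq ?_)
  rw [Finset.card_range]
  push_cast
  congr 1
  exact Finset.sum_congr rfl fun k _ => sq_abs _

/-- bounds for the pinned kernel -/
theorem hk_bd (K : ℝ) (hK : 1 ≤ K) (n : ℕ) : ∃ B : ℝ, 1 ≤ B ∧ ∀ (d L : ℕ) [NeZero L] (Γ : ℝ)
    (z : T d L) (w : T d L → ℝ), (∀ u, 1 ≤ w u) → wn w (gd (Gz z)) ≤ Γ →
    ∑ x, Gz z x ^ 2 ≤ Γ → (∀ (F : T d L → Fin d → ℝ) (g : T d L → ℝ), ∑ x, g x = 0 →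
      (∀ x, Al g x = dv F x) → ∑ x, g x ^ 2 ≤ K * wn w F ∧ wn w (gd g) ≤ K * wn w F) →
    ∀ (c : ℕ → T d L → Fin d → ℝ) (M : ℝ), 1 ≤ M →
      (∀ k, 1 ≤ k → k ≤ n → ∀ y i, |c k y i| ≤ M) → ∀ j ≤ n,
        ∑ x, hk c z j x ^ 2 ≤ B * Γ * M ^ (2 * n) ∧
        wn w (gd (hk c z j)) ≤ B * Γ * M ^ (2 * n) := by
  induction n with
  | zero =>
    refine ⟨1, le_rfl, ?_⟩
    intro d L _ Γ z w hw h1 h2 h3 c M hM hc j hj
    have hj0 : j = 0 := by omega
    subst hj0
    rw [hk_zero]
    simp only [one_mul, mul_zero, pow_zero, mul_one]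
    exact ⟨h2, h1⟩
  | succ n ih =>
    obtain ⟨B, hB, h⟩ := ih
    refine ⟨K * ((n : ℝ) + 1) ^ 2 * B, ?_, ?_⟩
    · have h1 : (1 : ℝ) ≤ ((n : ℝ) + 1) ^ 2 := one_le_pow₀ (by
        have : (0 : ℝ) ≤ n := Nat.cast_nonneg n
        linarith)
      calc (1 : ℝ) = 1 * 1 * 1 := by norm_num
        _ ≤ K * ((n : ℝ) + 1) ^ 2 * B := by gcongr
    intro d L _ Γ z w hw h1 h2 h3 c M hM hc j hj
    have hw0 : ∀ u, 0 ≤ w u := fun u => by linarith [hw u]
    have hΓ0 : 0 ≤ Γ := (Finset.sum_nonneg fun x _ => sq_nonneg (Gz z x)).trans h2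
    have ih2 := h d L Γ z w hw h1 h2 h3 c M hM (fun k hk1 hk2 => hc k hk1 (by omega))
    have hn1 : (1 : ℝ) ≤ ((n : ℝ) + 1) ^ 2 := one_le_pow₀ (by
      have : (0 : ℝ) ≤ n := Nat.cast_nonneg n
      linarith)
    have hMp : M ^ (2 * n) ≤ M ^ (2 * (n + 1)) := pow_le_pow_right₀ hM (by omega)
    have hbig : B * Γ * M ^ (2 * n) ≤ K * ((n : ℝ) + 1) ^ 2 * B * Γ * M ^ (2 * (n + 1)) := by
      have h4 : 1 * 1 * B * Γ * M ^ (2 * n) ≤ K * ((n : ℝ) + 1) ^ 2 * B * Γ * M ^ (2 * (n + 1)) := by
        gcongr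
      linarith
    rcases Nat.lt_or_ge n j with hjn | hjn
    · have hj1 : j = n + 1 := by omega
      subst hj1
      obtain ⟨F, hF⟩ : ∃ F : T d L → Fin d → ℝ, F = fun y i => -∑ k ∈ Finset.range (n + 1),
        c (k + 1) y i * gd (hk c z (n - k)) y i := ⟨_, rfl⟩
      have h4 := h3 F (hk c z (n + 1)) (sum_hk c z (n + 1)) (fun x => by rw [al_hk, hF])
      have h5 : wn w F ≤ ((n : ℝ) + 1) ^ 2 * B * Γ * M ^ (2 * (n + 1)) := by
        have h6 : ∀ (y : T d L) (i : Fin d), w y * F y i ^ 2 ≤
            ((n : ℝ) + 1) * ∑ k ∈ Finset.range (n + 1), M ^ 2 *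
              (w y * gd (hk c z (n - k)) y i ^ 2) := by
          intro y i
          rw [hF]
          beta_reduce
          rw [neg_sq]
          have h7 := sq_sum_le_card_mul_sum_sq (s := Finset.range (n + 1))
            (f := fun k => c (k + 1) y i * gd (hk c z (n - k)) y i)
          rw [Finset.card_range] at h7
          push_cast at h7
          calc w y * (∑ k ∈ Finset.range (n + 1), c (k + 1) y i * gd (hk c z (n - k)) y i) ^ 2 ≤
                w y * (((n : ℝ) + 1) * ∑ k ∈ Finset.range (n + 1),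
                  (c (k + 1) y i * gd (hk c z (n - k)) y i) ^ 2) :=
                mul_le_mul_of_nonneg_left h7 (hw0 y)
            _ = ((n : ℝ) + 1) * ∑ k ∈ Finset.range (n + 1), w y *
                  (c (k + 1) y i * gd (hk c z (n - k)) y i) ^ 2 := by
                rw [← Finset.mul_sum]
                ring
            _ ≤ _ := by
                refine mul_le_mul_of_nonneg_left (Finset.sum_le_sum fun k hk1 => ?_) (by positivity)
                rw [Finset.mem_range] at hk1
                have h8 : c (k + 1) y i ^ 2 ≤ M ^ 2 := by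
                  rw [← sq_abs]
                  exact pow_le_pow_left₀ (abs_nonneg _) (hc (k + 1) (by omega) (by omega) y i) 2
                rw [mul_pow]
                calc w y * (c (k + 1) y i ^ 2 * gd (hk c z (n - k)) y i ^ 2) =
                      c (k + 1) y i ^ 2 * (w y * gd (hk c z (n - k)) y i ^ 2) := by ring
                  _ ≤ _ := by
                      apply mul_le_mul_of_nonneg_right h8
                      exact mul_nonneg (hw0 y) (sq_nonneg _)
        have h7 : wn w F ≤ ((n : ℝ) + 1) * ∑ k ∈ Finset.range (n + 1), M ^ 2 *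
            wn w (gd (hk c z (n - k))) := by
          unfold wn
          refine (Finset.sum_le_sum fun y _ => Finset.sum_le_sum fun i _ => h6 y i).trans
            (le_of_eq ?_)
          simp only [Finset.mul_sum]
          rw [Finset.sum_congr rfl fun y _ => Finset.sum_comm, Finset.sum_comm]
        refine h7.trans ?_
        have h8 : ∑ k ∈ Finset.range (n + 1), M ^ 2 * wn w (gd (hk c z (n - k))) ≤
            ∑ _k ∈ Finset.range (n + 1), M ^ 2 * (B * Γ * M ^ (2 * n)) := by
          refine Finset.sum_le_sum fun k _ => ?_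
          exact mul_le_mul_of_nonneg_left (ih2 (n - k) (by omega)).2 (sq_nonneg M)
        rw [Finset.sum_const, Finset.card_range, nsmul_eq_mul] at h8
        push_cast at h8
        calc ((n : ℝ) + 1) * ∑ k ∈ Finset.range (n + 1), M ^ 2 * wn w (gd (hk c z (n - k))) ≤
              ((n : ℝ) + 1) * (((n : ℝ) + 1) * (M ^ 2 * (B * Γ * M ^ (2 * n)))) := by gcongr
          _ = _ := by ring
      have h9 : K * wn w F ≤ K * ((n : ℝ) + 1) ^ 2 * B * Γ * M ^ (2 * (n + 1)) := by
        calc K * wn w F ≤ K * (((n : ℝ) + 1) ^ 2 * B * Γ * M ^ (2 * (n + 1))) := by gcongr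
          _ = _ := by ring
      exact ⟨h4.1.trans h9, h4.2.trans h9⟩
    · obtain ⟨a1, a2⟩ := ih2 j hjn
      exact ⟨a1.trans hbig, a2.trans hbig⟩

section

variable {d L : ℕ} [NeZero L]

/-- the difference quotient of two ground state series -/
noncomputable def gq (V V' : T d L → ℝ) (x : T d L) : PowerSeries ℝ :=
  (psi V x)⁻¹ * mk fun n => phi V' (n + 1) x - phi V (n + 1) x

/-- the difference quotient of two energy series -/
noncomputable def bq (V V' : T d L → ℝ) : PowerSeries ℝ :=
  mk fun n => ep V' (n + 1) - ep V (n + 1)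

theorem psi_gq (V V' : T d L → ℝ) (x : T d L) :
    psi V x * gq V V' x = mk fun n => phi V' (n + 1) x - phi V (n + 1) x := by
  unfold gq
  rw [← mul_assoc, PowerSeries.mul_inv_cancel _ (by rw [psi_const]; norm_num), one_mul]

theorem psi'_eq (V V' : T d L → ℝ) (x : T d L) :
    psi V' x = psi V x * (1 + X * gq V V' x) := by
  have h1 : psi V x * (1 + X * gq V V' x) = psi V x + X * (psi V x * gq V V' x) := by ring
  rw [h1, psi_gq]
  ext n
  rcases n with - | n
  · rw [map_add, PowerSeries.coeff_zero_X_mul, coeff_psi, coeff_psi, phi_zero, phi_zero, add_zero]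
  · rw [map_add, PowerSeries.coeff_succ_X_mul, coeff_psi, coeff_psi, PowerSeries.coeff_mk]
    ring

theorem Ep'_eq (V V' : T d L → ℝ) : Ep V' - Ep V = X * bq V V' := by
  ext n
  rcases n with - | n
  · rw [map_sub, PowerSeries.coeff_zero_X_mul, coeff_Ep, coeff_Ep]
    simp [ep]
  · rw [map_sub, PowerSeries.coeff_succ_X_mul, coeff_Ep, coeff_Ep]
    unfold bq
    rw [PowerSeries.coeff_mk]

/-- the conductances -/
noncomputable def cnd (V : T d L → ℝ) (x : T d L) (i : Fin d) : PowerSeries ℝ :=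
  psi V x * psi V (x + Pi.single i 1)

theorem gq_eqn (V V' : T d L → ℝ) (x : T d L) :
    LA (cnd V) (gq V V') x = psi V x * psi V' x * (bq V V' - C (V' x - V x)) := by
  have h1 := la_trans (psi V) (psi V') (gq V V') X (psi'_eq V V') x
  rw [eqn, eqn] at h1
  have h2 : X * LA (cnd V) (gq V V') x =
      X * (psi V x * psi V' x * (bq V V' - C (V' x - V x))) := by
    have h3 : psi V x * ((Ep V' - X * C (V' x)) * psi V' x) -
        psi V' x * ((Ep V - X * C (V x)) * psi V x) =
        psi V x * psi V' x * ((Ep V' - Ep V) - X * (C (V' x) - C (V x))) := by ring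
    rw [h3, Ep'_eq, ← map_sub] at h1
    rw [show LA (cnd V) (gq V V') x =
      LA (fun y i => psi V y * psi V (y + Pi.single i 1)) (gq V V') x from rfl, h1]
    ring
  exact mul_left_cancel₀ PowerSeries.X_ne_zero h2

theorem gq_sum (V V' : T d L → ℝ) : ∑ x, psi V x * gq V V' x = 0 := by
  have h1 : X * ∑ x, psi V x * gq V V' x = X * 0 := by
    have h2 : ∑ x, psi V' x = ∑ x, psi V x + X * ∑ x, psi V x * gq V V' x := by
      rw [Finset.mul_sum, ← Finset.sum_add_distrib]
      refine Finset.sum_congr rfl fun x _ => ?_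
      rw [psi'_eq V V' x]
      ring
    rw [psi_sum, psi_sum] at h2
    rw [mul_zero]
    have := h2
    linear_combination -h2
  exact mul_left_cancel₀ PowerSeries.X_ne_zero h1

end

end Pool.Agent.Y661.EX
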