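import Pool.Agent.Y661.EX.Diff

/-! The correctors depend little on the value of the potential at a single site. -/

set_option autoImplicit false
set_option linter.unusedSectionVars false

open scoped BigOperators
open PowerSeries (coeff mk X C)

namespace Pool.Agent.Y661.EX

open Pool.Agent.H4R2.AE (T)

variable {d L : ℕ} [NeZero L]

section one

variable (V : T d L → ℝ) (y : T d L) (v : ℝ)

/-- the source at the site -/
noncomputable def src : PowerSeries ℝ :=
  C (v - V y) * (psi V y * psi (Function.update V y v) y)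

theorem la_eq (x : T d L) : LA (cnd V) (gq V (Function.update V y v)) x =
    bq V (Function.update V y v) * (psi V x * psi (Function.update V y v) x) -
      if x = y then src V y v else 0 := by
  rw [gq_eqn]
  split_ifs with h
  · subst h
    rw [Function.update_self]
    unfold src
    ring
  · rw [Function.update_of_ne h, sub_self, map_zero]
    ring

theorem bq_eq : bq V (Function.update V y v) *
    ∑ x, psi V x * psi (Function.update V y v) x = src V y v := by
  have h := la_sum (cnd V) (gq V (Function.update V y v))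
  simp only [la_eq] at h
  rw [Finset.sum_sub_distrib, ← Finset.mul_sum, Finset.sum_ite_eq' Finset.univ y,
    if_pos (Finset.mem_univ y)] at h
  exact sub_eq_zero.1 h

/-- the average of the difference quotient -/
noncomputable def mq : PowerSeries ℝ :=
  C (1 / NS d L) * ∑ x, gq V (Function.update V y v) x

theorem cnd_zero (x : T d L) (i : Fin d) : coeff 0 (cnd V x i) = 1 := by
  unfold cnd
  rw [PowerSeries.coeff_zero_eq_constantCoeff_apply, map_mul, psi_const, psi_const, one_mul]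

/-- the pinned kernel of the conductances of `V` -/
noncomputable def hV (z x : T d L) : PowerSeries ℝ :=
  hs (fun k x i => coeff k (cnd V x i)) z x

theorem g_repr (z : T d L) : gq V (Function.update V y v) z - mq V y v =
    bq V (Function.update V y v) * ∑ x, hV V z x *
      (psi V x * psi (Function.update V y v) x) - hV V z y * src V y v := by
  have h := repr (cnd V) (cnd_zero V) z (gq V (Function.update V y v))
  unfold mq
  rw [h]
  simp only [la_eq, mul_sub]
  rw [Finset.sum_sub_distrib, Finset.mul_sum]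
  congr 1
  · exact Finset.sum_congr rfl fun x _ => by unfold hV; ring
  · simp only [mul_ite, mul_zero]
    rw [Finset.sum_ite_eq' Finset.univ y, if_pos (Finset.mem_univ y)]
    rfl

theorem mq_eq : mq V y v = -(C (1 / NS d L) *
    ∑ x, psi V x * (gq V (Function.update V y v) x - mq V y v)) := by
  simp only [mul_sub]
  rw [Finset.sum_sub_distrib, gq_sum, ← Finset.sum_mul, psi_sum, zero_sub, mul_neg, neg_neg,
    ← mul_assoc, ← map_mul, one_div_mul_cancel NS_pos.ne', map_one, one_mul]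

variable (n : ℕ) (S : ℝ) (hS : 1 ≤ S) (h1 : ∀ x, nrm n (psi V x) ≤ S)
  (h2 : ∀ x, nrm n (psi (Function.update V y v) x) ≤ S) (h3 : |v - V y| ≤ S)

include hS h1 h2 h3

theorem src_bd : nrm n (src V y v) ≤ S ^ 3 := by
  unfold src
  refine (nrm_mul _ _ _).trans ?_
  rw [nrm_C]
  have e1 := nrm_mul n (psi V y) (psi (Function.update V y v) y)
  have e2 : nrm n (psi V y) * nrm n (psi (Function.update V y v) y) ≤ S * S :=
    mul_le_mul (h1 y) (h2 y) (nrm_nonneg _ _) (by linarith)
  calc |v - V y| * nrm n (psi V y * psi (Function.update V y v) y) ≤ S * (S * S) :=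
        mul_le_mul h3 (e1.trans e2) (nrm_nonneg _ _) (by linarith)
    _ = S ^ 3 := by ring

theorem bq_bd (j : ℕ) (hj : j ≤ n) : |coeff j (bq V (Function.update V y v))| ≤
    S ^ 3 / NS d L * ((2 * n + 1) * S ^ 2) ^ j := by
  have hN := NS_pos (d := d) (L := L)
  obtain ⟨Z', hZ'⟩ : ∃ Z' : PowerSeries ℝ, Z' = ∑ x, (psi V x *
    psi (Function.update V y v) x - 1) := ⟨_, rfl⟩
  have hZ : ∑ x, psi V x * psi (Function.update V y v) x = C (NS d L) + Z' := by
    have e1 : (C (NS d L) : PowerSeries ℝ) = ∑ _x : T d L, 1 := by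
      rw [Finset.sum_const, Finset.card_univ, nsmul_eq_mul, mul_one]
      unfold NS
      simp
    rw [hZ', Finset.sum_sub_distrib, ← e1]
    ring
  have hZn : nrm n Z' ≤ NS d L * (2 * S ^ 2) := by
    rw [hZ']
    refine (nrm_sum _ _ _).trans ?_
    rw [← sum_const' (d := d) (L := L)]
    refine Finset.sum_le_sum fun x _ => (nrm_sub _ _ _).trans ?_
    have e1 := nrm_mul n (psi V x) (psi (Function.update V y v) x)
    have e2 : nrm n (psi V x) * nrm n (psi (Function.update V y v) x) ≤ S * S :=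
      mul_le_mul (h1 x) (h2 x) (nrm_nonneg _ _) (by linarith)
    have e3 : nrm n (1 : PowerSeries ℝ) = 1 := by
      have := nrm_C n 1
      rw [map_one, abs_one] at this
      exact this
    nlinarith
  have hZ0 : coeff 0 Z' = 0 := by
    rw [hZ', map_sum]
    refine Finset.sum_eq_zero fun x _ => ?_
    rw [PowerSeries.coeff_zero_eq_constantCoeff_apply, map_sub, map_mul, psi_const, psi_const,
      map_one]
    ring
  have hsrc := src_bd V y v n S hS h1 h2 h3
  have heq := bq_eq V y v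
  rw [hZ, mul_add] at heq
  obtain ⟨D, hD⟩ : ∃ D : ℝ, D = (2 * n + 1) * S ^ 2 := ⟨_, rfl⟩
  have hn0 : (0 : ℝ) ≤ n := Nat.cast_nonneg n
  have hS2 : 1 ≤ S ^ 2 := one_le_pow₀ hS
  have hD1 : 1 ≤ D := by
    rw [hD]
    nlinarith
  rw [← hD]
  induction j using Nat.strong_induction_on with
  | _ j ih =>
    have e1 : coeff j (bq V (Function.update V y v)) * NS d L = coeff j (src V y v) -
        coeff j (bq V (Function.update V y v) * Z') := by
      rw [← heq, map_add, PowerSeries.coeff_mul_C]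
      ring
    have e2 : |coeff j (src V y v)| ≤ S ^ 3 := (coeff_le n j hj _).trans hsrc
    rcases Nat.eq_zero_or_pos j with hj0 | hj0
    · subst hj0
      have e3 : coeff 0 (bq V (Function.update V y v) * Z') = 0 := by
        rw [PowerSeries.coeff_zero_eq_constantCoeff_apply, map_mul,
          ← PowerSeries.coeff_zero_eq_constantCoeff_apply Z', hZ0, mul_zero]
      rw [e3, sub_zero] at e1
      rw [pow_zero, mul_one, le_div_iff₀ hN, ← abs_of_pos hN, ← abs_mul, e1]
      exact e2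
    · obtain ⟨i, rfl⟩ : ∃ i, j = i + 1 := ⟨j - 1, by omega⟩
      have e3 : |coeff (i + 1) (bq V (Function.update V y v) * Z')| ≤
          (n : ℝ) * (S ^ 3 / NS d L * D ^ i * (NS d L * (2 * S ^ 2))) := by
        rw [PowerSeries.coeff_mul, Finset.Nat.sum_antidiagonal_eq_sum_range_succ_mk,
          Finset.sum_range_succ, Nat.sub_self, hZ0, mul_zero, add_zero]
        refine (Finset.abs_sum_le_sum_abs _ _).trans ?_
        have e4 : ∀ k ∈ Finset.range (i + 1), |coeff k (bq V (Function.update V y v)) *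
            coeff (i + 1 - k) Z'| ≤ S ^ 3 / NS d L * D ^ i * (NS d L * (2 * S ^ 2)) := by
          intro k hk
          rw [Finset.mem_range] at hk
          rw [abs_mul]
          have e5 := ih k hk (by omega)
          have e6 : D ^ k ≤ D ^ i := pow_le_pow_right₀ hD1 (by omega)
          have e7 : |coeff k (bq V (Function.update V y v))| ≤ S ^ 3 / NS d L * D ^ i := by
            refine e5.trans ?_
            have : 0 ≤ S ^ 3 / NS d L := by positivity
            gcongr
          have e8 : |coeff (i + 1 - k) Z'| ≤ NS d L * (2 * S ^ 2) :=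
            (coeff_le n _ (by omega) _).trans hZn
          exact mul_le_mul e7 e8 (abs_nonneg _) (by positivity)
        refine (Finset.sum_le_sum e4).trans ?_
        rw [Finset.sum_const, Finset.card_range, nsmul_eq_mul]
        apply mul_le_mul_of_nonneg_right _ (by positivity)
        exact_mod_cast hj
      have e5 : |coeff (i + 1) (bq V (Function.update V y v))| * NS d L ≤
          S ^ 3 * D ^ (i + 1) := by
        rw [← abs_of_pos hN, ← abs_mul, e1]
        refine (abs_sub _ _).trans ?_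
        have e6 : (n : ℝ) * (S ^ 3 / NS d L * D ^ i * (NS d L * (2 * S ^ 2))) =
            S ^ 3 * (D ^ i * (2 * n * S ^ 2)) := by
          field_simp
        rw [e6] at e3
        have e7 : 1 ≤ D ^ i := one_le_pow₀ hD1
        have e8 : S ^ 3 * D ^ (i + 1) = S ^ 3 * (D ^ i * (2 * n * S ^ 2)) +
            S ^ 3 * (D ^ i * S ^ 2) := by
          rw [pow_succ, hD]
          ring
        have e9 : 1 ≤ D ^ i * S ^ 2 := one_le_mul_of_one_le_of_one_le e7 hS2
        have e10 : 0 ≤ S ^ 3 := by positivity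
        rw [e8]
        nlinarith
      rw [div_mul_eq_mul_div, le_div_iff₀ hN]
      exact e5

theorem bq_nrm : nrm n (bq V (Function.update V y v)) ≤
    (n + 1) * (S ^ 3 / NS d L * ((2 * n + 1) * S ^ 2) ^ n) := by
  have hN := NS_pos (d := d) (L := L)
  have hn0 : (0 : ℝ) ≤ n := Nat.cast_nonneg n
  have hS2 : 1 ≤ S ^ 2 := one_le_pow₀ hS
  have hD1 : 1 ≤ (2 * n + 1) * S ^ 2 := by nlinarith
  unfold nrm
  have h4 : ∀ k ∈ Finset.range (n + 1), |coeff k (bq V (Function.update V y v))| ≤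
      S ^ 3 / NS d L * ((2 * n + 1) * S ^ 2) ^ n := by
    intro k hk
    rw [Finset.mem_range] at hk
    refine (bq_bd V y v n S hS h1 h2 h3 k (by omega)).trans ?_
    have e6 : ((2 * n + 1) * S ^ 2) ^ k ≤ ((2 * n + 1) * S ^ 2) ^ n :=
      pow_le_pow_right₀ hD1 (by omega)
    have : 0 ≤ S ^ 3 / NS d L := by positivity
    gcongr
  refine (Finset.sum_le_sum h4).trans (le_of_eq ?_)
  rw [Finset.sum_const, Finset.card_range, nsmul_eq_mul]
  push_cast
  ring

/-- pointwise bound for the difference quotient -/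
theorem gq_bd (z : T d L) (Hs : ℝ) (hHs : ∑ x, nrm n (hV V z x) ^ 2 ≤ Hs) :
    nrm n (gq V (Function.update V y v) z - mq V y v) ^ 2 ≤
      2 * (((n + 1) * (S ^ 3 * ((2 * n + 1) * S ^ 2) ^ n)) ^ 2 / NS d L * Hs * S ^ 4) +
      2 * (nrm n (hV V z y) ^ 2 * S ^ 6) := by
  have hN := NS_pos (d := d) (L := L)
  have hn0 : (0 : ℝ) ≤ n := Nat.cast_nonneg n
  have hb := bq_nrm V y v n S hS h1 h2 h3
  have hsrc := src_bd V y v n S hS h1 h2 h3
  obtain ⟨A, hA⟩ : ∃ A : ℝ, A = nrm n (bq V (Function.update V y v)) := ⟨_, rfl⟩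
  obtain ⟨H1, hH1⟩ : ∃ H1 : ℝ, H1 = ∑ x, nrm n (hV V z x) := ⟨_, rfl⟩
  obtain ⟨P, hP⟩ : ∃ P : ℝ, P = (n + 1) * (S ^ 3 * ((2 * n + 1) * S ^ 2) ^ n) := ⟨_, rfl⟩
  have hA0 : 0 ≤ A := by rw [hA]; exact nrm_nonneg _ _
  have hH10 : 0 ≤ H1 := by rw [hH1]; exact Finset.sum_nonneg fun x _ => nrm_nonneg _ _
  have hP0 : 0 ≤ P := by rw [hP]; positivity
  have hAP : A ≤ P / NS d L := by
    rw [hA, hP]
    refine hb.trans (le_of_eq ?_)
    field_simp
  have hH1s : H1 ^ 2 ≤ NS d L * Hs := by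
    rw [hH1]
    refine sq_sum_le_card_mul_sum_sq.trans ?_
    rw [Finset.card_univ]
    exact mul_le_mul_of_nonneg_left hHs hN.le
  have hHs0 : 0 ≤ Hs := (Finset.sum_nonneg fun x _ => sq_nonneg _).trans hHs
  have e1 : nrm n (gq V (Function.update V y v) z - mq V y v) ≤
      A * (H1 * S ^ 2) + nrm n (hV V z y) * S ^ 3 := by
    rw [g_repr]
    refine (nrm_sub _ _ _).trans ?_
    have e2 : nrm n (bq V (Function.update V y v) * ∑ x, hV V z x *
        (psi V x * psi (Function.update V y v) x)) ≤ A * (H1 * S ^ 2) := by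
      refine (nrm_mul _ _ _).trans ?_
      rw [← hA]
      apply mul_le_mul_of_nonneg_left _ hA0
      refine (nrm_sum _ _ _).trans ?_
      rw [hH1, Finset.sum_mul]
      refine Finset.sum_le_sum fun x _ => (nrm_mul _ _ _).trans ?_
      apply mul_le_mul_of_nonneg_left _ (nrm_nonneg _ _)
      refine (nrm_mul _ _ _).trans ?_
      calc nrm n (psi V x) * nrm n (psi (Function.update V y v) x) ≤ S * S :=
            mul_le_mul (h1 x) (h2 x) (nrm_nonneg _ _) (by linarith)
        _ = S ^ 2 := by ring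
    have e3 : nrm n (hV V z y * src V y v) ≤ nrm n (hV V z y) * S ^ 3 :=
      (nrm_mul _ _ _).trans (mul_le_mul_of_nonneg_left hsrc (nrm_nonneg _ _))
    linarith
  have e4 : (A * (H1 * S ^ 2)) ^ 2 ≤ P ^ 2 / NS d L * Hs * S ^ 4 := by
    calc (A * (H1 * S ^ 2)) ^ 2 = A ^ 2 * H1 ^ 2 * S ^ 4 := by ring
      _ ≤ (P / NS d L) ^ 2 * (NS d L * Hs) * S ^ 4 := by gcongr
      _ = _ := by
          field_simp
  rw [← hP]
  calc nrm n (gq V (Function.update V y v) z - mq V y v) ^ 2 ≤
        (A * (H1 * S ^ 2) + nrm n (hV V z y) * S ^ 3) ^ 2 :=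
        pow_le_pow_left₀ (nrm_nonneg _ _) e1 2
    _ ≤ 2 * (A * (H1 * S ^ 2)) ^ 2 + 2 * (nrm n (hV V z y) * S ^ 3) ^ 2 := by
        nlinarith [sq_nonneg (A * (H1 * S ^ 2) - nrm n (hV V z y) * S ^ 3)]
    _ ≤ 2 * (P ^ 2 / NS d L * Hs * S ^ 4) + 2 * (nrm n (hV V z y) * S ^ 3) ^ 2 := by linarith
    _ = _ := by ring

end one

/-- square sums of the pinned kernel -/
theorem hV_bd (K : ℝ) (hK : 1 ≤ K) (n : ℕ) : ∃ B : ℝ, 1 ≤ B ∧ ∀ (d L : ℕ) [NeZero L] (Γ : ℝ),
    Kern d L K Γ → ∀ (V : T d L → ℝ) (S : ℝ), 1 ≤ S → (∀ x, nrm n (psi V x) ≤ S) → ∀ z,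
      ∑ x, nrm n (hV V z x) ^ 2 ≤ B * Γ * S ^ (4 * n) := by
  obtain ⟨B, hB, h⟩ := hk_bd K hK n
  refine ⟨((n : ℝ) + 1) ^ 2 * B, ?_, ?_⟩
  · have h1 : (1 : ℝ) ≤ ((n : ℝ) + 1) ^ 2 := one_le_pow₀ (by
      have : (0 : ℝ) ≤ n := Nat.cast_nonneg n
      linarith)
    exact one_le_mul_of_one_le_of_one_le h1 hB
  intro d L _ Γ hKern V S hS hV' z
  obtain ⟨w, hw, a1, a2, a3⟩ := hKern z
  have h4 := h d L Γ z w hw a1 a2 a3 (fun k x i => coeff k (cnd V x i)) (S ^ 2)
    (one_le_pow₀ hS) (fun k _ hk y i => by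
      refine (coeff_le n k hk _).trans ?_
      unfold cnd
      refine (nrm_mul _ _ _).trans ?_
      calc nrm n (psi V y) * nrm n (psi V (y + Pi.single i 1)) ≤ S * S :=
            mul_le_mul (hV' _) (hV' _) (nrm_nonneg _ _) (by linarith)
        _ = S ^ 2 := by ring)
  calc ∑ x, nrm n (hV V z x) ^ 2 ≤ ∑ x, ((n + 1) * ∑ k ∈ Finset.range (n + 1),
        coeff k (hV V z x) ^ 2) := Finset.sum_le_sum fun x _ => nrm_sq n _
    _ = (n + 1) * ∑ k ∈ Finset.range (n + 1), ∑ x, hk (fun k x i => coeff k (cnd V x i)) z k x ^ 2 := by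
        rw [← Finset.mul_sum, Finset.sum_comm]
        congr 1
        refine Finset.sum_congr rfl fun k _ => Finset.sum_congr rfl fun x _ => ?_
        unfold hV
        rw [coeff_hs]
    _ ≤ (n + 1) * ∑ _k ∈ Finset.range (n + 1), B * Γ * (S ^ 2) ^ (2 * n) := by
        apply mul_le_mul_of_nonneg_left _ (by positivity)
        refine Finset.sum_le_sum fun k hk => ?_
        rw [Finset.mem_range] at hk
        exact (h4 k (by omega)).1
    _ = _ := by
        rw [Finset.sum_const, Finset.card_range, nsmul_eq_mul, ← pow_mul]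
        push_cast
        ring

/-- **single site differences** -/
theorem diff (K : ℝ) (hK : 1 ≤ K) (n : ℕ) : ∃ (B : ℝ) (q : ℕ), 1 ≤ B ∧
    ∀ (d L : ℕ) [NeZero L] (Γ : ℝ), Kern d L K Γ → ∀ (V v : T d L → ℝ) (S : ℝ), 1 ≤ S →
      (∀ x, nrm n (psi V x) ≤ S) →
      (∀ y x, nrm n (psi (Function.update V y (v y)) x) ≤ S) → (∀ y, |v y - V y| ≤ S) →
      (∀ z, ∑ y, (phi (Function.update V y (v y)) (n + 1) z - phi V (n + 1) z) ^ 2 ≤
        B * Γ * S ^ q) ∧
      ∀ y, |ep (Function.update V y (v y)) (n + 1) - ep V (n + 1)| ≤ B * S ^ q / NS d L := by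
  obtain ⟨B, hB, hV'⟩ := hV_bd K hK n
  have hn0 : (0 : ℝ) ≤ n := Nat.cast_nonneg n
  have hn1 : (1 : ℝ) ≤ (n : ℝ) + 1 := by linarith
  have hn2 : (1 : ℝ) ≤ 2 * (n : ℝ) + 1 := by linarith
  refine ⟨16 * ((n : ℝ) + 1) ^ 2 * (2 * n + 1) ^ (2 * n) * B, 8 * n + 14, ?_, ?_⟩
  · have e1 : (1 : ℝ) ≤ ((n : ℝ) + 1) ^ 2 := one_le_pow₀ hn1
    have e2 : (1 : ℝ) ≤ (2 * (n : ℝ) + 1) ^ (2 * n) := one_le_pow₀ hn2
    calc (1 : ℝ) = 1 * 1 * 1 * 1 := by norm_num
      _ ≤ _ := by
          gcongr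
          norm_num
  intro d L _ Γ hKern V v S hS h1 h2 h3
  have hN := NS_pos (d := d) (L := L)
  obtain ⟨Hs, hHs⟩ : ∃ Hs : ℝ, Hs = B * Γ * S ^ (4 * n) := ⟨_, rfl⟩
  have hH : ∀ z, ∑ x, nrm n (hV V z x) ^ 2 ≤ Hs := fun z => by
    rw [hHs]
    exact hV' d L Γ hKern V S hS h1 z
  have hHs0 : 0 ≤ Hs := (Finset.sum_nonneg fun x _ => sq_nonneg _).trans (hH 0)
  obtain ⟨P, hP⟩ : ∃ P : ℝ, P = (n + 1) * (S ^ 3 * ((2 * n + 1) * S ^ 2) ^ n) := ⟨_, rfl⟩
  have hP0 : 0 ≤ P := by rw [hP]; positivity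
  obtain ⟨Q, hQ⟩ : ∃ Q : ℝ, Q = 2 * (P ^ 2 * Hs * S ^ 4) + 2 * (Hs * S ^ 6) := ⟨_, rfl⟩
  have hQ0 : 0 ≤ Q := by rw [hQ]; positivity
  have hg : ∀ z, ∑ y, nrm n (gq V (Function.update V y (v y)) z - mq V y (v y)) ^ 2 ≤ Q := by
    intro z
    refine (Finset.sum_le_sum fun y _ => gq_bd V y (v y) n S hS h1 (h2 y) (h3 y) z Hs
      (hH z)).trans ?_
    rw [← hP, Finset.sum_add_distrib, sum_const', ← Finset.mul_sum, ← Finset.sum_mul, hQ]
    have e1 : NS d L * (2 * (P ^ 2 / NS d L * Hs * S ^ 4)) = 2 * (P ^ 2 * Hs * S ^ 4) := by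
      field_simp
    rw [e1]
    have := hH z
    gcongr
  have hm : ∑ y, nrm n (mq V y (v y)) ^ 2 ≤ S ^ 2 * Q := by
    have e1 : ∀ y, nrm n (mq V y (v y)) ^ 2 ≤ S ^ 2 / NS d L *
        ∑ x, nrm n (gq V (Function.update V y (v y)) x - mq V y (v y)) ^ 2 := by
      intro y
      have e2 : nrm n (mq V y (v y)) ≤ 1 / NS d L * ∑ x, S *
          nrm n (gq V (Function.update V y (v y)) x - mq V y (v y)) := by
        conv_lhs => rw [mq_eq]
        rw [nrm_neg]
        refine (nrm_mul _ _ _).trans ?_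
        rw [nrm_C, abs_of_pos (by positivity)]
        apply mul_le_mul_of_nonneg_left _ (by positivity)
        refine (nrm_sum _ _ _).trans (Finset.sum_le_sum fun x _ => (nrm_mul _ _ _).trans ?_)
        exact mul_le_mul_of_nonneg_right (h1 x) (nrm_nonneg _ _)
      refine (pow_le_pow_left₀ (nrm_nonneg _ _) e2 2).trans ?_
      rw [← Finset.mul_sum]
      have e3 : (∑ x, nrm n (gq V (Function.update V y (v y)) x - mq V y (v y))) ^ 2 ≤
          NS d L * ∑ x, nrm n (gq V (Function.update V y (v y)) x - mq V y (v y)) ^ 2 := by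
        refine sq_sum_le_card_mul_sum_sq.trans ?_
        rw [Finset.card_univ]
        rfl
      calc (1 / NS d L * (S * ∑ x, nrm n (gq V (Function.update V y (v y)) x -
            mq V y (v y)))) ^ 2 = (1 / NS d L) ^ 2 * S ^ 2 * (∑ x,
            nrm n (gq V (Function.update V y (v y)) x - mq V y (v y))) ^ 2 := by ring
        _ ≤ (1 / NS d L) ^ 2 * S ^ 2 * (NS d L * ∑ x,
            nrm n (gq V (Function.update V y (v y)) x - mq V y (v y)) ^ 2) := by gcongr
        _ = _ := by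
            field_simp
    refine (Finset.sum_le_sum fun y _ => e1 y).trans ?_
    rw [← Finset.mul_sum, Finset.sum_comm]
    have e2 : ∑ x, ∑ y, nrm n (gq V (Function.update V y (v y)) x - mq V y (v y)) ^ 2 ≤
        NS d L * Q := by
      rw [← sum_const' (d := d) (L := L)]
      exact Finset.sum_le_sum fun x _ => hg x
    calc S ^ 2 / NS d L * ∑ x, ∑ y, nrm n (gq V (Function.update V y (v y)) x -
          mq V y (v y)) ^ 2 ≤ S ^ 2 / NS d L * (NS d L * Q) := by gcongr
      _ = _ := by field_simp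
  have hS2 : 1 ≤ S ^ 2 := one_le_pow₀ hS
  have hP2 : P ^ 2 = (n + 1) ^ 2 * (2 * n + 1) ^ (2 * n) * (S ^ 6 * S ^ (4 * n)) := by
    rw [hP]
    obtain ⟨D0, hD0⟩ : ∃ D0 : ℝ, D0 = 2 * n + 1 := ⟨_, rfl⟩
    rw [← hD0, mul_pow D0 (S ^ 2) n, ← pow_mul S 2 n]
    ring
  have hPbig : 1 ≤ P := by
    rw [hP]
    have e1 : 1 ≤ S ^ 3 := one_le_pow₀ hS
    have e2 : 1 ≤ ((2 * n + 1) * S ^ 2) ^ n := one_le_pow₀
      (one_le_mul_of_one_le_of_one_le hn2 hS2)
    exact one_le_mul_of_one_le_of_one_le hn1 (one_le_mul_of_one_le_of_one_le e1 e2)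
  refine ⟨fun z => ?_, fun y => ?_⟩
  · have e1 : ∀ y, (phi (Function.update V y (v y)) (n + 1) z - phi V (n + 1) z) ^ 2 ≤
        2 * S ^ 2 * (nrm n (gq V (Function.update V y (v y)) z - mq V y (v y)) ^ 2 +
          nrm n (mq V y (v y)) ^ 2) := by
      intro y
      have e2 : phi (Function.update V y (v y)) (n + 1) z - phi V (n + 1) z =
          coeff n (psi V z * gq V (Function.update V y (v y)) z) := by
        rw [psi_gq, PowerSeries.coeff_mk]
      have e3 : |phi (Function.update V y (v y)) (n + 1) z - phi V (n + 1) z| ≤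
          S * (nrm n (gq V (Function.update V y (v y)) z - mq V y (v y)) +
            nrm n (mq V y (v y))) := by
        rw [e2]
        refine (coeff_le n n le_rfl _).trans ((nrm_mul _ _ _).trans ?_)
        apply mul_le_mul (h1 z) _ (nrm_nonneg _ _) (by linarith)
        have e4 := nrm_add n (gq V (Function.update V y (v y)) z - mq V y (v y)) (mq V y (v y))
        rwa [sub_add_cancel] at e4
      rw [← sq_abs]
      refine (pow_le_pow_left₀ (abs_nonneg _) e3 2).trans ?_
      rw [mul_pow, mul_comm 2 (S ^ 2), mul_assoc]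
      apply mul_le_mul_of_nonneg_left _ (by positivity)
      nlinarith [sq_nonneg (nrm n (gq V (Function.update V y (v y)) z - mq V y (v y)) -
        nrm n (mq V y (v y)))]
    refine (Finset.sum_le_sum fun y _ => e1 y).trans ?_
    rw [← Finset.mul_sum, Finset.sum_add_distrib]
    have e2 : 2 * S ^ 2 * (∑ y, nrm n (gq V (Function.update V y (v y)) z - mq V y (v y)) ^ 2 +
        ∑ y, nrm n (mq V y (v y)) ^ 2) ≤ 2 * S ^ 2 * (Q + S ^ 2 * Q) := by
      have := hg z
      gcongr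
    refine e2.trans ?_
    have e3 : 2 * S ^ 2 * (Q + S ^ 2 * Q) ≤ 4 * S ^ 4 * Q := by
      have : Q ≤ S ^ 2 * Q := le_mul_of_one_le_left hQ0 hS2
      nlinarith [sq_nonneg S]
    refine e3.trans ?_
    have e4 : Q ≤ 4 * (P ^ 2 * Hs * S ^ 4) := by
      have e5 : Hs * S ^ 6 ≤ P ^ 2 * Hs * S ^ 4 := by
        have e6 : S ^ 2 ≤ P ^ 2 := by
          have : S ≤ P := by
            rw [hP]
            have a1 : S ≤ S ^ 3 := le_self_pow₀ hS (by norm_num)
            have a2 : 1 ≤ ((2 * n + 1) * S ^ 2) ^ n := one_le_pow₀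
              (one_le_mul_of_one_le_of_one_le hn2 hS2)
            have a3 : (0 : ℝ) < S ^ 3 := by positivity
            calc S = 1 * (S * 1) := by ring
              _ ≤ (n + 1) * (S ^ 3 * ((2 * n + 1) * S ^ 2) ^ n) := by gcongr
          exact pow_le_pow_left₀ (by linarith) this 2
        calc Hs * S ^ 6 = S ^ 2 * (Hs * S ^ 4) := by ring
          _ ≤ P ^ 2 * (Hs * S ^ 4) := by gcongr
          _ = _ := by ring
      rw [hQ]
      linarith
    calc 4 * S ^ 4 * Q ≤ 4 * S ^ 4 * (4 * (P ^ 2 * Hs * S ^ 4)) := by gcongr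
      _ = _ := by
          rw [hP2, hHs, pow_add, show 8 * n = 4 * n + 4 * n by ring, pow_add]
          ring
  · have e1 : ep (Function.update V y (v y)) (n + 1) - ep V (n + 1) =
        coeff n (bq V (Function.update V y (v y))) := by
      unfold bq
      rw [PowerSeries.coeff_mk]
    rw [e1]
    refine (bq_bd V y (v y) n S hS h1 (h2 y) (h3 y) n le_rfl).trans ?_
    rw [div_mul_eq_mul_div]
    apply div_le_div_of_nonneg_right _ hN.le
    have e2 : S ^ 3 * ((2 * n + 1) * S ^ 2) ^ n ≤ P ^ 2 := by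
      have e3 : S ^ 3 * ((2 * n + 1) * S ^ 2) ^ n ≤ P := by
        rw [hP]
        apply le_mul_of_one_le_left (by positivity) hn1
      exact e3.trans (by nlinarith)
    refine e2.trans ?_
    rw [hP2]
    have e4 : S ^ 6 * S ^ (4 * n) ≤ S ^ (8 * n + 14) := by
      rw [← pow_add]
      exact pow_le_pow_right₀ hS (by omega)
    have e5 : (n + 1) ^ 2 * (2 * (n : ℝ) + 1) ^ (2 * n) ≤
        16 * ((n : ℝ) + 1) ^ 2 * (2 * n + 1) ^ (2 * n) * B := by
      have a1 : (0 : ℝ) ≤ (n + 1) ^ 2 * (2 * (n : ℝ) + 1) ^ (2 * n) := by positivity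
      nlinarith
    exact mul_le_mul e5 e4 (by positivity) (by positivity)

end Pool.Agent.Y661.EX
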