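import Pool.Agent.H4R2.AE.Conc

/-! Moments of functions of independent variables with polynomial growth: the inequality of Efron
and Stein for even powers. -/

set_option autoImplicit false
set_option linter.unusedSectionVars false

open scoped BigOperators
open MeasureTheory

namespace Pool.Agent.Y661.EX

open Pool.Agent.H4R2.AE.Conc (PP QQ sel sw mp_sel mp_sw int_mp meas_sel meas_sw sel_empty_sw
  sel_single_sw sel_sw_single sel_insert_sw_single sel_single)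

section gen

variable {Ω : Type} [TopologicalSpace Ω]

/-- continuous functions of polynomial growth with respect to `W` -/
def PBg (W F : Ω → ℝ) : Prop := Continuous F ∧ ∃ (C : ℝ) (n : ℕ), ∀ ω, |F ω| ≤ C * W ω ^ n

variable (W : Ω → ℝ) (hW : ∀ ω, 1 ≤ W ω)

theorem pb_const (c : ℝ) : PBg W (fun _ => c) :=
  ⟨continuous_const, |c|, 0, fun ω => by simp⟩

include hW

theorem pb_norm {F : Ω → ℝ} (h : PBg W F) : ∃ (C : ℝ) (n : ℕ), 0 ≤ C ∧ ∀ m, n ≤ m → ∀ ω,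
    |F ω| ≤ C * W ω ^ m := by
  obtain ⟨-, C, n, h⟩ := h
  refine ⟨|C|, n, abs_nonneg _, fun m hm ω => (h ω).trans ?_⟩
  have h1 : W ω ^ n ≤ W ω ^ m := pow_le_pow_right₀ (hW ω) hm
  have h2 : 0 ≤ W ω ^ n := pow_nonneg (by linarith [hW ω]) n
  calc C * W ω ^ n ≤ |C| * W ω ^ n := mul_le_mul_of_nonneg_right (le_abs_self _) h2
    _ ≤ |C| * W ω ^ m := mul_le_mul_of_nonneg_left h1 (abs_nonneg _)

theorem pb_add {F G : Ω → ℝ} (hF : PBg W F) (hG : PBg W G) : PBg W (fun ω => F ω + G ω) := by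
  obtain ⟨C1, n1, -, h1⟩ := pb_norm W hW hF
  obtain ⟨C2, n2, -, h2⟩ := pb_norm W hW hG
  refine ⟨hF.1.add hG.1, C1 + C2, max n1 n2, fun ω => (abs_add_le _ _).trans ?_⟩
  have a1 := h1 _ (le_max_left n1 n2) ω
  have a2 := h2 _ (le_max_right n1 n2) ω
  rw [add_mul]
  exact add_le_add a1 a2

theorem pb_mul {F G : Ω → ℝ} (hF : PBg W F) (hG : PBg W G) : PBg W (fun ω => F ω * G ω) := by
  obtain ⟨C1, n1, hC1, h1⟩ := pb_norm W hW hF
  obtain ⟨C2, n2, hC2, h2⟩ := pb_norm W hW hG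
  refine ⟨hF.1.mul hG.1, C1 * C2, n1 + n2, fun ω => ?_⟩
  have a1 := h1 _ le_rfl ω
  have a2 := h2 _ le_rfl ω
  have h0 : 0 ≤ W ω := by linarith [hW ω]
  rw [abs_mul]
  calc |F ω| * |G ω| ≤ (C1 * W ω ^ n1) * (C2 * W ω ^ n2) :=
        mul_le_mul a1 a2 (abs_nonneg _) (by positivity)
    _ = _ := by rw [pow_add]; ring

theorem pb_pow {F : Ω → ℝ} (hF : PBg W F) (n : ℕ) : PBg W (fun ω => F ω ^ n) := by
  induction n with
  | zero => simpa using pb_const W (1 : ℝ)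
  | succ n ih =>
    have := pb_mul W hW ih hF
    simpa only [pow_succ] using this

theorem pb_abs {F : Ω → ℝ} (hF : PBg W F) : PBg W (fun ω => |F ω|) := by
  obtain ⟨C, n, h⟩ := hF.2
  exact ⟨hF.1.abs, C, n, fun ω => by rw [abs_abs]; exact h ω⟩

theorem pb_neg {F : Ω → ℝ} (hF : PBg W F) : PBg W (fun ω => -F ω) := by
  obtain ⟨C, n, h⟩ := hF.2
  exact ⟨hF.1.neg, C, n, fun ω => by rw [abs_neg]; exact h ω⟩

theorem pb_sub {F G : Ω → ℝ} (hF : PBg W F) (hG : PBg W G) : PBg W (fun ω => F ω - G ω) := by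
  have := pb_add W hW hF (pb_neg W hW hG)
  simpa only [sub_eq_add_neg] using this

theorem pb_sum {κ : Type} (s : Finset κ) {F : κ → Ω → ℝ} (hF : ∀ k ∈ s, PBg W (F k)) :
    PBg W (fun ω => ∑ k ∈ s, F k ω) := by
  classical
  induction s using Finset.induction_on with
  | empty => simpa using pb_const W (0 : ℝ)
  | insert k s hk ih =>
    have := pb_add W hW (hF k (Finset.mem_insert_self k s))
      (ih fun j hj => hF j (Finset.mem_insert_of_mem hj))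
    refine (iff_of_eq ?_).mp this
    congr 1
    funext ω
    rw [Finset.sum_insert hk]

end gen

variable {ι : Type} [Fintype ι] [DecidableEq ι]

/-- growth on one copy -/
noncomputable def Wa (ω : ι → ℝ) : ℝ := ∏ i, (1 + |ω i|)

/-- growth on two copies -/
noncomputable def Wb (θ : ι → ℝ × ℝ) : ℝ := ∏ i, ((1 + |(θ i).1|) * (1 + |(θ i).2|))

theorem prod_ge (s : Finset ι) (f : ι → ℝ) (h : ∀ i, 1 ≤ f i) : 1 ≤ ∏ i ∈ s, f i :=
  Finset.prod_induction f (fun t => 1 ≤ t) (fun _ _ ha hb => one_le_mul_of_one_le_of_one_le ha hb)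
    le_rfl fun i _ => h i

theorem Wa_ge (ω : ι → ℝ) : 1 ≤ Wa ω :=
  prod_ge _ _ fun i => by
    have := abs_nonneg (ω i)
    linarith

theorem Wb_ge (θ : ι → ℝ × ℝ) : 1 ≤ Wb θ :=
  prod_ge _ _ fun i => by
    have h1 := abs_nonneg (θ i).1
    have h2 := abs_nonneg (θ i).2
    nlinarith

theorem Wa_sel (S : Finset ι) (θ : ι → ℝ × ℝ) : Wa (sel S θ) ≤ Wb θ := by
  unfold Wa Wb
  refine Finset.prod_le_prod (fun i _ => by positivity) fun i _ => ?_
  have h1 := abs_nonneg (θ i).1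
  have h2 := abs_nonneg (θ i).2
  unfold sel
  split_ifs <;> nlinarith

theorem sel_cont (S : Finset ι) : Continuous (sel (ι := ι) S) := by
  apply continuous_pi
  intro i
  unfold sel
  split_ifs
  · exact (continuous_apply i).snd
  · exact (continuous_apply i).fst

theorem pb_sel {F : (ι → ℝ) → ℝ} (hF : PBg Wa F) (S : Finset ι) :
    PBg Wb (fun θ => F (sel S θ)) := by
  obtain ⟨C, n, hC, h⟩ := pb_norm Wa Wa_ge hF
  refine ⟨hF.1.comp (sel_cont S), C, n, fun θ => (h n le_rfl _).trans ?_⟩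
  have h1 : Wa (sel S θ) ^ n ≤ Wb θ ^ n :=
    pow_le_pow_left₀ (by linarith [Wa_ge (sel S θ)]) (Wa_sel S θ) n
  exact mul_le_mul_of_nonneg_left h1 hC

theorem pb_coord (i : ι) : PBg Wa (fun ω : ι → ℝ => ω i) := by
  refine ⟨continuous_apply i, 1, 1, fun ω => ?_⟩
  rw [one_mul, pow_one]
  have h1 : (1 + |ω i|) * ∏ j ∈ Finset.univ.erase i, (1 + |ω j|) = Wa ω :=
    Finset.mul_prod_erase Finset.univ (fun j => 1 + |ω j|) (Finset.mem_univ i)
  have h2 : 1 ≤ ∏ j ∈ Finset.univ.erase i, (1 + |ω j|) := prod_ge _ _ fun j => by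
    have := abs_nonneg (ω j)
    linarith
  have h3 := abs_nonneg (ω i)
  rw [← h1]
  nlinarith

theorem pow_diff (a b : ℝ) (p : ℕ) : (a ^ (p + 1) - b ^ (p + 1)) ^ 2 ≤
    ((p : ℝ) + 1) ^ 2 * ((a - b) ^ 2 * ((a ^ 2) ^ p + (b ^ 2) ^ p)) := by
  have h1 := abs_pow_sub_pow_le (a := a) (b := b) (n := p + 1)
  rw [Nat.add_sub_cancel] at h1
  push_cast at h1
  have h2 : (a ^ (p + 1) - b ^ (p + 1)) ^ 2 ≤
      (|a - b| * ((p : ℝ) + 1) * max |a| |b| ^ p) ^ 2 := by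
    rw [← sq_abs (a ^ (p + 1) - b ^ (p + 1))]
    exact pow_le_pow_left₀ (abs_nonneg _) h1 2
  have h3 : (max |a| |b| ^ p) ^ 2 ≤ (a ^ 2) ^ p + (b ^ 2) ^ p := by
    have e1 : (max |a| |b| ^ p) ^ 2 = (max |a| |b| ^ 2) ^ p := by
      rw [← pow_mul, ← pow_mul, mul_comm]
    rw [e1]
    rcases max_choice |a| |b| with h | h
    · rw [h, sq_abs]
      have : 0 ≤ (b ^ 2) ^ p := by positivity
      linarith
    · rw [h, sq_abs]
      have : 0 ≤ (a ^ 2) ^ p := by positivity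
      linarith
  calc (a ^ (p + 1) - b ^ (p + 1)) ^ 2 ≤ (|a - b| * ((p : ℝ) + 1) * max |a| |b| ^ p) ^ 2 := h2
    _ = ((p : ℝ) + 1) ^ 2 * ((a - b) ^ 2 * (max |a| |b| ^ p) ^ 2) := by
        rw [mul_pow, mul_pow, sq_abs]
        ring
    _ ≤ _ := by gcongr

/-- Young's inequality -/
theorem young (c x v : ℝ) (hc : 0 < c) (hx : 0 ≤ x) (hv : 0 ≤ v) (p : ℕ) :
    c * (x ^ p * v) ≤ 1 / 2 * x ^ (p + 1) + c * (2 * c) ^ p * v ^ (p + 1) := by
  rcases le_total (2 * c * v) x with h | h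
  · have h1 : c * (x ^ p * v) ≤ 1 / 2 * x ^ (p + 1) := by
      have h2 : x ^ p * (2 * c * v) ≤ x ^ p * x := by gcongr
      rw [pow_succ]
      linarith
    have h2 : 0 ≤ c * (2 * c) ^ p * v ^ (p + 1) := by positivity
    linarith
  · have h1 : c * (x ^ p * v) ≤ c * (2 * c) ^ p * v ^ (p + 1) := by
      have h2 : x ^ p ≤ (2 * c * v) ^ p := pow_le_pow_left₀ hx h p
      calc c * (x ^ p * v) ≤ c * ((2 * c * v) ^ p * v) := by gcongr
        _ = _ := by rw [mul_pow, pow_succ]; ring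
    have h2 : 0 ≤ 1 / 2 * x ^ (p + 1) := by positivity
    linarith

section meas

variable (μ : Measure ℝ) [IsProbabilityMeasure μ] (hμ : ∀ n : ℕ, Integrable (fun t : ℝ => |t| ^ n) μ)

include hμ

theorem int_one (n : ℕ) : Integrable (fun t : ℝ => (1 + |t|) ^ n) μ := by
  refine Integrable.mono' (g := fun t => 2 ^ n * (1 + |t| ^ n))
    (((integrable_const (1 : ℝ)).add (hμ n)).const_mul _)
    (by fun_prop) (Filter.Eventually.of_forall fun t => ?_)
  have h0 := abs_nonneg t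
  rw [Real.norm_eq_abs, abs_of_nonneg (by positivity)]
  rcases le_total |t| 1 with h | h
  · calc (1 + |t|) ^ n ≤ 2 ^ n := pow_le_pow_left₀ (by linarith) (by linarith) n
      _ ≤ 2 ^ n * (1 + |t| ^ n) := by
          have : 0 ≤ |t| ^ n := by positivity
          have : (0 : ℝ) < 2 ^ n := by positivity
          nlinarith
  · calc (1 + |t|) ^ n ≤ (2 * |t|) ^ n := pow_le_pow_left₀ (by linarith) (by linarith) n
      _ = 2 ^ n * |t| ^ n := by rw [mul_pow]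
      _ ≤ 2 ^ n * (1 + |t| ^ n) := by
          have : (0 : ℝ) < 2 ^ n := by positivity
          nlinarith

theorem pb_int {F : (ι → ℝ) → ℝ} (hF : PBg Wa F) : Integrable F (PP ι μ) := by
  obtain ⟨C, n, hC, h⟩ := pb_norm Wa Wa_ge hF
  have h1 : Integrable (fun ω : ι → ℝ => ∏ i, (1 + |ω i|) ^ n) (PP ι μ) :=
    Integrable.fintype_prod (f := fun _ (t : ℝ) => (1 + |t|) ^ n) fun _ => int_one μ hμ n
  refine Integrable.mono' (h1.const_mul C) hF.1.aestronglyMeasurable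
    (Filter.Eventually.of_forall fun ω => ?_)
  rw [Real.norm_eq_abs, Finset.prod_pow]
  exact h n le_rfl ω

theorem pb_int2 {F : (ι → ℝ × ℝ) → ℝ} (hF : PBg Wb F) : Integrable F (QQ ι μ) := by
  obtain ⟨C, n, hC, h⟩ := pb_norm Wb Wb_ge hF
  have h0 : Integrable (fun t : ℝ × ℝ => (1 + |t.1|) ^ n * (1 + |t.2|) ^ n) (μ.prod μ) :=
    (int_one μ hμ n).mul_prod (int_one μ hμ n)
  have h1 : Integrable (fun θ : ι → ℝ × ℝ => ∏ i, ((1 + |(θ i).1|) ^ n * (1 + |(θ i).2|) ^ n))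
      (QQ ι μ) :=
    Integrable.fintype_prod (f := fun _ (t : ℝ × ℝ) => (1 + |t.1|) ^ n * (1 + |t.2|) ^ n)
      fun _ => h0
  refine Integrable.mono' (h1.const_mul C) hF.1.aestronglyMeasurable
    (Filter.Eventually.of_forall fun θ => ?_)
  rw [Real.norm_eq_abs]
  have h2 : ∏ i, ((1 + |(θ i).1|) ^ n * (1 + |(θ i).2|) ^ n) = Wb θ ^ n := by
    unfold Wb
    rw [← Finset.prod_pow]
    exact Finset.prod_congr rfl fun i _ => by rw [mul_pow]
  rw [h2]
  exact h n le_rfl θ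

theorem sw_cont (S : Finset ι) : Continuous (sw (ι := ι) S) := by
  apply continuous_pi
  intro i
  unfold sw
  split_ifs
  · exact continuous_swap.comp (continuous_apply i)
  · exact continuous_apply i

/-- the sum of the squares of the single site differences -/
noncomputable def Vs (G : (ι → ℝ) → ℝ) (θ : ι → ℝ × ℝ) : ℝ :=
  ∑ j, (G (sel ∅ θ) - G (sel {j} θ)) ^ 2

/-- Efron-Stein inequality -/
theorem efron (G : (ι → ℝ) → ℝ) (hG : PBg Wa G) :
    ∫ ω, G ω ^ 2 ∂(PP ι μ) - (∫ ω, G ω ∂(PP ι μ)) ^ 2 ≤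
      (1 / 2) * ∑ j, ∫ θ, (G (sel ∅ θ) - G (sel {j} θ)) ^ 2 ∂(QQ ι μ) := by
  have hGm : Measurable G := hG.1.measurable
  have gm : ∀ S : Finset ι, Measurable fun θ => G (sel S θ) := fun S => hGm.comp (meas_sel S)
  have ig : ∀ S T : Finset ι, Integrable (fun θ => G (sel S θ) * G (sel T θ)) (QQ ι μ) :=
    fun S T => pb_int2 μ hμ (pb_mul Wb Wb_ge (pb_sel hG S) (pb_sel hG T))
  have main : ∀ S : Finset ι, ∫ θ, (G (sel ∅ θ) * G (sel ∅ θ) - G (sel ∅ θ) * G (sel S θ))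
      ∂(QQ ι μ) ≤ (1 / 2) * ∑ j ∈ S, ∫ θ, (G (sel ∅ θ) - G (sel {j} θ)) ^ 2 ∂(QQ ι μ) := by
    intro S
    induction S using Finset.induction_on with
    | empty => simp
    | insert j S hj ih =>
      rw [Finset.sum_insert hj, mul_add]
      have iS : Integrable (fun θ => G (sel ∅ θ) * G (sel ∅ θ) - G (sel ∅ θ) * G (sel S θ))
          (QQ ι μ) := (ig _ _).sub (ig _ _)
      have i1 : Integrable (fun θ => G (sel ∅ θ) * (G (sel S θ) - G (sel (insert j S) θ)))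
          (QQ ι μ) := by
        refine ((ig ∅ S).sub (ig ∅ (insert j S))).congr ?_
        exact Filter.Eventually.of_forall fun θ => by simp only [Pi.sub_apply]; ring
      have e1 : ∫ θ, (G (sel ∅ θ) * G (sel ∅ θ) - G (sel ∅ θ) * G (sel (insert j S) θ)) ∂(QQ ι μ)
          = ∫ θ, (G (sel ∅ θ) * G (sel ∅ θ) - G (sel ∅ θ) * G (sel S θ)) ∂(QQ ι μ) +
            ∫ θ, G (sel ∅ θ) * (G (sel S θ) - G (sel (insert j S) θ)) ∂(QQ ι μ) := by
        rw [← integral_add iS i1]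
        apply integral_congr_ae
        exact Filter.Eventually.of_forall fun θ => by ring
      have e2 : ∫ θ, G (sel ∅ θ) * (G (sel S θ) - G (sel (insert j S) θ)) ∂(QQ ι μ) =
          ∫ θ, G (sel {j} θ) * (G (sel (insert j S) θ) - G (sel S θ)) ∂(QQ ι μ) := by
        rw [← int_mp (mp_sw μ {j})
          (g := fun θ => G (sel ∅ θ) * (G (sel S θ) - G (sel (insert j S) θ)))
          ((gm ∅).mul ((gm S).sub (gm (insert j S))))]
        apply integral_congr_ae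
        refine Filter.Eventually.of_forall fun θ => ?_
        simp only [sel_empty_sw, sel_sw_single hj, sel_insert_sw_single hj]
      have i2 : Integrable (fun θ => G (sel {j} θ) * (G (sel (insert j S) θ) - G (sel S θ)))
          (QQ ι μ) := by
        refine ((ig {j} (insert j S)).sub (ig {j} S)).congr ?_
        exact Filter.Eventually.of_forall fun θ => by simp only [Pi.sub_apply]; ring
      have sqi : ∀ A C : Finset ι, Integrable (fun θ => (G (sel A θ) - G (sel C θ)) ^ 2)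
          (QQ ι μ) := by
        intro A C
        refine (((ig A A).sub ((ig A C).const_mul 2)).add (ig C C)).congr ?_
        exact Filter.Eventually.of_forall fun θ => by
          simp only [Pi.sub_apply, Pi.add_apply]; ring
      have e3 : ∫ θ, (G (sel S θ) - G (sel (insert j S) θ)) ^ 2 ∂(QQ ι μ) =
          ∫ θ, (G (sel ∅ θ) - G (sel {j} θ)) ^ 2 ∂(QQ ι μ) := by
        rw [← int_mp (mp_sw μ S) (g := fun θ => (G (sel ∅ θ) - G (sel {j} θ)) ^ 2)
          (((gm ∅).sub (gm {j})).pow_const 2)]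
        apply integral_congr_ae
        refine Filter.Eventually.of_forall fun θ => ?_
        simp only [sel_empty_sw, sel_single_sw hj]
      have e4 : 2 * ∫ θ, G (sel ∅ θ) * (G (sel S θ) - G (sel (insert j S) θ)) ∂(QQ ι μ) ≤
          (1 / 2) * ∫ θ, (G (sel ∅ θ) - G (sel {j} θ)) ^ 2 ∂(QQ ι μ) +
          (1 / 2) * ∫ θ, (G (sel ∅ θ) - G (sel {j} θ)) ^ 2 ∂(QQ ι μ) := by
        calc 2 * ∫ θ, G (sel ∅ θ) * (G (sel S θ) - G (sel (insert j S) θ)) ∂(QQ ι μ)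
            = ∫ θ, G (sel ∅ θ) * (G (sel S θ) - G (sel (insert j S) θ)) ∂(QQ ι μ) +
              ∫ θ, G (sel {j} θ) * (G (sel (insert j S) θ) - G (sel S θ)) ∂(QQ ι μ) := by
                rw [← e2]; ring
          _ = ∫ θ, (G (sel ∅ θ) * (G (sel S θ) - G (sel (insert j S) θ)) +
              G (sel {j} θ) * (G (sel (insert j S) θ) - G (sel S θ))) ∂(QQ ι μ) :=
                (integral_add i1 i2).symm
          _ ≤ ∫ θ, ((1 / 2) * (G (sel ∅ θ) - G (sel {j} θ)) ^ 2 +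
              (1 / 2) * (G (sel S θ) - G (sel (insert j S) θ)) ^ 2) ∂(QQ ι μ) := by
                apply integral_mono (i1.add i2) (((sqi _ _).const_mul _).add
                  ((sqi _ _).const_mul _))
                intro θ
                simp only [Pi.add_apply]
                nlinarith [sq_nonneg ((G (sel ∅ θ) - G (sel {j} θ)) -
                  (G (sel S θ) - G (sel (insert j S) θ)))]
          _ = _ := by
                rw [integral_add ((sqi _ _).const_mul _) ((sqi _ _).const_mul _),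
                  integral_const_mul, integral_const_mul, e3]
      rw [e1]
      linarith
  have h1 := main Finset.univ
  have h2 : ∫ θ, (G (sel ∅ θ) * G (sel ∅ θ) - G (sel ∅ θ) * G (sel Finset.univ θ)) ∂(QQ ι μ) =
      ∫ ω, G ω ^ 2 ∂(PP ι μ) - (∫ ω, G ω ∂(PP ι μ)) ^ 2 := by
    rw [integral_sub (ig _ _) (ig _ _), Pool.Agent.H4R2.AE.Conc.indep μ G G hGm hGm,
      sq (∫ ω, G ω ∂(PP ι μ))]
    congr 1
    rw [← int_mp (mp_sel μ ∅) (g := fun ω => G ω ^ 2) (hGm.pow_const 2)]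
    apply integral_congr_ae
    exact Filter.Eventually.of_forall fun θ => by ring
  rw [h2] at h1
  exact h1

/-- **moments from single site differences** -/
theorem moment (G : (ι → ℝ) → ℝ) (hG : PBg Wa G) (p : ℕ) :
    ∫ ω, (G ω ^ 2) ^ (p + 1) ∂(PP ι μ) ≤ 2 * (∫ ω, G ω ^ (p + 1) ∂(PP ι μ)) ^ 2 +
      2 * (((p : ℝ) + 1) ^ 2 * (2 * ((p : ℝ) + 1) ^ 2) ^ p) *
        ∫ θ, Vs G θ ^ (p + 1) ∂(QQ ι μ) := by
  have hGm : Measurable G := hG.1.measurable
  have gm : ∀ S : Finset ι, Measurable fun θ => G (sel S θ) := fun S => hGm.comp (meas_sel S)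
  have h1 := efron μ hμ (fun ω => G ω ^ (p + 1)) (pb_pow Wa Wa_ge hG _)
  have pG : ∀ S : Finset ι, PBg Wb (fun θ => G (sel S θ)) := fun S => pb_sel hG S
  have pD : ∀ j : ι, PBg Wb (fun θ => (G (sel ∅ θ) - G (sel {j} θ)) ^ 2) := fun j =>
    pb_pow Wb Wb_ge (pb_sub Wb Wb_ge (pG ∅) (pG {j})) 2
  have pE : ∀ (j : ι) (S : Finset ι),
      PBg Wb (fun θ => (G (sel ∅ θ) - G (sel {j} θ)) ^ 2 * (G (sel S θ) ^ 2) ^ p) := fun j S =>
    pb_mul Wb Wb_ge (pD j) (pb_pow Wb Wb_ge (pb_pow Wb Wb_ge (pG S) 2) p)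
  -- one site
  have h2 : ∀ j : ι, ∫ θ, (G (sel ∅ θ) ^ (p + 1) - G (sel {j} θ) ^ (p + 1)) ^ 2 ∂(QQ ι μ) ≤
      2 * (((p : ℝ) + 1) ^ 2 * ∫ θ, (G (sel ∅ θ) - G (sel {j} θ)) ^ 2 * (G (sel ∅ θ) ^ 2) ^ p
        ∂(QQ ι μ)) := by
    intro j
    have e1 : ∫ θ, (G (sel ∅ θ) ^ (p + 1) - G (sel {j} θ) ^ (p + 1)) ^ 2 ∂(QQ ι μ) ≤
        ∫ θ, ((p : ℝ) + 1) ^ 2 * ((G (sel ∅ θ) - G (sel {j} θ)) ^ 2 * (G (sel ∅ θ) ^ 2) ^ p +
          (G (sel ∅ θ) - G (sel {j} θ)) ^ 2 * (G (sel {j} θ) ^ 2) ^ p) ∂(QQ ι μ) := by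
      apply integral_mono
      · exact pb_int2 μ hμ (pb_pow Wb Wb_ge (pb_sub Wb Wb_ge (pb_pow Wb Wb_ge (pG ∅) _)
          (pb_pow Wb Wb_ge (pG {j}) _)) 2)
      · exact ((pb_int2 μ hμ (pE j ∅)).add (pb_int2 μ hμ (pE j {j}))).const_mul _
      · intro θ
        refine (pow_diff _ _ p).trans (le_of_eq ?_)
        ring
    have e2 : ∫ θ, (G (sel ∅ θ) - G (sel {j} θ)) ^ 2 * (G (sel {j} θ) ^ 2) ^ p ∂(QQ ι μ) =
        ∫ θ, (G (sel ∅ θ) - G (sel {j} θ)) ^ 2 * (G (sel ∅ θ) ^ 2) ^ p ∂(QQ ι μ) := by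
      rw [← int_mp (mp_sw μ {j})
        (g := fun θ => (G (sel ∅ θ) - G (sel {j} θ)) ^ 2 * (G (sel ∅ θ) ^ 2) ^ p)
        ((((gm ∅).sub (gm {j})).pow_const 2).mul (((gm ∅).pow_const 2).pow_const p))]
      apply integral_congr_ae
      refine Filter.Eventually.of_forall fun θ => ?_
      have hj : j ∉ (∅ : Finset ι) := Finset.notMem_empty j
      have e3 := sel_insert_sw_single hj θ
      rw [insert_empty_eq] at e3
      simp only [sel_empty_sw, e3]
      ring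
    refine e1.trans (le_of_eq ?_)
    rw [integral_const_mul, integral_add (pb_int2 μ hμ (pE j ∅)) (pb_int2 μ hμ (pE j {j})), e2]
    ring
  -- sum over the sites
  have h3 : ∑ j, ∫ θ, (G (sel ∅ θ) - G (sel {j} θ)) ^ 2 * (G (sel ∅ θ) ^ 2) ^ p ∂(QQ ι μ) =
      ∫ θ, (G (sel ∅ θ) ^ 2) ^ p * Vs G θ ∂(QQ ι μ) := by
    rw [← integral_finset_sum _ fun j _ => pb_int2 μ hμ (pE j ∅)]
    apply integral_congr_ae
    refine Filter.Eventually.of_forall fun θ => ?_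
    unfold Vs
    beta_reduce
    rw [Finset.mul_sum]
    exact Finset.sum_congr rfl fun j _ => by ring
  have pV : PBg Wb (Vs G) := pb_sum Wb Wb_ge Finset.univ fun j _ => pD j
  have hV0 : ∀ θ, 0 ≤ Vs G θ := fun θ => Finset.sum_nonneg fun j _ => sq_nonneg _
  have hc : (0 : ℝ) < ((p : ℝ) + 1) ^ 2 := by positivity
  have pX : PBg Wb (fun θ => (G (sel ∅ θ) ^ 2) ^ (p + 1)) :=
    pb_pow Wb Wb_ge (pb_pow Wb Wb_ge (pG ∅) 2) _
  have h4 : ((p : ℝ) + 1) ^ 2 * ∫ θ, (G (sel ∅ θ) ^ 2) ^ p * Vs G θ ∂(QQ ι μ) ≤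
      1 / 2 * ∫ θ, (G (sel ∅ θ) ^ 2) ^ (p + 1) ∂(QQ ι μ) +
      ((p : ℝ) + 1) ^ 2 * (2 * ((p : ℝ) + 1) ^ 2) ^ p * ∫ θ, Vs G θ ^ (p + 1) ∂(QQ ι μ) := by
    rw [← integral_const_mul, ← integral_const_mul, ← integral_const_mul, ← integral_add]
    · apply integral_mono
      · exact (pb_int2 μ hμ (pb_mul Wb Wb_ge (pb_pow Wb Wb_ge (pb_pow Wb Wb_ge (pG ∅) 2) p)
          pV)).const_mul _
      · exact ((pb_int2 μ hμ pX).const_mul _).add
          ((pb_int2 μ hμ (pb_pow Wb Wb_ge pV _)).const_mul _)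
      · intro θ
        exact young _ _ _ hc (sq_nonneg _) (hV0 θ) p
    · exact (pb_int2 μ hμ pX).const_mul _
    · exact (pb_int2 μ hμ (pb_pow Wb Wb_ge pV _)).const_mul _
  have h5 : ∫ θ, (G (sel ∅ θ) ^ 2) ^ (p + 1) ∂(QQ ι μ) = ∫ ω, (G ω ^ 2) ^ (p + 1) ∂(PP ι μ) :=
    int_mp (mp_sel μ ∅) (g := fun ω => (G ω ^ 2) ^ (p + 1)) ((hGm.pow_const 2).pow_const _)
  have h6 : ∫ ω, (G ω ^ (p + 1)) ^ 2 ∂(PP ι μ) = ∫ ω, (G ω ^ 2) ^ (p + 1) ∂(PP ι μ) := by
    apply integral_congr_ae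
    refine Filter.Eventually.of_forall fun ω => ?_
    beta_reduce
    rw [← pow_mul, ← pow_mul, mul_comm]
  have h7 : (1 / 2) * ∑ j, ∫ θ, (G (sel ∅ θ) ^ (p + 1) - G (sel {j} θ) ^ (p + 1)) ^ 2 ∂(QQ ι μ) ≤
      ((p : ℝ) + 1) ^ 2 * ∫ θ, (G (sel ∅ θ) ^ 2) ^ p * Vs G θ ∂(QQ ι μ) := by
    rw [← h3, Finset.mul_sum, Finset.mul_sum]
    refine Finset.sum_le_sum fun j _ => ?_
    have := h2 j
    linarith
  rw [h6] at h1
  rw [h5] at h4
  linarith

end meas

end Pool.Agent.Y661.EX
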