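import Pool.Agent.Y661.EX.Ser
import Pool.Agent.H4R2.AE.Gs

/-! The truncated series is an approximate eigenfunction. -/

set_option autoImplicit false
set_option linter.unusedSectionVars false

open scoped BigOperators

namespace Pool.Agent.Y661.EX

open Pool.Agent.H4R2.AE (T Hop)

variable {d L : ℕ} [NeZero L]

theorem hop_al (lam : ℝ) (V f : T d L → ℝ) (x : T d L) :
    Hop lam V f x = Al f x + lam * V x * f x := by
  unfold Hop Al dv gd
  congr 1
  refine Finset.sum_congr rfl fun i _ => ?_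
  rw [sub_add_cancel]
  ring

theorem al_zero' (V : T d L → ℝ) (x : T d L) : Al (phi V 0) x = 0 := by
  have h : phi V 0 = fun _ => (1 : ℝ) := by
    funext y
    exact phi_zero V y
  rw [h]
  exact al_const 1 x

/-- the truncated series -/
noncomputable def tps (V : T d L → ℝ) (lam : ℝ) (N : ℕ) (x : T d L) : ℝ :=
  ∑ n ∈ Finset.range (N + 1), lam ^ n * phi V n x

/-- the truncated energy -/
noncomputable def tep (V : T d L → ℝ) (lam : ℝ) (N : ℕ) : ℝ :=
  ∑ k ∈ Finset.range N, lam ^ (k + 1) * ep V (k + 1)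

theorem al_sum (N : ℕ) (f : ℕ → T d L → ℝ) (x : T d L) :
    Al (fun y => ∑ n ∈ Finset.range N, f n y) x = ∑ n ∈ Finset.range N, Al (f n) x := by
  induction N with
  | zero => simpa using al_const (d := d) (L := L) 0 x
  | succ N ih =>
    rw [Finset.sum_range_succ, ← ih]
    have h := al_add (fun y => ∑ n ∈ Finset.range N, f n y) (f N) x
    rw [← h]
    congr 1
    funext y
    rw [Finset.sum_range_succ]

theorem resid (V : T d L → ℝ) (lam : ℝ) (N : ℕ) (x : T d L) :
    Hop lam V (tps V lam N) x - tep V lam N * tps V lam N x =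
      lam ^ (N + 1) * (V x * phi V N x) - ∑ k ∈ Finset.range N, lam ^ (k + 1) * ep V (k + 1) *
        ∑ m ∈ Finset.Ico (N - k) (N + 1), lam ^ m * phi V m x := by
  have h1 : Al (tps V lam N) x = -(∑ n ∈ Finset.range N, lam ^ (n + 1) * (V x * phi V n x)) +
      ∑ k ∈ Finset.range N, lam ^ (k + 1) * ep V (k + 1) *
        ∑ m ∈ Finset.range (N - k), lam ^ m * phi V m x := by
    have e1 : Al (tps V lam N) x = ∑ n ∈ Finset.range (N + 1), lam ^ n * Al (phi V n) x := by
      unfold tps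
      rw [al_sum (N + 1) (fun n y => lam ^ n * phi V n y) x]
      exact Finset.sum_congr rfl fun n _ => al_smul _ _ _
    rw [e1, Finset.sum_range_succ', al_zero', mul_zero, add_zero]
    have e2 : ∀ n ∈ Finset.range N, lam ^ (n + 1) * Al (phi V (n + 1)) x =
        -(lam ^ (n + 1) * (V x * phi V n x)) + ∑ k ∈ Finset.range (n + 1),
          (fun k m => lam ^ (k + 1) * ep V (k + 1) * (lam ^ m * phi V m x)) k (n - k) := by
      intro n _
      rw [al_phi, mul_add, Finset.mul_sum, mul_neg]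
      congr 1
      refine Finset.sum_congr rfl fun k hk => ?_
      rw [Finset.mem_range] at hk
      beta_reduce
      have e3 : lam ^ (n + 1) = lam ^ (k + 1) * lam ^ (n - k) := by
        rw [← pow_add]
        congr 1
        omega
      rw [e3]
      ring
    rw [Finset.sum_congr rfl e2, Finset.sum_add_distrib, Finset.sum_neg_distrib]
    congr 1
    refine (Finset.sum_range_diag_flip N
      (fun k m => lam ^ (k + 1) * ep V (k + 1) * (lam ^ m * phi V m x))).trans ?_
    refine Finset.sum_congr rfl fun k _ => ?_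
    rw [Finset.mul_sum]
  have h2 : lam * V x * tps V lam N x =
      ∑ n ∈ Finset.range N, lam ^ (n + 1) * (V x * phi V n x) +
        lam ^ (N + 1) * (V x * phi V N x) := by
    unfold tps
    rw [← Finset.sum_range_succ (fun n => lam ^ (n + 1) * (V x * phi V n x)), Finset.mul_sum]
    exact Finset.sum_congr rfl fun n _ => by ring
  have h3 : tep V lam N * tps V lam N x = ∑ k ∈ Finset.range N, lam ^ (k + 1) * ep V (k + 1) *
        ∑ m ∈ Finset.range (N - k), lam ^ m * phi V m x +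
      ∑ k ∈ Finset.range N, lam ^ (k + 1) * ep V (k + 1) *
        ∑ m ∈ Finset.Ico (N - k) (N + 1), lam ^ m * phi V m x := by
    unfold tep tps
    rw [Finset.sum_mul, ← Finset.sum_add_distrib]
    refine Finset.sum_congr rfl fun k _ => ?_
    rw [← mul_add]
    congr 1
    rw [Finset.sum_range_add_sum_Ico _ (by omega)]
  rw [hop_al, h1, h2, h3]
  ring

theorem av_le (f : T d L → ℝ) (B : ℝ) (h : ∀ x, |f x| ≤ B) : |av f| ≤ B := by
  unfold av
  have hN := NS_pos (d := d) (L := L)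
  rw [abs_div, abs_of_pos hN, div_le_iff₀ hN]
  refine (Finset.abs_sum_le_sum_abs _ _).trans ?_
  refine (Finset.sum_le_sum fun x _ => h x).trans ?_
  rw [sum_const', mul_comm]

theorem ep_le (V : T d L → ℝ) (n : ℕ) (S : ℝ) (hS : 1 ≤ S) (h1 : ∀ x, |V x| ≤ S)
    (h2 : ∀ x, |phi V n x| ≤ S) : |ep V (n + 1)| ≤ S ^ 2 := by
  show |av (fun y => V y * phi V n y)| ≤ S ^ 2
  apply av_le
  intro x
  rw [abs_mul, sq]
  exact mul_le_mul (h1 x) (h2 x) (abs_nonneg _) (by linarith)

theorem resid_le (V : T d L → ℝ) (lam : ℝ) (N : ℕ) (S : ℝ) (hS : 1 ≤ S) (hl : 0 < lam)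
    (hl1 : lam ≤ 1) (h1 : ∀ x, |V x| ≤ S) (h2 : ∀ n ≤ N, ∀ x, |phi V n x| ≤ S) (x : T d L) :
    |Hop lam V (tps V lam N) x - tep V lam N * tps V lam N x| ≤
      (1 + (N : ℝ) * (N + 1)) * (lam ^ (N + 1) * S ^ 3) := by
  rw [resid]
  have a1 : |lam ^ (N + 1) * (V x * phi V N x)| ≤ lam ^ (N + 1) * S ^ 3 := by
    rw [abs_mul, abs_mul, abs_of_pos (pow_pos hl _)]
    apply mul_le_mul_of_nonneg_left _ (by positivity)
    calc |V x| * |phi V N x| ≤ S * S := mul_le_mul (h1 x) (h2 N le_rfl x) (abs_nonneg _) (by linarith)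
      _ ≤ S * S * S := le_mul_of_one_le_right (by positivity) hS
      _ = S ^ 3 := by ring
  have a2 : ∀ k ∈ Finset.range N, |lam ^ (k + 1) * ep V (k + 1) *
        ∑ m ∈ Finset.Ico (N - k) (N + 1), lam ^ m * phi V m x| ≤
      (N + 1) * (lam ^ (N + 1) * S ^ 3) := by
    intro k hk
    rw [Finset.mem_range] at hk
    have b1 : |∑ m ∈ Finset.Ico (N - k) (N + 1), lam ^ m * phi V m x| ≤
        (N + 1) * (lam ^ (N - k) * S) := by
      refine (Finset.abs_sum_le_sum_abs _ _).trans ?_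
      refine (Finset.sum_le_sum (g := fun _ => lam ^ (N - k) * S) fun m hm => ?_).trans ?_
      · rw [Finset.mem_Ico] at hm
        rw [abs_mul, abs_of_pos (pow_pos hl _)]
        exact mul_le_mul (pow_le_pow_of_le_one hl.le hl1 hm.1) (h2 m (by omega) x) (abs_nonneg _)
          (by positivity)
      · rw [Finset.sum_const, Nat.card_Ico, nsmul_eq_mul]
        apply mul_le_mul_of_nonneg_right _ (by positivity)
        have : N + 1 - (N - k) ≤ N + 1 := by omega
        exact_mod_cast this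
    have b2 := ep_le V k S hS h1 (h2 k (by omega))
    rw [abs_mul, abs_mul, abs_of_pos (pow_pos hl _)]
    calc lam ^ (k + 1) * |ep V (k + 1)| *
          |∑ m ∈ Finset.Ico (N - k) (N + 1), lam ^ m * phi V m x| ≤
          lam ^ (k + 1) * S ^ 2 * ((N + 1) * (lam ^ (N - k) * S)) := by gcongr
      _ = (N + 1) * ((lam ^ (k + 1) * lam ^ (N - k)) * S ^ 3) := by ring
      _ = (N + 1) * (lam ^ (N + 1) * S ^ 3) := by
          rw [← pow_add, show k + 1 + (N - k) = N + 1 by omega]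
  have a3 : |∑ k ∈ Finset.range N, lam ^ (k + 1) * ep V (k + 1) *
        ∑ m ∈ Finset.Ico (N - k) (N + 1), lam ^ m * phi V m x| ≤
      N * ((N + 1) * (lam ^ (N + 1) * S ^ 3)) := by
    refine (Finset.abs_sum_le_sum_abs _ _).trans ((Finset.sum_le_sum a2).trans ?_)
    rw [Finset.sum_const, Finset.card_range, nsmul_eq_mul]
  calc |lam ^ (N + 1) * (V x * phi V N x) - ∑ k ∈ Finset.range N, lam ^ (k + 1) * ep V (k + 1) *
        ∑ m ∈ Finset.Ico (N - k) (N + 1), lam ^ m * phi V m x| ≤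
        |lam ^ (N + 1) * (V x * phi V N x)| + |∑ k ∈ Finset.range N, lam ^ (k + 1) *
          ep V (k + 1) * ∑ m ∈ Finset.Ico (N - k) (N + 1), lam ^ m * phi V m x| := abs_sub _ _
    _ ≤ lam ^ (N + 1) * S ^ 3 + N * ((N + 1) * (lam ^ (N + 1) * S ^ 3)) := add_le_add a1 a3
    _ = _ := by ring

theorem tps_ge (V : T d L → ℝ) (lam : ℝ) (N : ℕ) (S : ℝ) (hS : 1 ≤ S) (hl : 0 < lam)
    (hl1 : lam ≤ 1) (h2 : ∀ n ≤ N, ∀ x, |phi V n x| ≤ S) (h3 : lam * (N * S) ≤ 1 / 2)
    (x : T d L) : 1 / 2 ≤ tps V lam N x := by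
  unfold tps
  rw [Finset.sum_range_succ', phi_zero, pow_zero, mul_one]
  have a1 : |∑ n ∈ Finset.range N, lam ^ (n + 1) * phi V (n + 1) x| ≤ N * (lam * S) := by
    refine (Finset.abs_sum_le_sum_abs _ _).trans ?_
    refine (Finset.sum_le_sum (g := fun _ => lam * S) fun n hn => ?_).trans ?_
    · rw [Finset.mem_range] at hn
      rw [abs_mul, abs_of_pos (pow_pos hl _)]
      apply mul_le_mul _ (h2 _ (by omega) x) (abs_nonneg _) hl.le
      exact pow_le_of_le_one hl.le hl1 (by omega)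
    · rw [Finset.sum_const, Finset.card_range, nsmul_eq_mul]
  have a2 := neg_abs_le (∑ n ∈ Finset.range N, lam ^ (n + 1) * phi V (n + 1) x)
  have a3 : N * (lam * S) = lam * (N * S) := by ring
  rw [a3] at a1
  linarith

/-- the energy of a positive eigenfunction is close to the truncated series -/
theorem energy_close (V : T d L → ℝ) (lam : ℝ) (N : ℕ) (S : ℝ) (hS : 1 ≤ S) (hl : 0 < lam)
    (hl1 : lam ≤ 1) (h1 : ∀ x, |V x| ≤ S) (h2 : ∀ n ≤ N, ∀ x, |phi V n x| ≤ S)
    (h3 : lam * (N * S) ≤ 1 / 2) (E0 : ℝ) (ψ : T d L → ℝ) (hψ : ∀ x, 0 < ψ x)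
    (hE : ∀ x, Hop lam V ψ x = E0 * ψ x) :
    |E0 - tep V lam N| ≤ 2 * ((1 + (N : ℝ) * (N + 1)) * (lam ^ (N + 1) * S ^ 3)) := by
  obtain ⟨B, hB⟩ : ∃ B, B = (1 + (N : ℝ) * (N + 1)) * (lam ^ (N + 1) * S ^ 3) := ⟨_, rfl⟩
  rw [← hB]
  have hr := resid_le V lam N S hS hl hl1 h1 h2
  rw [← hB] at hr
  have ht := tps_ge V lam N S hS hl hl1 h2 h3
  have hs := Pool.Agent.H4R2.AE.Gs.hop_symm lam V (tps V lam N) ψ
  have e1 : ∑ x, tps V lam N x * Hop lam V ψ x = E0 * ∑ x, ψ x * tps V lam N x := by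
    rw [Finset.mul_sum]
    exact Finset.sum_congr rfl fun x _ => by rw [hE]; ring
  rw [e1] at hs
  have e2 : (E0 - tep V lam N) * ∑ x, ψ x * tps V lam N x =
      ∑ x, ψ x * (Hop lam V (tps V lam N) x - tep V lam N * tps V lam N x) := by
    rw [sub_mul, ← hs, Finset.mul_sum, ← Finset.sum_sub_distrib]
    exact Finset.sum_congr rfl fun x _ => by ring
  have p1 : 0 < ∑ x, ψ x := Finset.sum_pos (fun x _ => hψ x) Finset.univ_nonempty
  have p2 : (1 / 2) * ∑ x, ψ x ≤ ∑ x, ψ x * tps V lam N x := by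
    rw [Finset.mul_sum]
    refine Finset.sum_le_sum fun x _ => ?_
    nlinarith [hψ x, ht x]
  have p3 : |∑ x, ψ x * (Hop lam V (tps V lam N) x - tep V lam N * tps V lam N x)| ≤
      B * ∑ x, ψ x := by
    refine (Finset.abs_sum_le_sum_abs _ _).trans ?_
    rw [Finset.mul_sum]
    refine Finset.sum_le_sum fun x _ => ?_
    rw [abs_mul, abs_of_pos (hψ x)]
    nlinarith [hψ x, hr x]
  rw [← e2, abs_mul, abs_of_pos (lt_of_lt_of_le (by positivity) p2)] at p3
  have p4 : |E0 - tep V lam N| * ((1 / 2) * ∑ x, ψ x) ≤ B * ∑ x, ψ x :=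
    (mul_le_mul_of_nonneg_left p2 (abs_nonneg _)).trans p3
  have p5 : (|E0 - tep V lam N| - 2 * B) * ∑ x, ψ x ≤ 0 := by linarith
  by_contra hcon
  push Not at hcon
  have := mul_pos (sub_pos.2 hcon) p1
  linarith

end Pool.Agent.Y661.EX
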