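import Pool.Agent.Y661.EX.Tame
import Pool.Agent.Y661.EX.Res

/-! The good event: correctors bounded by small powers, coefficients close to their means. -/

set_option autoImplicit false
set_option linter.unusedSectionVars false

open scoped BigOperators
open MeasureTheory

namespace Pool.Agent.Y661.EX

open Pool.Agent.H4R2.AE (T)
open Pool.Agent.H4R2.AE.Conc (PP QQ sel sw mp_sel mp_sw int_mp meas_sel meas_sw sel_single)

variable (μ : Measure ℝ) [IsProbabilityMeasure μ] (hμ : ∀ n : ℕ, Integrable (fun t : ℝ => |t| ^ n) μ)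

/-- the expectation of the coefficients -/
noncomputable def aL (μ : Measure ℝ) (d L : ℕ) [NeZero L] (n : ℕ) : ℝ :=
  ∫ V : T d L → ℝ, ep V n ∂(PP (T d L) μ)

theorem exists_good {Ω : Type} [MeasurableSpace Ω] (P : Measure Ω) [IsProbabilityMeasure P]
    (W : Ω → ℝ) (h0 : ∀ ω, 0 ≤ W ω) (hi : Integrable W P) (h1 : ∫ ω, W ω ∂P ≤ 1 / 2)
    (G : Set Ω) (hG : 3 / 4 ≤ P.real G) : ∃ ω ∈ G, W ω ≤ 1 := by
  by_contra hcon
  push Not at hcon
  have h2 := mul_meas_ge_le_integral_of_nonneg (Filter.Eventually.of_forall h0) hi 1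
  have h3 : P.real G ≤ P.real {x | 1 ≤ W x} :=
    measureReal_mono (fun ω hω => (hcon ω hω).le)
  linarith

include hμ

theorem var_eq {d L : ℕ} [NeZero L] (F : (T d L → ℝ) → ℝ) (hF : PBg Wa F) :
    ∫ V, (F V - ∫ V', F V' ∂(PP (T d L) μ)) ^ 2 ∂(PP (T d L) μ) =
      ∫ V, F V ^ 2 ∂(PP (T d L) μ) - (∫ V, F V ∂(PP (T d L) μ)) ^ 2 := by
  obtain ⟨a, ha⟩ : ∃ a, a = ∫ V', F V' ∂(PP (T d L) μ) := ⟨_, rfl⟩
  rw [← ha]
  have h1 : ∀ V, (F V - a) ^ 2 = F V ^ 2 - (2 * a * F V - a ^ 2) := fun V => by ring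
  simp only [h1]
  have i1 := pb_int μ hμ (pb_pow Wa Wa_ge hF 2)
  have i2 := pb_int μ hμ hF
  have i3 : Integrable (fun V => 2 * a * F V - a ^ 2) (PP (T d L) μ) :=
    (i2.const_mul _).sub (integrable_const _)
  rw [integral_sub i1 i3, integral_sub (i2.const_mul _) (integrable_const _), integral_const_mul,
    ← ha]
  simp
  ring

theorem coord_int {d L : ℕ} [NeZero L] (r : ℕ) (x : T d L) :
    ∫ V : T d L → ℝ, |V x| ^ r ∂(PP (T d L) μ) = ∫ t, |t| ^ r ∂μ :=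
  int_mp (measurePreserving_eval (fun _ : T d L => μ) x) (g := fun t : ℝ => |t| ^ r) (by fun_prop)

theorem good (d : ℕ) (hd : 4 ≤ d) (N : ℕ) (ε : ℝ) (hε : 0 < ε) : ∃ C : ℝ, 1 ≤ C ∧
    ∀ (L : ℕ) [NeZero L], 26 * d ≤ L → ∀ G : Set (T d L → ℝ),
      3 / 4 ≤ (PP (T d L) μ).real G → ∃ V ∈ G, (∀ k ≤ N, ∀ x, |phi V k x| ≤ C * (L : ℝ) ^ ε) ∧
        (∀ x, |V x| ≤ C * (L : ℝ) ^ ε) ∧
        ∀ k < N, |ep V (k + 1) - aL μ d L (k + 1)| ≤ C / L := by
  obtain ⟨r, hr⟩ : ∃ r : ℕ, (d + 1) / ε ≤ r := exists_nat_ge _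
  have hre : (d + 1 : ℝ) ≤ ε * r := by
    rw [div_le_iff₀ hε] at hr
    linarith
  have hr0 : r ≠ 0 := by
    rintro rfl
    have : (0 : ℝ) < d + 1 := by positivity
    simp at hre
    linarith
  obtain ⟨C1, hC1, h1⟩ := mom_all μ hμ d hd N r 1 one_pos
  choose C2 hC2 h2 using fun k : ℕ => ep_var μ hμ d hd k 1 one_pos
  obtain ⟨m, hm⟩ : ∃ m, m = ∫ t, |t| ^ r ∂μ := ⟨_, rfl⟩
  have hm0 : 0 ≤ m := by
    rw [hm]
    exact integral_nonneg fun t => by positivity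
  obtain ⟨B, hB⟩ : ∃ B, B = (N + 1) * C1 + m + ∑ k ∈ Finset.range N, C2 k := ⟨_, rfl⟩
  have hB0 : 0 ≤ B := by
    rw [hB]
    have : 0 ≤ ∑ k ∈ Finset.range N, C2 k := Finset.sum_nonneg fun k _ => hC2 k
    positivity
  obtain ⟨A, hA⟩ : ∃ A, A = 2 * B + 1 := ⟨_, rfl⟩
  have hA1 : 1 ≤ A := by linarith
  have hA0 : 0 < A := by linarith
  refine ⟨A, hA1, ?_⟩
  intro L _ hL G hG
  have hL1 := one_le_L L
  have hL0 : (0 : ℝ) < L := by linarith
  have hN : NS d L = (L : ℝ) ^ d := NS_eq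
  have hN0 := NS_pos (d := d) (L := L)
  have hrp : (L : ℝ) ^ (1 : ℝ) = L := Real.rpow_one _
  -- the test function
  obtain ⟨W1, hW1⟩ : ∃ W1 : (T d L → ℝ) → ℝ, W1 = fun V =>
      ∑ k ∈ Finset.range (N + 1), ∑ x, |phi V k x| ^ r := ⟨_, rfl⟩
  obtain ⟨W2, hW2⟩ : ∃ W2 : (T d L → ℝ) → ℝ, W2 = fun V => ∑ x, |V x| ^ r := ⟨_, rfl⟩
  obtain ⟨W3, hW3⟩ : ∃ W3 : (T d L → ℝ) → ℝ, W3 = fun V =>
      ∑ k ∈ Finset.range N, (ep V (k + 1) - aL μ d L (k + 1)) ^ 2 := ⟨_, rfl⟩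
  have p1' : ∀ k x, PBg Wa (fun V : T d L → ℝ => |phi V k x| ^ r) := fun k x =>
    pb_pow Wa Wa_ge (pb_abs Wa Wa_ge (pb_phi k x)) r
  have p1 : PBg Wa W1 := by
    rw [hW1]
    exact pb_sum Wa Wa_ge _ fun k _ => pb_sum Wa Wa_ge _ fun x _ => p1' k x
  have p2' : ∀ x, PBg Wa (fun V : T d L → ℝ => |V x| ^ r) := fun x =>
    pb_pow Wa Wa_ge (pb_abs Wa Wa_ge (pb_coord x)) r
  have p2 : PBg Wa W2 := by
    rw [hW2]
    exact pb_sum Wa Wa_ge _ fun x _ => p2' x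
  have p3' : ∀ k, PBg Wa (fun V : T d L → ℝ => (ep V (k + 1) - aL μ d L (k + 1)) ^ 2) := fun k =>
    pb_pow Wa Wa_ge (pb_sub Wa Wa_ge (pb_ep k) (pb_const Wa _)) 2
  have p3 : PBg Wa W3 := by
    rw [hW3]
    exact pb_sum Wa Wa_ge _ fun k _ => p3' k
  have n1 : ∀ V, 0 ≤ W1 V := fun V => by
    rw [hW1]
    exact Finset.sum_nonneg fun k _ => Finset.sum_nonneg fun x _ => by positivity
  have n2 : ∀ V, 0 ≤ W2 V := fun V => by
    rw [hW2]
    exact Finset.sum_nonneg fun x _ => by positivity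
  have n3 : ∀ V, 0 ≤ W3 V := fun V => by
    rw [hW3]
    exact Finset.sum_nonneg fun x _ => sq_nonneg _
  have b1 : ∫ V, W1 V ∂(PP (T d L) μ) ≤ (N + 1) * ((L : ℝ) ^ d * (C1 * L)) := by
    rw [hW1]
    rw [integral_finset_sum _ fun k _ => pb_int μ hμ (pb_sum Wa Wa_ge _ fun x _ => p1' k x)]
    refine (Finset.sum_le_sum (g := fun _ => (L : ℝ) ^ d * (C1 * L)) fun k hk => ?_).trans ?_
    · rw [Finset.mem_range] at hk
      rw [integral_finset_sum _ fun x _ => pb_int μ hμ (p1' k x), ← hN,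
        ← sum_const' (d := d) (L := L)]
      refine Finset.sum_le_sum fun x _ => ?_
      have := h1 L hL k (by omega) x
      rwa [hrp] at this
    · rw [Finset.sum_const, Finset.card_range, nsmul_eq_mul]
      push_cast
      exact le_rfl
  have b2 : ∫ V, W2 V ∂(PP (T d L) μ) = (L : ℝ) ^ d * m := by
    rw [hW2]
    rw [integral_finset_sum _ fun x _ => pb_int μ hμ (p2' x), ← hN,
        ← sum_const' (d := d) (L := L)]
    refine Finset.sum_congr rfl fun x _ => ?_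
    rw [coord_int μ hμ, hm]
  have b3 : ∫ V, W3 V ∂(PP (T d L) μ) ≤ (∑ k ∈ Finset.range N, C2 k) * (L / (L : ℝ) ^ d) := by
    rw [hW3]
    rw [integral_finset_sum _ fun k _ => pb_int μ hμ (p3' k), Finset.sum_mul]
    refine Finset.sum_le_sum fun k _ => ?_
    have h3 := h2 k L hL
    rw [hrp, hN] at h3
    have h4 := var_eq μ hμ (fun V : T d L → ℝ => ep V (k + 1)) (pb_ep k)
    have h5 : ∫ V : T d L → ℝ, (ep V (k + 1) - aL μ d L (k + 1)) ^ 2 ∂(PP (T d L) μ) =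
      ∫ V : T d L → ℝ, ep V (k + 1) ^ 2 ∂(PP (T d L) μ) -
        (∫ V : T d L → ℝ, ep V (k + 1) ∂(PP (T d L) μ)) ^ 2 := h4
    rw [h5, ← mul_div_assoc]
    exact h3
  obtain ⟨W, hW⟩ : ∃ W : (T d L → ℝ) → ℝ, W = fun V => A⁻¹ *
      (((L : ℝ) ^ (d + 1))⁻¹ * (W1 V + W2 V) + (L : ℝ) ^ 2 * W3 V) := ⟨_, rfl⟩
  have i1 := pb_int μ hμ p1
  have i2 := pb_int μ hμ p2
  have i3 := pb_int μ hμ p3
  have i12 : Integrable (fun V => W1 V + W2 V) (PP (T d L) μ) := i1.add i2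
  have i123 : Integrable (fun V => ((L : ℝ) ^ (d + 1))⁻¹ * (W1 V + W2 V) + (L : ℝ) ^ 2 * W3 V)
      (PP (T d L) μ) := (i12.const_mul _).add (i3.const_mul _)
  have iW : Integrable W (PP (T d L) μ) := by
    rw [hW]
    exact i123.const_mul _
  have nW : ∀ V, 0 ≤ W V := fun V => by
    rw [hW]
    have := n1 V
    have := n2 V
    have := n3 V
    positivity
  have bW : ∫ V, W V ∂(PP (T d L) μ) ≤ 1 / 2 := by
    rw [hW]
    rw [integral_const_mul, integral_add (i12.const_mul _) (i3.const_mul _), integral_const_mul,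
      integral_const_mul, integral_add i1 i2, b2]
    have e1 : ((L : ℝ) ^ (d + 1))⁻¹ * (∫ V, W1 V ∂(PP (T d L) μ) + (L : ℝ) ^ d * m) ≤
        (N + 1) * C1 + m := by
      calc ((L : ℝ) ^ (d + 1))⁻¹ * (∫ V, W1 V ∂(PP (T d L) μ) + (L : ℝ) ^ d * m) ≤
            ((L : ℝ) ^ (d + 1))⁻¹ * ((N + 1) * ((L : ℝ) ^ d * (C1 * L)) + (L : ℝ) ^ d * m) := by
            gcongr
        _ = (N + 1) * C1 + m / L := by
            rw [pow_succ]
            field_simp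
        _ ≤ (N + 1) * C1 + m := by
            have := div_le_self hm0 hL1
            linarith
    have e2 : (L : ℝ) ^ 2 * ∫ V, W3 V ∂(PP (T d L) μ) ≤ ∑ k ∈ Finset.range N, C2 k := by
      have e3 : 0 ≤ ∑ k ∈ Finset.range N, C2 k := Finset.sum_nonneg fun k _ => hC2 k
      calc (L : ℝ) ^ 2 * ∫ V, W3 V ∂(PP (T d L) μ) ≤
            (L : ℝ) ^ 2 * ((∑ k ∈ Finset.range N, C2 k) * (L / (L : ℝ) ^ d)) := by gcongr
        _ = (∑ k ∈ Finset.range N, C2 k) * ((L : ℝ) ^ 3 / (L : ℝ) ^ d) := by ring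
        _ ≤ (∑ k ∈ Finset.range N, C2 k) * 1 := by
            apply mul_le_mul_of_nonneg_left _ e3
            rw [div_le_one (by positivity)]
            exact pow_le_pow_right₀ hL1 (by omega)
        _ = _ := mul_one _
    rw [inv_mul_le_iff₀ hA0]
    rw [← hB.symm] at *
    linarith
  obtain ⟨V, hV, hWV⟩ := exists_good (PP (T d L) μ) W nW iW bW G hG
  have hWV2 : ((L : ℝ) ^ (d + 1))⁻¹ * (W1 V + W2 V) + (L : ℝ) ^ 2 * W3 V ≤ A := by
    have h3 : W V = A⁻¹ * (((L : ℝ) ^ (d + 1))⁻¹ * (W1 V + W2 V) + (L : ℝ) ^ 2 * W3 V) := by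
      rw [hW]
    rw [h3, inv_mul_le_iff₀ hA0, mul_one] at hWV
    exact hWV
  have m1 := n1 V
  have m2 := n2 V
  have m3 := n3 V
  have c12 : W1 V + W2 V ≤ A * (L : ℝ) ^ (d + 1) := by
    have h3 : 0 ≤ (L : ℝ) ^ 2 * W3 V := by positivity
    have h4 : ((L : ℝ) ^ (d + 1))⁻¹ * (W1 V + W2 V) ≤ A := by linarith
    rw [inv_mul_le_iff₀ (by positivity)] at h4
    linarith
  have c3 : (L : ℝ) ^ 2 * W3 V ≤ A := by
    have h3 : 0 ≤ ((L : ℝ) ^ (d + 1))⁻¹ * (W1 V + W2 V) := by positivity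
    linarith
  obtain ⟨l, hl⟩ : ∃ l : ℝ, l = (L : ℝ) ^ ε := ⟨_, rfl⟩
  have hl1 : 1 ≤ l := by rw [hl]; exact Real.one_le_rpow hL1 hε.le
  have hlr : (L : ℝ) ^ (d + 1) ≤ l ^ r := by
    rw [hl, ← Real.rpow_natCast, ← Real.rpow_natCast, ← Real.rpow_mul hL0.le]
    apply Real.rpow_le_rpow_of_exponent_le hL1
    push_cast
    exact hre
  have hroot : ∀ t : ℝ, 0 ≤ t → t ^ r ≤ A * (L : ℝ) ^ (d + 1) → t ≤ A * l := by
    intro t _ h3
    apply le_of_pow_le_pow_left₀ hr0 (by positivity)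
    rw [mul_pow]
    refine h3.trans ?_
    apply mul_le_mul (le_self_pow₀ hA1 hr0) hlr (by positivity) (by positivity)
  refine ⟨V, hV, ?_, ?_, ?_⟩
  · intro k hk x
    rw [← hl]
    apply hroot _ (abs_nonneg _)
    have h3 : |phi V k x| ^ r ≤ W1 V := by
      rw [hW1]
      have h4 : |phi V k x| ^ r ≤ ∑ x, |phi V k x| ^ r :=
        Finset.single_le_sum (f := fun x => |phi V k x| ^ r) (fun _ _ => by positivity)
          (Finset.mem_univ x)
      have h5 : ∑ x, |phi V k x| ^ r ≤ ∑ k ∈ Finset.range (N + 1), ∑ x, |phi V k x| ^ r :=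
        Finset.single_le_sum (f := fun k => ∑ x, |phi V k x| ^ r)
          (fun _ _ => Finset.sum_nonneg fun _ _ => by positivity)
          (Finset.mem_range.2 (by omega))
      exact h4.trans h5
    linarith
  · intro x
    rw [← hl]
    apply hroot _ (abs_nonneg _)
    have h3 : |V x| ^ r ≤ W2 V := by
      rw [hW2]
      exact Finset.single_le_sum (f := fun x => |V x| ^ r) (fun _ _ => by positivity)
          (Finset.mem_univ x)
    linarith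
  · intro k hk
    have h3 : (ep V (k + 1) - aL μ d L (k + 1)) ^ 2 ≤ W3 V := by
      rw [hW3]
      exact Finset.single_le_sum (f := fun k => (ep V (k + 1) - aL μ d L (k + 1)) ^ 2)
        (fun _ _ => sq_nonneg _) (Finset.mem_range.2 hk)
    apply abs_le_of_sq_le_sq _ (by positivity)
    rw [div_pow, le_div_iff₀ (by positivity)]
    have h4 : (ep V (k + 1) - aL μ d L (k + 1)) ^ 2 * (L : ℝ) ^ 2 ≤ A := by
      nlinarith [sq_nonneg (L : ℝ)]
    nlinarith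

end Pool.Agent.Y661.EX
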