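import Pool.Agent.Y661.EX.GauF

/-! Gaussian disorder: the final theorem on the expansion of the effective edge. -/

set_option autoImplicit false
set_option linter.unusedSectionVars false

open scoped BigOperators ENNReal Topology
open MeasureTheory ProbabilityTheory Filter

namespace Pool.Agent.Y661.EX

open Pool.Agent.H4R2.AE.Conc (PP QQ int_mp)
open Pool.Agent.Results.MP_1906c1_mp.ScaleAtEdge

/-- `e n` are the Taylor coefficients at `σ = 0` of the top eigenvalue of `H_σ` on the torus -/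
def IsTopTaylor {d L : ℕ} [NeZero L] (ξ : T d L → ℝ) (e : ℕ → ℝ) : Prop :=
  ∀ N : ℕ, ∃ C δ : ℝ, 0 < δ ∧ ∀ σ : ℝ, 0 < σ → σ ≤ δ → ∀ (E : ℝ) (ψ : T d L → ℝ),
    (∀ x, 0 < ψ x) → (∀ x, HT σ ξ ψ x = E * ψ x) →
      |E - ∑ n ∈ Finset.range (N + 1), e n * σ ^ n| ≤ C * σ ^ (N + 1)

/-- the coefficients -/
noncomputable def eT {d L : ℕ} [NeZero L] (ξ : T d L → ℝ) (n : ℕ) : ℝ :=
  if n = 0 then 2 * d else -ep (fun y => -ξ y) n

theorem eT_taylor {d L : ℕ} [NeZero L] (ξ : T d L → ℝ) : IsTopTaylor ξ (eT ξ) := by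
  intro N
  obtain ⟨C, l0, hl0, h⟩ := taylor (fun y : T d L => -ξ y) N
  refine ⟨C, l0, hl0, ?_⟩
  intro σ hσ hσl E ψ hψ hE
  have h1 := h σ hσ hσl (2 * d - E) ψ hψ (fun x => by
    have := hE x
    rw [HT_eq] at this
    linarith)
  have h2 : ∑ n ∈ Finset.range (N + 1), eT ξ n * σ ^ n =
      2 * d - ∑ k ∈ Finset.range N, σ ^ (k + 1) * ep (fun y => -ξ y) (k + 1) := by
    rw [Finset.sum_range_succ']
    have e1 : eT ξ 0 * σ ^ 0 = 2 * d := by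
      unfold eT
      simp
    rw [e1, add_comm, sub_eq_add_neg, ← Finset.sum_neg_distrib]
    congr 1
    refine Finset.sum_congr rfl fun n _ => ?_
    unfold eT
    rw [if_neg (by omega)]
    ring
  rw [h2]
  have e3 : E - (2 * d - ∑ k ∈ Finset.range N, σ ^ (k + 1) * ep (fun y => -ξ y) (k + 1)) =
      -((2 * d - E) - ∑ k ∈ Finset.range N, σ ^ (k + 1) * ep (fun y => -ξ y) (k + 1)) := by ring
  rw [e3, abs_neg]
  exact h1

theorem eT_int {d L : ℕ} [NeZero L] (n : ℕ) :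
    Integrable (fun ξ : T d L → ℝ => eT ξ n) (Measure.pi fun _ : T d L => gaussianReal 0 1) := by
  unfold eT
  cases n with
  | zero =>
    simp only [if_true]
    exact integrable_const _
  | succ n =>
    simp only [Nat.add_eq_zero_iff, one_ne_zero, and_false, if_false, ep_neg]
    exact ((pb_int (gaussianReal 0 1) gauss_mom (pb_ep n)).const_mul _).neg

theorem eT_mean {d L : ℕ} [NeZero L] (n : ℕ) (hn : n ≠ 0) :
    ∫ ξ : T d L → ℝ, eT ξ (2 * n) ∂(Measure.pi fun _ : T d L => gaussianReal 0 1) =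
      -aL (gaussianReal 0 1) d L (2 * n) := by
  have h1 : ∀ ξ : T d L → ℝ, eT ξ (2 * n) = -ep ξ (2 * n) := by
    intro ξ
    unfold eT
    rw [if_neg (by omega), ep_neg, (even_two_mul n).neg_one_pow, one_mul]
  simp only [h1]
  rw [integral_neg]
  rfl

theorem eT_lim (d : ℕ) (hd : 4 ≤ d) (n : ℕ) :
    Tendsto (fun L : ℕ => ∫ ξ : T d (L + 1) → ℝ, eT ξ (2 * n)
      ∂(Measure.pi fun _ : T d (L + 1) => gaussianReal 0 1)) atTop (𝓝 (ca d n)) := by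
  by_cases hn : n = 0
  · subst hn
    have h1 : ∀ L : ℕ, ∫ ξ : T d (L + 1) → ℝ, eT ξ (2 * 0)
      ∂(Measure.pi fun _ : T d (L + 1) => gaussianReal 0 1) = ca d 0 := by
      intro L
      unfold eT ca
      simp
    simp only [h1]
    exact tendsto_const_nhds
  · obtain ⟨K, hK, hE⟩ := heG d hd
    have h1 : ∀ L : ℕ, ∫ ξ : T d (L + 1) → ℝ, eT ξ (2 * n)
      ∂(Measure.pi fun _ : T d (L + 1) => gaussianReal 0 1) =
        -aL (gaussianReal 0 1) d (L + 1) (2 * n) := fun L => eT_mean n hn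
    simp only [h1]
    have h2 : ca d n = -bco (gaussianReal 0 1) d (2 * n) := by
      unfold ca
      rw [if_neg hn]
    rw [h2]
    obtain ⟨m, hm⟩ : ∃ m, 2 * n = m + 1 := ⟨2 * n - 1, by omega⟩
    rw [hm]
    exact (lim_all (gaussianReal 0 1) gauss_mom d hd (m + 1) K hK (hE (m + 1)) m (by omega)).neg

/-- **the expansion** -/
theorem mainG (d : ℕ) (hd : 4 ≤ d) : ∃ a : ℕ → ℝ, a 0 = 2 * d ∧ a 1 = Pool.Agent.Y661.ED.Gd d ∧
    (∃ e : (L : ℕ) → (T d (L + 1) → ℝ) → ℕ → ℝ, (∀ L ξ, IsTopTaylor ξ (e L ξ)) ∧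
      ∀ n, (∀ L, Integrable (fun ξ => e L ξ (2 * n))
          (Measure.pi fun _ : T d (L + 1) => gaussianReal 0 1)) ∧
        Tendsto (fun L : ℕ => ∫ ξ, e L ξ (2 * n)
          ∂(Measure.pi fun _ : T d (L + 1) => gaussianReal 0 1)) atTop (𝓝 (a n))) ∧
    ∀ η : ℝ, 0 < η → η ≤ 1 → ∃ k K : ℝ, 0 < k ∧ 0 < K ∧ ∃ Es : ℝ → ℝ,
      (∀ N : ℕ, ∃ C : ℝ, ∀ σ : ℝ, 0 < σ → σ ≤ k →
        |Es σ - ∑ n ∈ Finset.range (N + 1), a n * σ ^ (2 * n)| ≤ C * σ ^ (2 * (N + 1))) ∧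
      ∀ σ : ℝ, 0 < σ → σ ≤ k →
        (∃ G : Set ((Fin d → ℤ) → ℝ), MeasurableSet G ∧
          1 - Real.exp (-(k * sc d σ)) ≤
            (Measure.infinitePi fun _ : Fin d → ℤ => gaussianReal 0 1).real G ∧
          ∀ ξ ∈ G, ∀ κ : ℝ, Real.exp (-(k * sc d σ)) ≤ κ → κ ≤ 1 → ∀ E : ℝ, Es σ - κ ≤ |E| →
            SpreadOut σ ξ E (K * κ ^ ((d : ℝ) / 2)) (Real.exp (k * sc d σ))) ∧
        (∀ (L : ℕ) [NeZero L], (L : ℝ) ≤ Real.exp (k * sc d σ) →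
          ∃ G : Set (T d L → ℝ), MeasurableSet G ∧
            1 - Real.exp (-(k * sc d σ)) ≤ (Measure.pi fun _ : T d L => gaussianReal 0 1).real G ∧
            ∀ ξ ∈ G, ∃ (E : ℝ) (ψ : T d L → ℝ), |E - Es σ| ≤ K / (L : ℝ) ^ 2 ∧
              (∀ x, 1 ≤ ψ x ∧ ψ x ≤ 1 + η) ∧ ∀ x, HT σ ξ ψ x = E * ψ x) ∧
        ∀ κ : ℝ, Real.exp (-(k * sc d σ)) ≤ κ → κ ≤ 1 →
          ∀ᵐ ξ ∂(Measure.infinitePi fun _ : Fin d → ℤ => gaussianReal 0 1),
            Localized (H σ ξ) {E | Es σ + κ ≤ |E|}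
              (k * Real.sqrt κ / Real.log (2 / (κ * σ))) := by
  refine ⟨ca d, by simp [ca], by simp [ca, bco_two d hd], ⟨fun L ξ => eT ξ, fun L ξ => eT_taylor ξ,
    fun n => ⟨fun L => eT_int (2 * n), eT_lim d hd n⟩⟩, ?_⟩
  intro η hη hη1
  obtain ⟨k, K, hk, hk1, hK, h⟩ := coreG d hd η hη hη1
  choose! Es h1 h2 h3 h4 using h
  refine ⟨k, K, hk, hK, Es, ?_, ?_⟩
  · intro N
    obtain ⟨C, -, hC⟩ := expG d hd k K η hk hk1 hK.le (fun σ hσ hσk => ⟨Es σ, h3 σ hσ hσk⟩) N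
    exact ⟨C, fun σ hσ hσk => hC σ hσ hσk (Es σ) (h1 σ hσ hσk) (h3 σ hσ hσk)⟩
  · intro σ hσ hσk
    refine ⟨h2 σ hσ hσk, ?_, h4 σ hσ hσk⟩
    intro L _ hL
    obtain ⟨G, hG, hP, hF⟩ := h3 σ hσ hσk L hL
    have hm : Measurable (fun (ξ : T d L → ℝ) y => -ξ y) := by fun_prop
    refine ⟨(fun ξ y => -ξ y) ⁻¹' G, hm hG, ?_, fun ξ hξ => ?_⟩
    · have e1 : (Measure.pi fun _ : T d L => gaussianReal 0 1).real ((fun ξ y => -ξ y) ⁻¹' G) =
          (Measure.pi fun _ : T d L => gaussianReal 0 1).real G := by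
        conv_rhs => rw [← lawT_neg d L]
        rw [map_measureReal_apply hm hG]
      rw [e1]
      exact hP
    · obtain ⟨E0, ψ, q1, q2, q3⟩ := hF _ hξ
      refine ⟨2 * d - E0, ψ, ?_, q2, fun x => ?_⟩
      · have e1 : 2 * (d : ℝ) - E0 - Es σ = -(E0 - (2 * d - Es σ)) := by ring
        rw [e1, abs_neg]
        exact q1
      · rw [HT_eq, q3 x]
        ring

end Pool.Agent.Y661.EX
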