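import Pool.Agent.H4R2.AE.Poi
import Pool.Agent.H4R2.AE.Lin

/-! Hardy inequality on the discrete torus with a smooth weight. -/

set_option autoImplicit false
set_option linter.unusedSectionVars false

open scoped BigOperators

namespace Pool.Agent.Y661.EX

open Pool.Agent.H4R2.AE (T)

section trig

variable {L : ℕ} [NeZero L]

noncomputable def cs (a : ZMod L) : ℝ := (ZMod.stdAddChar a : ℂ).re
noncomputable def sn (a : ZMod L) : ℝ := (ZMod.stdAddChar a : ℂ).im

theorem cs_add (a b : ZMod L) : cs (a + b) = cs a * cs b - sn a * sn b := by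
  unfold cs sn
  rw [AddChar.map_add_eq_mul, Complex.mul_re]

theorem sn_add (a b : ZMod L) : sn (a + b) = cs a * sn b + sn a * cs b := by
  unfold cs sn
  rw [AddChar.map_add_eq_mul, Complex.mul_im]

theorem cs_sq (a : ZMod L) : cs a ^ 2 + sn a ^ 2 = 1 := by
  unfold cs sn
  have h := Circle.normSq_coe (ZMod.toCircle a)
  rw [Complex.normSq_apply] at h
  rw [ZMod.stdAddChar_apply]
  linarith

theorem cs_neg (a : ZMod L) : cs (-a) = cs a := by
  unfold cs
  rw [ZMod.stdAddChar_apply, ZMod.stdAddChar_apply, AddChar.map_neg_eq_inv,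
    Circle.coe_inv_eq_conj, Complex.conj_re]

theorem sn_neg (a : ZMod L) : sn (-a) = -sn a := by
  unfold sn
  rw [ZMod.stdAddChar_apply, ZMod.stdAddChar_apply, AddChar.map_neg_eq_inv,
    Circle.coe_inv_eq_conj, Complex.conj_im]

theorem cs_zero : cs (0 : ZMod L) = 1 := by
  unfold cs
  rw [AddChar.map_zero_eq_one]
  simp

/-- the mesh -/
noncomputable def hh (L : ℕ) : ℝ := 2 * Real.pi / L

theorem L_pos' : (0 : ℝ) < L := by exact_mod_cast Nat.pos_of_ne_zero (NeZero.ne L)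

theorem hh_pos : 0 < hh L := by
  have := L_pos' (L := L)
  have := Real.pi_pos
  unfold hh
  positivity

theorem one_eq : (ZMod.stdAddChar (1 : ZMod L) : ℂ) = Complex.exp (((hh L : ℝ) : ℂ) * Complex.I) := by
  have h := ZMod.stdAddChar_coe (N := L) 1
  push_cast at h
  rw [h]
  congr 1
  unfold hh
  push_cast
  ring

theorem cs_one : cs (1 : ZMod L) = Real.cos (hh L) := by
  unfold cs
  rw [one_eq, Complex.exp_ofReal_mul_I_re]

theorem sn_one : sn (1 : ZMod L) = Real.sin (hh L) := by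
  unfold sn
  rw [one_eq, Complex.exp_ofReal_mul_I_im]

theorem cs_le (a : ZMod L) : cs a ≤ 1 := by
  have := cs_sq a
  nlinarith [sq_nonneg (sn a)]

theorem cs_ge (a : ZMod L) : -1 ≤ cs a := by
  have := cs_sq a
  nlinarith [sq_nonneg (sn a)]

theorem sn_abs (a : ZMod L) : |sn a| ≤ 1 := by
  have := cs_sq a
  rw [abs_le]
  constructor <;> nlinarith [sq_nonneg (cs a)]

/-- squared distance to the origin on the circle -/
noncomputable def kp (a : ZMod L) : ℝ := (2 - 2 * cs a) / hh L ^ 2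

noncomputable def bb (a : ZMod L) : ℝ := sn a / hh L

noncomputable def Pc (L : ℕ) [NeZero L] : ℝ := (1 - Real.cos (hh L)) / hh L ^ 2
noncomputable def Qc (L : ℕ) [NeZero L] : ℝ := Real.sin (hh L) / hh L

theorem kp_nonneg (a : ZMod L) : 0 ≤ kp a := by
  have := cs_le a
  unfold kp
  apply div_nonneg (by linarith) (by positivity)

theorem kp_le (a : ZMod L) : kp a ≤ (L : ℝ) ^ 2 := by
  have h1 := cs_ge a
  have h2 := hh_pos (L := L)
  have h3 := L_pos' (L := L)
  unfold kp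
  rw [div_le_iff₀ (by positivity)]
  have h4 : (L : ℝ) ^ 2 * hh L ^ 2 = (2 * Real.pi) ^ 2 := by
    unfold hh
    field_simp
  rw [h4]
  have := Real.pi_gt_three
  nlinarith

theorem kp_zero : kp (0 : ZMod L) = 0 := by
  unfold kp
  rw [cs_zero]
  norm_num

theorem bb_sq (a : ZMod L) : bb a ^ 2 ≤ kp a := by
  have h1 := cs_sq a
  have h2 := cs_le a
  have h3 := cs_ge a
  unfold bb kp
  rw [div_pow]
  apply div_le_div_of_nonneg_right _ (by positivity)
  nlinarith

theorem Pc_nonneg : 0 ≤ Pc L := by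
  unfold Pc
  have := Real.cos_le_one (hh L)
  apply div_nonneg (by linarith) (by positivity)

theorem Pc_le : Pc L ≤ 1 / 2 := by
  unfold Pc
  have h2 := hh_pos (L := L)
  rw [div_le_iff₀ (by positivity)]
  have := Real.one_sub_sq_div_two_le_cos (x := hh L)
  linarith

theorem Qc_abs : |Qc L| ≤ 1 := by
  unfold Qc
  have h2 := hh_pos (L := L)
  rw [abs_div, abs_of_pos h2, div_le_one h2]
  have := Real.abs_sin_le_abs (x := hh L)
  rwa [abs_of_pos h2] at this

theorem kp_succ (a : ZMod L) : kp (a + 1) - kp a = 2 * (Pc L * cs a + Qc L * bb a) := by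
  have h2 := (hh_pos (L := L)).ne'
  unfold kp Pc Qc bb
  rw [cs_add, cs_one, sn_one]
  field_simp
  ring

theorem kp_pred (a : ZMod L) : kp (a - 1) - kp a = 2 * (Pc L * cs a - Qc L * bb a) := by
  have h2 := (hh_pos (L := L)).ne'
  unfold kp Pc Qc bb
  rw [sub_eq_add_neg a 1, cs_add, cs_neg, sn_neg, cs_one, sn_one]
  field_simp
  ring

theorem bb_pred (a : ZMod L) : bb a - bb (a - 1) = Pc L * hh L * sn a + Qc L * cs a := by
  have h2 := (hh_pos (L := L)).ne'
  unfold Pc Qc bb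
  rw [sub_eq_add_neg a 1, sn_add, cs_neg, sn_neg, cs_one, sn_one]
  field_simp
  ring

/-- the elementary bound for one step of the weight -/
theorem step_sq (p q b c k : ℝ) (hp0 : 0 ≤ p) (hp : p ≤ 1 / 2) (hq : |q| ≤ 1) (hc : |c| ≤ 1)
    (hb : b ^ 2 ≤ k) : (2 * (p * c + q * b)) ^ 2 ≤ 2 + 8 * k := by
  have h1 : |p * c| ≤ 1 / 2 := by
    rw [abs_mul, abs_of_nonneg hp0]
    calc p * |c| ≤ 1 / 2 * 1 := by gcongr
      _ = _ := by norm_num
  have h2 : (q * b) ^ 2 ≤ k := by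
    rw [mul_pow]
    have : q ^ 2 ≤ 1 := by
      rw [← sq_abs]
      exact pow_le_one₀ (abs_nonneg q) hq
    nlinarith [sq_nonneg b]
  have h3 : (p * c) ^ 2 ≤ 1 / 4 := by
    rw [← sq_abs]
    nlinarith [abs_nonneg (p * c)]
  nlinarith [sq_nonneg (p * c - q * b)]

theorem kp_succ_sq (a : ZMod L) : (kp (a + 1) - kp a) ^ 2 ≤ 2 + 8 * kp a := by
  rw [kp_succ]
  exact step_sq _ _ _ _ _ Pc_nonneg Pc_le Qc_abs (abs_le.2 ⟨cs_ge a, cs_le a⟩) (bb_sq a)

theorem kp_pred_sq (a : ZMod L) : (kp (a - 1) - kp a) ^ 2 ≤ 2 + 8 * kp a := by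
  rw [kp_pred, sub_eq_add_neg, ← mul_neg]
  exact step_sq _ _ _ _ _ Pc_nonneg Pc_le Qc_abs (abs_le.2 ⟨cs_ge a, cs_le a⟩)
    (by rw [neg_sq]; exact bb_sq a)

end trig

variable {d L : ℕ} [NeZero L]

/-- the weight: `512 d + |u|²` -/
noncomputable def w0 (u : T d L) : ℝ := 512 * (d : ℝ) + ∑ i, kp (u i)

theorem w0_ge (u : T d L) : 512 * (d : ℝ) ≤ w0 u := by
  unfold w0
  have := Finset.sum_nonneg fun i (_ : i ∈ Finset.univ) => kp_nonneg (u i)
  linarith

theorem w0_add (u : T d L) (i : Fin d) (t : ZMod L) :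
    w0 (u + Pi.single i t) - w0 u = kp (u i + t) - kp (u i) := by
  unfold w0
  rw [add_sub_add_left_eq_sub, ← Finset.sum_sub_distrib, Finset.sum_eq_single i]
  · simp
  · intro j _ hj
    simp [Pi.single_eq_of_ne hj]
  · intro h
    exact absurd (Finset.mem_univ i) h

theorem w0_succ_sq (hd : 1 ≤ d) (u : T d L) (i : Fin d) :
    (w0 (u + Pi.single i 1) - w0 u) ^ 2 ≤ 8 * w0 u := by
  rw [w0_add]
  refine (kp_succ_sq (u i)).trans ?_
  have h1 : kp (u i) ≤ ∑ i, kp (u i) :=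
    Finset.single_le_sum (f := fun i => kp (u i)) (fun i _ => kp_nonneg _) (Finset.mem_univ i)
  have h2 : (1 : ℝ) ≤ d := by exact_mod_cast hd
  unfold w0
  linarith

theorem sub_single (u : T d L) (i : Fin d) : u - Pi.single i (1 : ZMod L) = u + Pi.single i (-1) := by
  rw [sub_eq_add_neg, ← Pi.single_neg]

theorem w0_pred_sq (hd : 1 ≤ d) (u : T d L) (i : Fin d) :
    (w0 (u - Pi.single i 1) - w0 u) ^ 2 ≤ 8 * w0 u := by
  rw [sub_single, w0_add, ← sub_eq_add_neg (u i) 1]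
  refine (kp_pred_sq (u i)).trans ?_
  have h1 : kp (u i) ≤ ∑ i, kp (u i) :=
    Finset.single_le_sum (f := fun i => kp (u i)) (fun i _ => kp_nonneg _) (Finset.mem_univ i)
  have h2 : (1 : ℝ) ≤ d := by exact_mod_cast hd
  unfold w0
  linarith

/-- the divergence of the vector field `b / w` -/
theorem div_low (hd : 4 ≤ d) (hL : hh L ≤ 1 / (4 * d)) (u : T d L) :
    1 / (2 * w0 u) - hh L ^ 2 / 2 ≤
      ∑ i, (bb (u i) / w0 u - bb (u i - 1) / w0 (u - Pi.single i 1)) := by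
  have hd1 : (4 : ℝ) ≤ d := by exact_mod_cast hd
  have hd0 : (0 : ℝ) < d := by linarith
  have hh0 := hh_pos (L := L)
  obtain ⟨w, hw⟩ : ∃ w, w = w0 u := ⟨_, rfl⟩
  have hwR : 512 * (d : ℝ) ≤ w := by rw [hw]; exact w0_ge u
  have hw0 : 0 < w := by linarith
  have hhs : hh L ≤ 1 / 16 := by
    refine hL.trans ?_
    rw [div_le_div_iff₀ (by positivity) (by norm_num)]
    linarith
  rw [← hw]
  -- per coordinate
  have key : ∀ i : Fin d, (bb (u i) - bb (u i - 1)) / w -
      (7 / 3 * (9 / 8 * (9 / 8 * kp (u i) + 36)) + 4) / w / w ≤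
      bb (u i) / w - bb (u i - 1) / w0 (u - Pi.single i 1) := by
    intro i
    obtain ⟨w', hw'⟩ : ∃ w', w' = w0 (u - Pi.single i 1) := ⟨_, rfl⟩
    have hw'R : 512 * (d : ℝ) ≤ w' := by rw [hw']; exact w0_ge _
    have hw'0 : 0 < w' := by linarith
    obtain ⟨b, hb⟩ : ∃ b, b = bb (u i) := ⟨_, rfl⟩
    obtain ⟨b', hb'⟩ : ∃ b', b' = bb (u i - 1) := ⟨_, rfl⟩
    obtain ⟨κ, hκ⟩ : ∃ κ, κ = kp (u i) := ⟨_, rfl⟩
    rw [← hw', ← hb, ← hb', ← hκ]
    have hκ0 : 0 ≤ κ := by rw [hκ]; exact kp_nonneg _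
    -- the step of the weight
    have e1 : w' - w = kp (u i - 1) - kp (u i) := by
      rw [hw', hw, sub_single, w0_add, ← sub_eq_add_neg (u i) 1]
    have e2 : w - w' = 2 * (Pc L * cs (u i - 1) + Qc L * b') := by
      have h := kp_succ (u i - 1)
      rw [sub_add_cancel] at h
      rw [hb']
      linarith
    have hP0 := Pc_nonneg (L := L)
    have hP1 := Pc_le (L := L)
    have hQ := Qc_abs (L := L)
    have hc : |cs (u i - 1)| ≤ 1 := abs_le.2 ⟨cs_ge _, cs_le _⟩
    -- w is close to w'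
    have e3 : (w - w') ^ 2 ≤ 8 * w' := by
      have h := w0_succ_sq (by omega) (u - Pi.single i 1) i
      rw [sub_add_cancel] at h
      rw [hw, hw']
      exact h
    have e4 : w ≤ 9 / 8 * w' := by
      by_contra hcon
      push Not at hcon
      have h1 : w' / 8 < w - w' := by linarith
      have h2 : (w' / 8) ^ 2 < (w - w') ^ 2 := by
        apply pow_lt_pow_left₀ h1 (by positivity) (by norm_num)
      nlinarith
    -- b' against b
    have e5 : |b - b'| ≤ 2 := by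
      rw [hb, hb', bb_pred]
      refine (abs_add_le _ _).trans ?_
      have h1 : |Pc L * hh L * sn (u i)| ≤ 1 := by
        rw [abs_mul, abs_mul, abs_of_nonneg hP0, abs_of_pos hh0]
        have := sn_abs (u i)
        calc Pc L * hh L * |sn (u i)| ≤ 1 / 2 * (1 / 16) * 1 := by gcongr
          _ ≤ 1 := by norm_num
      have h2 : |Qc L * cs (u i)| ≤ 1 := by
        rw [abs_mul]
        have : |cs (u i)| ≤ 1 := abs_le.2 ⟨cs_ge _, cs_le _⟩
        calc |Qc L| * |cs (u i)| ≤ 1 * 1 := by gcongr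
          _ = 1 := by norm_num
      linarith
    have e6 : b ^ 2 ≤ κ := by rw [hb, hκ]; exact bb_sq _
    have e7 : b' ^ 2 ≤ 9 / 8 * κ + 36 := by
      have h1 : (b - b') ^ 2 ≤ 4 := by
        rw [← sq_abs]
        nlinarith [abs_nonneg (b - b')]
      nlinarith [sq_nonneg (b + 8 * (b - b')), sq_nonneg (b - b')]
    -- product
    have e8 : b' * (w - w') ≤ 7 / 3 * b' ^ 2 + 3 := by
      rw [e2]
      have h1 : b' * (2 * (Pc L * cs (u i - 1) + Qc L * b')) =
          2 * (Pc L * cs (u i - 1)) * b' + 2 * Qc L * b' ^ 2 := by ring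
      rw [h1]
      have h2 : |Pc L * cs (u i - 1)| ≤ 1 / 2 := by
        rw [abs_mul, abs_of_nonneg hP0]
        calc Pc L * |cs (u i - 1)| ≤ 1 / 2 * 1 := by gcongr
          _ = _ := by norm_num
      have h3 : 2 * Qc L * b' ^ 2 ≤ 2 * b' ^ 2 := by
        have := (abs_le.1 hQ).2
        nlinarith [sq_nonneg b']
      have h4 : 2 * (Pc L * cs (u i - 1)) * b' ≤ |b'| := by
        calc 2 * (Pc L * cs (u i - 1)) * b' ≤ |2 * (Pc L * cs (u i - 1)) * b'| := le_abs_self _
          _ = 2 * |Pc L * cs (u i - 1)| * |b'| := by rw [abs_mul, abs_mul]; norm_num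
          _ ≤ 2 * (1 / 2) * |b'| := by gcongr
          _ = |b'| := by ring
      have h5 : |b'| ≤ 1 / 3 * b' ^ 2 + 3 := by
        rw [← sq_abs b']
        nlinarith [sq_nonneg (|b'| - 3 / 2)]
      linarith
    have e9 : b / w - b' / w' = (b - b') / w - b' * (w - w') / (w * w') := by
      field_simp
      ring
    rw [e9]
    have e10 : b' * (w - w') / (w * w') ≤ (7 / 3 * (9 / 8 * (9 / 8 * κ + 36)) + 4) / w / w := by
      rw [div_div, div_le_div_iff₀ (by positivity) (by positivity)]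
      have h1 : b' * (w - w') * w ≤ (7 / 3 * b' ^ 2 + 3) * w := by gcongr
      have h2 : (7 / 3 * b' ^ 2 + 3) * w ≤ (7 / 3 * (9 / 8 * κ + 36) + 3) * (9 / 8 * w') := by
        gcongr
      have h3 : (7 / 3 * (9 / 8 * κ + 36) + 3) * (9 / 8 * w') ≤
          (7 / 3 * (9 / 8 * (9 / 8 * κ + 36)) + 4) * w' := by
        have : (7 / 3 * (9 / 8 * κ + 36) + 3) * (9 / 8) ≤
          7 / 3 * (9 / 8 * (9 / 8 * κ + 36)) + 4 := by linarith
        calc (7 / 3 * (9 / 8 * κ + 36) + 3) * (9 / 8 * w') =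
              (7 / 3 * (9 / 8 * κ + 36) + 3) * (9 / 8) * w' := by ring
          _ ≤ _ := by gcongr
      calc b' * (w - w') * (w * w) = b' * (w - w') * w * w := by ring
        _ ≤ (7 / 3 * (9 / 8 * (9 / 8 * κ + 36)) + 4) * w' * w := by
            apply mul_le_mul_of_nonneg_right _ hw0.le
            linarith
        _ = _ := by ring
    linarith
  refine le_trans ?_ (Finset.sum_le_sum fun i _ => key i)
  have e0 : ∑ i : Fin d, ((bb (u i) - bb (u i - 1)) / w -
      (7 / 3 * (9 / 8 * (9 / 8 * kp (u i) + 36)) + 4) / w / w) =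
      (∑ i : Fin d, (bb (u i) - bb (u i - 1))) / w -
      (∑ i : Fin d, (7 / 3 * (9 / 8 * (9 / 8 * kp (u i) + 36)) + 4)) / w / w := by
    rw [Finset.sum_sub_distrib, Finset.sum_div, Finset.sum_div, Finset.sum_div]
  rw [e0]
  -- the sums
  have s1 : ∑ i : Fin d, kp (u i) = w - 512 * d := by
    rw [hw]
    unfold w0
    ring
  have s2 : ∑ i : Fin d, (7 / 3 * (9 / 8 * (9 / 8 * kp (u i) + 36)) + 4) ≤ 3 * w + w / 4 := by
    have : ∑ i : Fin d, (7 / 3 * (9 / 8 * (9 / 8 * kp (u i) + 36)) + 4) =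
        189 / 64 * ∑ i : Fin d, kp (u i) + d * (197 / 2) := by
      rw [Finset.mul_sum]
      have h1 : ∀ i : Fin d, (7 / 3 * (9 / 8 * (9 / 8 * kp (u i) + 36)) + 4) =
          189 / 64 * kp (u i) + 197 / 2 := fun i => by ring
      rw [Finset.sum_congr rfl fun i _ => h1 i, Finset.sum_add_distrib, Finset.sum_const,
        Finset.card_univ, Fintype.card_fin, nsmul_eq_mul]
    rw [this, s1]
    linarith
  have s3 : (d : ℝ) - 1 / 8 - 1 / 64 - w * hh L ^ 2 / 2 ≤ ∑ i : Fin d, (bb (u i) - bb (u i - 1)) := by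
    have h1 : ∀ i : Fin d, Qc L * 1 - Qc L * (kp (u i) * (hh L ^ 2 / 2)) - hh L / 2 ≤
        bb (u i) - bb (u i - 1) := by
      intro i
      rw [bb_pred]
      have h2 : kp (u i) * (hh L ^ 2 / 2) = 1 - cs (u i) := by
        unfold kp
        have := hh0.ne'
        field_simp
      rw [h2]
      have h3 : -(hh L / 2) ≤ Pc L * hh L * sn (u i) := by
        have h4 : |Pc L * hh L * sn (u i)| ≤ 1 / 2 * hh L * 1 := by
          rw [abs_mul, abs_mul, abs_of_nonneg (Pc_nonneg (L := L)), abs_of_pos hh0]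
          have := sn_abs (u i)
          have := Pc_le (L := L)
          gcongr
        have := (abs_le.1 h4).1
        linarith
      linarith
    refine le_trans ?_ (Finset.sum_le_sum fun i _ => h1 i)
    rw [Finset.sum_sub_distrib, Finset.sum_sub_distrib, ← Finset.mul_sum, ← Finset.mul_sum,
      ← Finset.sum_mul, s1]
    simp only [Finset.sum_const, Finset.card_univ, Fintype.card_fin, nsmul_eq_mul, mul_one]
    have hQ1 := (abs_le.1 (Qc_abs (L := L))).2
    have hQ0 : 1 - hh L ^ 2 / 4 ≤ Qc L := by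
      unfold Qc
      rw [le_div_iff₀ hh0]
      have := Real.sin_gt_sub_cube hh0
      nlinarith [pow_pos hh0 3]
    have hdh : (d : ℝ) * hh L ≤ 1 / 4 := by
      calc (d : ℝ) * hh L ≤ d * (1 / (4 * d)) := by gcongr
        _ = 1 / 4 := by field_simp
    have hdh2 : (d : ℝ) * hh L ^ 2 ≤ 1 / 16 := by
      calc (d : ℝ) * hh L ^ 2 = d * hh L * hh L := by ring
        _ ≤ 1 / 4 * (1 / 16) := by gcongr
        _ ≤ _ := by norm_num
    have hQd : (d : ℝ) - 1 / 64 ≤ Qc L * d := by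
      nlinarith
    have hw5 : 0 ≤ w - 512 * d := by linarith
    have hQw : Qc L * ((w - 512 * d) * (hh L ^ 2 / 2)) ≤ w * hh L ^ 2 / 2 := by
      have h6 : Qc L * ((w - 512 * d) * (hh L ^ 2 / 2)) ≤ 1 * ((w - 512 * d) * (hh L ^ 2 / 2)) := by
        gcongr
      nlinarith [sq_nonneg (hh L)]
    linarith
  have h5 : 1 / (2 * w) - hh L ^ 2 / 2 = (1 / 2 - w * hh L ^ 2 / 2) / w := by
    field_simp
  have h6 : (3 * w + w / 4) / w / w = (13 / 4) / w := by
    field_simp
    norm_num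
  have h7 : (∑ i : Fin d, (7 / 3 * (9 / 8 * (9 / 8 * kp (u i) + 36)) + 4)) / w / w ≤ (13 / 4) / w := by
    rw [← h6]
    gcongr
  rw [h5]
  have h9 : (1 / 2 - w * hh L ^ 2 / 2) / w ≤
      ((∑ i : Fin d, (bb (u i) - bb (u i - 1))) - 13 / 4) / w := by
    apply div_le_div_of_nonneg_right _ hw0.le
    linarith
  rw [sub_div (∑ i : Fin d, (bb (u i) - bb (u i - 1))) (13 / 4) w] at h9
  linarith

/-- the sum of squares of the gradient -/
noncomputable def gr (g : T d L → ℝ) : ℝ := ∑ u, ∑ i : Fin d, (g (u + Pi.single i 1) - g u) ^ 2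

theorem gr_nonneg (g : T d L → ℝ) : 0 ≤ gr g :=
  Finset.sum_nonneg fun u _ => Finset.sum_nonneg fun i _ => sq_nonneg _

theorem poin (g : T d L → ℝ) (hg : ∑ x, g x = 0) :
    ∑ x, g x ^ 2 ≤ (d : ℝ) / 2 * (L : ℝ) ^ 2 * gr g := by
  have h := Pool.Agent.H4R2.AE.Poi.poincare d L g hg
  unfold gr
  rw [Finset.sum_comm]
  exact h

theorem shift_add (f : T d L → ℝ) (a : T d L) : ∑ x, f (x + a) = ∑ x, f x :=
  Fintype.sum_equiv (Equiv.addRight a) _ _ fun _ => rfl

theorem hardy0 (hd : 4 ≤ d) (hL : hh L ≤ 1 / (4 * d)) (g : T d L → ℝ) (hg : ∑ x, g x = 0) :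
    ∑ u, g u ^ 2 / w0 u ≤ 80 * d * gr g := by
  have hd1 : (4 : ℝ) ≤ d := by exact_mod_cast hd
  have hd0 : (0 : ℝ) < d := by linarith
  have hh0 := hh_pos (L := L)
  have hw0 : ∀ u : T d L, 0 < w0 u := fun u => by
    have := w0_ge u
    linarith
  obtain ⟨S, hS⟩ : ∃ S, S = ∑ u, g u ^ 2 / w0 u := ⟨_, rfl⟩
  have hS0 : 0 ≤ S := by
    rw [hS]
    exact Finset.sum_nonneg fun u _ => div_nonneg (sq_nonneg _) (hw0 u).le
  -- lower bound for the divergence term
  have h1 : 1 / 2 * S - hh L ^ 2 / 2 * ∑ u, g u ^ 2 ≤ ∑ u, g u ^ 2 *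
      ∑ i, (bb (u i) / w0 u - bb (u i - 1) / w0 (u - Pi.single i 1)) := by
    have : 1 / 2 * S - hh L ^ 2 / 2 * ∑ u, g u ^ 2 =
        ∑ u, g u ^ 2 * (1 / (2 * w0 u) - hh L ^ 2 / 2) := by
      rw [hS, Finset.mul_sum, Finset.mul_sum, ← Finset.sum_sub_distrib]
      refine Finset.sum_congr rfl fun u _ => ?_
      have := (hw0 u).ne'
      field_simp
    rw [this]
    exact Finset.sum_le_sum fun u _ => mul_le_mul_of_nonneg_left (div_low hd hL u) (sq_nonneg _)
  -- summation by parts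
  have h2 : ∑ u, g u ^ 2 * ∑ i, (bb (u i) / w0 u - bb (u i - 1) / w0 (u - Pi.single i 1)) =
      ∑ u, ∑ i : Fin d, bb (u i) / w0 u * (g u ^ 2 - g (u + Pi.single i 1) ^ 2) := by
    have h3 : ∀ i : Fin d, ∑ u : T d L, g u ^ 2 * (bb (u i - 1) / w0 (u - Pi.single i 1)) =
        ∑ u : T d L, g (u + Pi.single i 1) ^ 2 * (bb (u i) / w0 u) := by
      intro i
      refine Eq.trans (shift_add (fun u : T d L => g u ^ 2 *
        (bb (u i - 1) / w0 (u - Pi.single i 1))) (Pi.single i 1)).symm ?_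
      refine Finset.sum_congr rfl fun u _ => ?_
      rw [add_sub_cancel_right, Pi.add_apply, Pi.single_eq_same, add_sub_cancel_right]
    calc ∑ u, g u ^ 2 * ∑ i, (bb (u i) / w0 u - bb (u i - 1) / w0 (u - Pi.single i 1)) =
        ∑ i : Fin d, (∑ u : T d L, g u ^ 2 * (bb (u i) / w0 u) -
          ∑ u : T d L, g u ^ 2 * (bb (u i - 1) / w0 (u - Pi.single i 1))) := by
          simp only [Finset.mul_sum, mul_sub]
          rw [Finset.sum_comm]
          refine Finset.sum_congr rfl fun i _ => ?_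
          rw [Finset.sum_sub_distrib]
      _ = ∑ i : Fin d, ∑ u : T d L, bb (u i) / w0 u * (g u ^ 2 - g (u + Pi.single i 1) ^ 2) := by
          refine Finset.sum_congr rfl fun i _ => ?_
          rw [h3 i, ← Finset.sum_sub_distrib]
          exact Finset.sum_congr rfl fun u _ => by ring
      _ = _ := Finset.sum_comm
  -- upper bound
  have h4 : ∀ (u : T d L) (i : Fin d), bb (u i) / w0 u * (g u ^ 2 - g (u + Pi.single i 1) ^ 2) ≤
      10 * d * (g (u + Pi.single i 1) - g u) ^ 2 + 1 / (20 * d) *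
        (g u ^ 2 / w0 u + 4 * (g (u + Pi.single i 1) ^ 2 / w0 (u + Pi.single i 1))) := by
    intro u i
    obtain ⟨w, hw⟩ : ∃ w, w = w0 u := ⟨_, rfl⟩
    obtain ⟨w', hw'⟩ : ∃ w', w' = w0 (u + Pi.single i 1) := ⟨_, rfl⟩
    obtain ⟨b, hb⟩ : ∃ b, b = bb (u i) := ⟨_, rfl⟩
    obtain ⟨x, hx⟩ : ∃ x, x = g u := ⟨_, rfl⟩
    obtain ⟨y, hy⟩ : ∃ y, y = g (u + Pi.single i 1) := ⟨_, rfl⟩
    rw [← hw, ← hw', ← hb, ← hx, ← hy]
    have hwp : 0 < w := by rw [hw]; exact hw0 u
    have hwp' : 0 < w' := by rw [hw']; exact hw0 _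
    have hw1 : 1 ≤ w := by
      rw [hw]
      have := w0_ge u
      linarith
    have hb1 : b ^ 2 ≤ w := by
      rw [hb, hw]
      refine (bb_sq (u i)).trans ?_
      have h1 : kp (u i) ≤ ∑ i, kp (u i) :=
        Finset.single_le_sum (f := fun i => kp (u i)) (fun i _ => kp_nonneg _) (Finset.mem_univ i)
      unfold w0
      linarith
    have hww : w' ≤ 4 * w := by
      have h := w0_succ_sq (by omega) u i
      rw [← hw, ← hw'] at h
      by_contra hcon
      push Not at hcon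
      nlinarith
    -- the product
    have e1 : b / w * (x ^ 2 - y ^ 2) ≤ 10 * d * (y - x) ^ 2 + 1 / (40 * d) * (b / w * (x + y)) ^ 2 := by
      have e2 : 10 * d * (y - x) ^ 2 + 1 / (40 * d) * (b / w * (x + y)) ^ 2 -
          b / w * (x ^ 2 - y ^ 2) = 10 * d * ((y - x) + 1 / (20 * d) * (b / w * (x + y))) ^ 2 := by
        field_simp
        ring
      have e3 : 0 ≤ 10 * d * ((y - x) + 1 / (20 * d) * (b / w * (x + y))) ^ 2 := by positivity
      linarith
    refine e1.trans ?_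
    have e4 : (b / w * (x + y)) ^ 2 ≤ 2 * (x ^ 2 / w + 4 * (y ^ 2 / w')) := by
      have e5 : (b / w * (x + y)) ^ 2 = b ^ 2 * (x + y) ^ 2 / w / w := by
        field_simp
      rw [e5]
      have e6 : b ^ 2 * (x + y) ^ 2 / w / w ≤ (x + y) ^ 2 / w := by
        rw [div_div, div_le_div_iff₀ (by positivity) hwp]
        calc b ^ 2 * (x + y) ^ 2 * w ≤ w * (x + y) ^ 2 * w := by gcongr
          _ = _ := by ring
      refine e6.trans ?_
      have e7 : y ^ 2 / w ≤ 4 * (y ^ 2 / w') := by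
        rw [← mul_div_assoc, div_le_div_iff₀ hwp hwp']
        nlinarith [sq_nonneg y]
      have e8 : (x + y) ^ 2 / w ≤ 2 * (x ^ 2 / w) + 2 * (y ^ 2 / w) := by
        rw [← mul_div_assoc, ← mul_div_assoc, ← add_div]
        apply div_le_div_of_nonneg_right _ hwp.le
        nlinarith [sq_nonneg (x - y)]
      linarith
    have e9 : 1 / (40 * d) * (b / w * (x + y)) ^ 2 ≤
        1 / (40 * d) * (2 * (x ^ 2 / w + 4 * (y ^ 2 / w'))) := by gcongr
    have e10 : 1 / (40 * (d : ℝ)) * (2 * (x ^ 2 / w + 4 * (y ^ 2 / w'))) =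
        1 / (20 * d) * (x ^ 2 / w + 4 * (y ^ 2 / w')) := by
      field_simp
      ring
    linarith
  have h5 : ∑ u, ∑ i : Fin d, bb (u i) / w0 u * (g u ^ 2 - g (u + Pi.single i 1) ^ 2) ≤
      10 * d * gr g + 1 / 4 * S := by
    refine (Finset.sum_le_sum fun u _ => Finset.sum_le_sum fun i _ => h4 u i).trans ?_
    have e1 : ∑ u, ∑ i : Fin d, (10 * d * (g (u + Pi.single i 1) - g u) ^ 2 + 1 / (20 * d) *
        (g u ^ 2 / w0 u + 4 * (g (u + Pi.single i 1) ^ 2 / w0 (u + Pi.single i 1)))) =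
        10 * d * gr g + 1 / (20 * d) * (∑ _i : Fin d, ∑ u : T d L, g u ^ 2 / w0 u +
          4 * ∑ i : Fin d, ∑ u : T d L, g (u + Pi.single i 1) ^ 2 / w0 (u + Pi.single i 1)) := by
      have c1 : ∑ _i : Fin d, ∑ u : T d L, g u ^ 2 / w0 u =
          ∑ u : T d L, ∑ _i : Fin d, g u ^ 2 / w0 u := Finset.sum_comm
      have c2 : ∑ i : Fin d, ∑ u : T d L, g (u + Pi.single i 1) ^ 2 / w0 (u + Pi.single i 1) =
          ∑ u : T d L, ∑ i : Fin d, g (u + Pi.single i 1) ^ 2 / w0 (u + Pi.single i 1) :=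
        Finset.sum_comm
      rw [c1, c2]
      unfold gr
      simp only [Finset.mul_sum, ← Finset.sum_add_distrib]
    rw [e1]
    have e2 : ∀ i : Fin d, ∑ u : T d L, g (u + Pi.single i 1) ^ 2 / w0 (u + Pi.single i 1) = S := by
      intro i
      rw [hS]
      exact shift_add (fun u : T d L => g u ^ 2 / w0 u) (Pi.single i 1)
    simp only [e2, ← hS, Finset.sum_const, Finset.card_univ, Fintype.card_fin, nsmul_eq_mul]
    have e3 : 1 / (20 * (d : ℝ)) * (d * S + 4 * (d * S)) = 1 / 4 * S := by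
      field_simp
      ring
    rw [e3]
  have h6 := poin g hg
  have h7 : hh L ^ 2 * ∑ u, g u ^ 2 ≤ 20 * d * gr g := by
    have hL0 := L_pos' (L := L)
    calc hh L ^ 2 * ∑ u, g u ^ 2 ≤ hh L ^ 2 * ((d : ℝ) / 2 * (L : ℝ) ^ 2 * gr g) := by gcongr
      _ = (2 * Real.pi) ^ 2 / 2 * (d * gr g) := by
          unfold hh
          field_simp
      _ ≤ 20 * (d * gr g) := by
          have h8 : (2 * Real.pi) ^ 2 / 2 ≤ 20 := by
            have := Real.pi_lt_d2
            have := Real.pi_pos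
            nlinarith
          have h9 : 0 ≤ d * gr g := mul_nonneg hd0.le (gr_nonneg g)
          gcongr
      _ = _ := by ring
  rw [← hS]
  have h8 : 0 ≤ d * gr g := mul_nonneg hd0.le (gr_nonneg g)
  nlinarith

end Pool.Agent.Y661.EX
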