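import Pool.Agent.Y661.EX.Wt

/-! The kernel of the pseudo-inverse: square norms, and the weighted package. -/

set_option autoImplicit false
set_option linter.unusedSectionVars false

open scoped BigOperators

namespace Pool.Agent.Y661.EX

open Pool.Agent.H4R2.AE (T LapW GB)

variable {d L : ℕ} [NeZero L]

theorem lapW_eq (g : T d L → ℝ) (x : T d L) : LapW (fun _ => 1) g x = Al g x := by
  unfold LapW Al dv gd
  refine Finset.sum_congr rfl fun i _ => ?_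
  rw [sub_add_cancel]
  ring

theorem Gr_norm (h : T d L → ℝ) :
    ∑ x, Gr h x ^ 2 ≤ ((d : ℝ) / 2 * (L : ℝ) ^ 2) ^ 2 * ∑ x, h x ^ 2 := by
  obtain ⟨v, hv⟩ : ∃ v, v = Gr h := ⟨_, rfl⟩
  obtain ⟨a, ha⟩ : ∃ a : ℝ, a = (d : ℝ) / 2 * (L : ℝ) ^ 2 := ⟨_, rfl⟩
  have ha0 : 0 ≤ a := by rw [ha]; positivity
  have h1 := poin v (by rw [hv]; exact sum_Gr h)
  rw [← ha] at h1
  rw [← hv, ← ha]
  have h2 : gr v = ∑ x, v x * h x := by
    rw [gr_eq, ← al_parts]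
    have : ∀ x, v x * Al v x = v x * h x - av h * v x := fun x => by
      rw [hv, al_Gr]; ring
    rw [Finset.sum_congr rfl fun x _ => this x, Finset.sum_sub_distrib, ← Finset.mul_sum, hv,
      sum_Gr, mul_zero, sub_zero]
  obtain ⟨S, hS⟩ : ∃ S, S = ∑ x, v x ^ 2 := ⟨_, rfl⟩
  obtain ⟨H, hH⟩ : ∃ H, H = ∑ x, h x ^ 2 := ⟨_, rfl⟩
  have hS0 : 0 ≤ S := by rw [hS]; exact Finset.sum_nonneg fun x _ => sq_nonneg _
  have hH0 : 0 ≤ H := by rw [hH]; exact Finset.sum_nonneg fun x _ => sq_nonneg _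
  have h3 : (∑ x, v x * h x) ^ 2 ≤ S * H := by
    rw [hS, hH]
    exact Finset.sum_mul_sq_le_sq_mul_sq _ _ _
  rw [← hS, h2] at h1
  rw [← hS, ← hH]
  have h4 : S ^ 2 ≤ a ^ 2 * (S * H) := by
    calc S ^ 2 ≤ (a * ∑ x, v x * h x) ^ 2 := pow_le_pow_left₀ hS0 h1 2
      _ = a ^ 2 * (∑ x, v x * h x) ^ 2 := by ring
      _ ≤ _ := by gcongr
  rcases eq_or_lt_of_le hS0 with h5 | h5
  · rw [← h5]
    positivity
  · have h6 : S * S ≤ (a ^ 2 * H) * S := by nlinarith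
    exact le_of_mul_le_mul_right h6 h5

theorem Gz_norm (Γ : ℝ) (hGB : GB d L Γ) (z : T d L) :
    ∑ x, Gz z x ^ 2 ≤ (2 + (d : ℝ) ^ 2 / 2) * Γ ^ 2 := by
  have hL0 := L_pos' (L := L)
  obtain ⟨k, hk⟩ : ∃ k : ℝ, k = 1 / (L : ℝ) ^ 2 := ⟨_, rfl⟩
  have hk0 : 0 < k := by rw [hk]; positivity
  obtain ⟨h, hh⟩ := Pool.Agent.H4R2.AE.Lin.solve (d := d) (L := L) (fun _ => 1) (fun _ => k)
    (fun x => if x = z then 1 else 0) (fun _ => one_pos) (fun _ => hk0)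
  have hnn := Pool.Agent.H4R2.AE.Lin.nonneg (fun _ => 1) (fun _ => k) h (fun _ => one_pos)
    (fun _ => hk0) (fun x => by rw [hh x]; split_ifs <;> norm_num)
  have hΓ := hGB (fun _ => 1) (fun _ => k) h z (fun _ => by norm_num) (fun _ => by
    rw [hk]
    apply one_div_le_one_div_of_le (by positivity)
    nlinarith [sq_nonneg (L : ℝ)]) hnn hh
  simp only [lapW_eq] at hh
  have hN := NS_pos (d := d) (L := L)
  have hsum : k * ∑ x, h x = 1 := by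
    have h1 : ∑ x, (Al h x + k * h x) = ∑ x, (if x = z then (1 : ℝ) else 0) :=
      Finset.sum_congr rfl fun x _ => hh x
    rw [Finset.sum_add_distrib, show ∑ x, Al h x = 0 from sum_dv _, zero_add,
      ← Finset.mul_sum] at h1
    simpa using h1
  have hav : k * av h = 1 / NS d L := by
    unfold av
    rw [← mul_div_assoc, hsum]
  have heq : (fun x => (h x + (fun _ => -av h) x) + k * Gr h x) = Gz z := by
    apply Gr_unique
    · rw [Finset.sum_add_distrib, ← Finset.mul_sum, sum_Gr, mul_zero, add_zero]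
      exact sum_sub_av h
    · intro x
      rw [al_add (fun x => h x + (fun _ => -av h) x) (fun x => k * Gr h x), al_add, al_const,
        al_smul, al_Gr]
      have e1 : av (fun x : T d L => if x = z then (1 : ℝ) else 0) = 1 / NS d L := by
        unfold av
        simp
      rw [e1, ← hav, ← hh x]
      ring
  rw [← heq]
  beta_reduce
  have h1 : ∀ x, ((h x + -av h) + k * Gr h x) ^ 2 ≤ 2 * (h x - av h) ^ 2 + 2 * (k * Gr h x) ^ 2 :=
    fun x => by nlinarith [sq_nonneg ((h x - av h) - k * Gr h x)]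
  refine (Finset.sum_le_sum fun x _ => h1 x).trans ?_
  rw [Finset.sum_add_distrib, ← Finset.mul_sum, ← Finset.mul_sum]
  have h2 : ∑ x, (h x - av h) ^ 2 ≤ ∑ x, h x ^ 2 := by
    have : ∑ x, (h x - av h) ^ 2 = ∑ x, h x ^ 2 - NS d L * av h ^ 2 := by
      have e1 : ∀ x, (h x - av h) ^ 2 = h x ^ 2 - 2 * av h * h x + av h ^ 2 := fun x => by ring
      have e2 : ∑ x, h x = NS d L * av h := by
        unfold av
        rw [mul_div_cancel₀ _ hN.ne']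
      rw [Finset.sum_congr rfl fun x _ => e1 x, Finset.sum_add_distrib, Finset.sum_sub_distrib,
        ← Finset.mul_sum, e2, sum_const']
      ring
    rw [this]
    have : 0 ≤ NS d L * av h ^ 2 := by positivity
    linarith
  have h3 : ∑ x, (k * Gr h x) ^ 2 ≤ (d : ℝ) ^ 2 / 4 * ∑ x, h x ^ 2 := by
    have e1 : ∑ x, (k * Gr h x) ^ 2 = k ^ 2 * ∑ x, Gr h x ^ 2 := by
      rw [Finset.mul_sum]
      exact Finset.sum_congr rfl fun x _ => by ring
    rw [e1]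
    calc k ^ 2 * ∑ x, Gr h x ^ 2 ≤ k ^ 2 * (((d : ℝ) / 2 * (L : ℝ) ^ 2) ^ 2 * ∑ x, h x ^ 2) := by
          gcongr
          exact Gr_norm h
      _ = (d : ℝ) ^ 2 / 4 * ∑ x, h x ^ 2 := by
          rw [hk]
          field_simp
          ring
  have h4 : (d : ℝ) ^ 2 / 4 * ∑ x, h x ^ 2 ≤ (d : ℝ) ^ 2 / 4 * Γ ^ 2 := by gcongr
  linarith

/-- the square norm of the kernel is bounded by any power of the side -/
theorem Gz_pow (d : ℕ) (hd : 4 ≤ d) (ε : ℝ) (hε : 0 < ε) : ∃ C : ℝ, 1 ≤ C ∧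
    ∀ (L : ℕ) [NeZero L] (z : T d L), ∑ x, Gz z x ^ 2 ≤ C * (L : ℝ) ^ ε := by
  have hL1 : ∀ (L : ℕ) [NeZero L], (1 : ℝ) ≤ L := fun L _ => by
    exact_mod_cast Nat.one_le_iff_ne_zero.2 (NeZero.ne L)
  rcases eq_or_lt_of_le hd with h4 | h4
  · subst h4
    obtain ⟨C, hC, h⟩ := Pool.Agent.H4R2.AE.Green.green_four
    refine ⟨(2 + ((4 : ℕ) : ℝ) ^ 2 / 2) * (C * (1 + 2 / ε)) ^ 2 + 1, ?_, ?_⟩
    · have : 0 ≤ (2 + ((4 : ℕ) : ℝ) ^ 2 / 2) * (C * (1 + 2 / ε)) ^ 2 := by positivity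
      linarith
    · intro L _ z
      have h1 := Gz_norm _ (h L) z
      refine h1.trans ?_
      have hLL := hL1 L
      have h2 : 1 + Real.log L ≤ (1 + 2 / ε) * (L : ℝ) ^ (ε / 2) := by
        have h3 := Real.log_le_rpow_div (x := (L : ℝ)) (by linarith) (half_pos hε)
        have h4 : 1 ≤ (L : ℝ) ^ (ε / 2) := Real.one_le_rpow hLL (by positivity)
        have h5 : (L : ℝ) ^ (ε / 2) / (ε / 2) = 2 / ε * (L : ℝ) ^ (ε / 2) := by
          field_simp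
        rw [h5] at h3
        linarith
      have h3 : 0 ≤ 1 + Real.log L := by
        have := Real.log_nonneg hLL
        linarith
      have h5 : ((L : ℝ) ^ (ε / 2)) ^ 2 = (L : ℝ) ^ ε := by
        rw [← Real.rpow_natCast, ← Real.rpow_mul (by linarith)]
        congr 1
        push_cast
        ring
      have h6 : (C * (1 + Real.log L)) ^ 2 ≤ (C * (1 + 2 / ε)) ^ 2 * (L : ℝ) ^ ε := by
        calc (C * (1 + Real.log L)) ^ 2 ≤ (C * ((1 + 2 / ε) * (L : ℝ) ^ (ε / 2))) ^ 2 := by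
              gcongr
          _ = (C * (1 + 2 / ε)) ^ 2 * ((L : ℝ) ^ (ε / 2)) ^ 2 := by ring
          _ = _ := by rw [h5]
      have h7 : 0 ≤ (L : ℝ) ^ ε := Real.rpow_nonneg (by linarith) _
      calc (2 + ((4 : ℕ) : ℝ) ^ 2 / 2) * (C * (1 + Real.log L)) ^ 2 ≤
            (2 + ((4 : ℕ) : ℝ) ^ 2 / 2) * ((C * (1 + 2 / ε)) ^ 2 * (L : ℝ) ^ ε) := by gcongr
        _ ≤ _ := by linarith
  · obtain ⟨Γ, hΓ, h⟩ := Pool.Agent.H4R2.AE.Green.green d h4
    refine ⟨(2 + (d : ℝ) ^ 2 / 2) * Γ ^ 2 + 1, ?_, ?_⟩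
    · have : 0 ≤ (2 + (d : ℝ) ^ 2 / 2) * Γ ^ 2 := by positivity
      linarith
    · intro L _ z
      have h1 := Gz_norm _ (h L) z
      have h2 : 1 ≤ (L : ℝ) ^ ε := Real.one_le_rpow (hL1 L) hε.le
      have h3 : 0 ≤ (2 + (d : ℝ) ^ 2 / 2) * Γ ^ 2 := by positivity
      nlinarith

/-- the weighted package -/
def Kern (d L : ℕ) [NeZero L] (K Γ : ℝ) : Prop :=
  ∀ z : T d L, ∃ w : T d L → ℝ, (∀ u, 1 ≤ w u) ∧ wn w (gd (Gz z)) ≤ Γ ∧
    ∑ x, Gz z x ^ 2 ≤ Γ ∧ ∀ (F : T d L → Fin d → ℝ) (g : T d L → ℝ), ∑ x, g x = 0 →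
      (∀ x, Al g x = dv F x) → ∑ x, g x ^ 2 ≤ K * wn w F ∧ wn w (gd g) ≤ K * wn w F

theorem kern (d : ℕ) (hd : 4 ≤ d) : ∃ K : ℝ, 1 ≤ K ∧ ∀ ε : ℝ, 0 < ε → ∃ C : ℝ, 1 ≤ C ∧
    ∀ (L : ℕ) [NeZero L], 26 * d ≤ L → Kern d L K (C * (L : ℝ) ^ ε) := by
  have hd1 : (4 : ℝ) ≤ d := by exact_mod_cast hd
  refine ⟨3 + 32 * d * (600 * d), by nlinarith, fun ε hε => ?_⟩
  obtain ⟨C, hC, h⟩ := Gz_pow d hd ε hε
  refine ⟨(4 * (600 * d) + 8 * d) * (1 + C) + C, by nlinarith, ?_⟩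
  intro L _ hL z
  have hL1 : (26 : ℝ) * d ≤ L := by exact_mod_cast hL
  have hL0 : (0 : ℝ) < L := by linarith
  have hhL : hh L ≤ 1 / (4 * d) := by
    unfold hh
    rw [div_le_div_iff₀ hL0 (by positivity)]
    have := Real.pi_lt_d2
    nlinarith
  have hA := adm hd hhL z
  have h1 := h L z
  have hLe : 1 ≤ (L : ℝ) ^ ε := Real.one_le_rpow (by linarith) hε.le
  have hk : (0 : ℝ) ≤ (4 * (600 * d) + 8 * d) := by positivity
  have hCL : 0 ≤ C * (L : ℝ) ^ ε := by positivity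
  refine ⟨_, hA.1, ?_, ?_, ?_⟩
  · refine (base _ z _ hA hd).trans ?_
    calc (4 * (600 * (d : ℝ)) + 8 * d) * (1 + ∑ x, Gz z x ^ 2) ≤
          (4 * (600 * d) + 8 * d) * (1 * (L : ℝ) ^ ε + C * (L : ℝ) ^ ε) := by
          apply mul_le_mul_of_nonneg_left _ hk
          linarith
      _ = (4 * (600 * d) + 8 * d) * (1 + C) * (L : ℝ) ^ ε := by ring
      _ ≤ _ := by nlinarith
  · refine h1.trans ?_
    have : 0 ≤ (4 * (600 * (d : ℝ)) + 8 * d) * (1 + C) * (L : ℝ) ^ ε := by positivity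
    nlinarith
  · intro F g hg hF
    have hwn := wn_nonneg (fun u => w0 (u - z)) (fun u => by
      have := hA.1 u
      linarith) F
    refine ⟨(dual_hardy _ z _ hA F g hg hF).trans ?_, weighted _ z _ hA F g hg hF⟩
    apply mul_le_mul_of_nonneg_right _ hwn
    nlinarith

end Pool.Agent.Y661.EX
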