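import Pool.Agent.Y661.EX.Event

/-! The infinite volume limit of the coefficients and the asymptotic expansion. -/

set_option autoImplicit false
set_option linter.unusedSectionVars false

open scoped BigOperators
open MeasureTheory

namespace Pool.Agent.Y661.EX

open Pool.Agent.H4R2.AE (T Hop)
open Pool.Agent.H4R2.AE.Conc (PP QQ)

/-- with probability at least `3/4` there is a positive eigenfunction with energy close to `Es` -/
def FlatAt (d : ℕ) (μ : Measure ℝ) (K σ Es : ℝ) (L : ℕ) [NeZero L] : Prop :=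
  ∃ G : Set (T d L → ℝ), 3 / 4 ≤ (PP (T d L) μ).real G ∧ ∀ V ∈ G, ∃ (E0 : ℝ) (ψ : T d L → ℝ),
    |E0 - Es| ≤ K / (L : ℝ) ^ 2 ∧ (∀ x, 0 < ψ x) ∧ ∀ x, Hop σ V ψ x = E0 * ψ x

section vdm

theorem vdm (n : ℕ) : ∃ C : ℝ, 0 ≤ C ∧ ∀ (b : ℕ → ℝ) (B : ℝ),
    (∀ j ≤ n, |∑ i ∈ Finset.range (n + 1), b i * ((j : ℝ) + 1) ^ i| ≤ B) →
      ∀ i ≤ n, |b i| ≤ C * B := by
  obtain ⟨v, hv⟩ : ∃ v : Fin (n + 1) → ℝ, v = fun j : Fin (n + 1) => ((j : ℕ) : ℝ) + 1 := ⟨_, rfl⟩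
  obtain ⟨A, hA⟩ : ∃ A : Matrix (Fin (n + 1)) (Fin (n + 1)) ℝ, A = Matrix.vandermonde v :=
    ⟨_, rfl⟩
  have hinj : Function.Injective v := by
    intro i j hij
    rw [hv] at hij
    have h1 : ((i : ℕ) : ℝ) + 1 = (j : ℕ) + 1 := hij
    have h2 : ((i : ℕ) : ℝ) = (j : ℕ) := by linarith
    exact Fin.ext (by exact_mod_cast h2)
  have hdet : A.det ≠ 0 := by
    rw [hA]
    exact Matrix.det_vandermonde_ne_zero_iff.2 hinj
  have hu : IsUnit A.det := isUnit_iff_ne_zero.2 hdet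
  refine ⟨∑ i, ∑ j, |A⁻¹ i j|, Finset.sum_nonneg fun i _ => Finset.sum_nonneg fun j _ =>
    abs_nonneg _, ?_⟩
  intro b B hB i hi
  obtain ⟨c, hc⟩ : ∃ c : Fin (n + 1) → ℝ, c = fun i : Fin (n + 1) => b (i : ℕ) := ⟨_, rfl⟩
  have h1 : ∀ j, |A.mulVec c j| ≤ B := by
    intro j
    have h2 := hB j (by omega)
    have h3 : A.mulVec c j = ∑ i ∈ Finset.range (n + 1), b i * (((j : ℕ) : ℝ) + 1) ^ i := by
      rw [← Fin.sum_univ_eq_sum_range (fun i => b i * (((j : ℕ) : ℝ) + 1) ^ i) (n + 1)]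
      show ∑ k, A j k * c k = _
      refine Finset.sum_congr rfl fun k _ => ?_
      rw [hA, hc, Matrix.vandermonde_apply, hv]
      ring
    rw [h3]
    exact h2
  have hB0 : 0 ≤ B := (abs_nonneg _).trans (h1 0)
  have h4 : A⁻¹.mulVec (A.mulVec c) = c := by
    rw [Matrix.mulVec_mulVec, Matrix.nonsing_inv_mul A hu, Matrix.one_mulVec]
  obtain ⟨i', hi'⟩ : ∃ i' : Fin (n + 1), i' = ⟨i, by omega⟩ := ⟨_, rfl⟩
  have h5 : b i = ∑ j, A⁻¹ i' j * A.mulVec c j := by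
    have h6 := congrFun h4 i'
    have h7 : c i' = b i := by rw [hc, hi']
    rw [← h7]
    exact h6.symm
  rw [h5]
  refine (Finset.abs_sum_le_sum_abs _ _).trans ?_
  have h7 : ∑ j, |A⁻¹ i' j * A.mulVec c j| ≤ (∑ j, |A⁻¹ i' j|) * B := by
    rw [Finset.sum_mul]
    refine Finset.sum_le_sum fun j _ => ?_
    rw [abs_mul]
    exact mul_le_mul_of_nonneg_left (h1 j) (abs_nonneg _)
  refine h7.trans (mul_le_mul_of_nonneg_right ?_ hB0)
  exact Finset.single_le_sum (f := fun i => ∑ j, |A⁻¹ i j|)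
    (fun _ _ => Finset.sum_nonneg fun _ _ => abs_nonneg _) (Finset.mem_univ i')

/-- coefficients of a small polynomial without constant term are small -/
theorem vdm' (n : ℕ) : ∃ C : ℝ, 0 ≤ C ∧ ∀ (δ : ℕ → ℝ) (h B : ℝ),
    (∀ j ≤ n, |∑ k ∈ Finset.range n, (((j : ℝ) + 1) * h) ^ (k + 1) * δ k| ≤ B) →
      ∀ k < n, |h ^ (k + 1) * δ k| ≤ C * B := by
  obtain ⟨C, hC, hv⟩ := vdm n
  refine ⟨C, hC, ?_⟩
  intro δ h B hB k hk
  have h1 := hv (fun i => if i = 0 then 0 else h ^ i * δ (i - 1)) B (fun j hj => by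
    have h2 := hB j hj
    rw [Finset.sum_range_succ']
    simp only [if_true, zero_mul, add_zero, Nat.add_eq_zero_iff, one_ne_zero, and_false, if_false,
      Nat.add_sub_cancel]
    refine le_trans (le_of_eq ?_) h2
    congr 1
    refine Finset.sum_congr rfl fun k _ => ?_
    rw [mul_pow]
    ring) (k + 1) (by omega)
  simpa using h1

end vdm

variable (μ : Measure ℝ) [IsProbabilityMeasure μ] (hμ : ∀ n : ℕ, Integrable (fun t : ℝ => |t| ^ n) μ)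

include hμ

/-- the effective edge is close to the polynomial with the finite volume coefficients -/
theorem step (d : ℕ) (hd : 4 ≤ d) (N : ℕ) (K : ℝ) (hK : 0 ≤ K) : ∃ C σ0 : ℝ, 0 ≤ C ∧ 0 < σ0 ∧
    σ0 ≤ 1 ∧ ∀ σ : ℝ, 0 < σ → σ ≤ σ0 → ∀ (Es : ℝ) (L : ℕ) [NeZero L],
      (1 / σ) ^ (N + 1) ≤ (L : ℝ) → (L : ℝ) ≤ (1 / σ) ^ (2 * (N + 1)) → FlatAt d μ K σ Es L →
      |Es - ∑ k ∈ Finset.range N, σ ^ (k + 1) * aL μ d L (k + 1)| ≤ C * (σ ^ N * √σ) := by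
  obtain ⟨ε, hε⟩ : ∃ ε : ℝ, ε = 1 / (12 * (N + 1)) := ⟨_, rfl⟩
  have hε0 : 0 < ε := by rw [hε]; positivity
  obtain ⟨C, hC, hgood⟩ := good μ hμ d hd N ε hε0
  have hN0 : (0 : ℝ) ≤ N := Nat.cast_nonneg N
  have hC0 : 0 < C := by linarith
  obtain ⟨σ0, hσ0⟩ : ∃ σ0 : ℝ, σ0 = min (1 / (26 * (d : ℝ) + 1)) ((1 / (2 * ((N : ℝ) * C) + 1)) ^ 2) :=
    ⟨_, rfl⟩
  have hd0 : (0 : ℝ) < 26 * d + 1 := by positivity
  have hNC : (0 : ℝ) < 2 * (N * C) + 1 := by positivity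
  have hσ00 : 0 < σ0 := by rw [hσ0]; positivity
  have hσ01 : σ0 ≤ 1 / (26 * d + 1) := by rw [hσ0]; exact min_le_left _ _
  have hσ02 : σ0 ≤ (1 / (2 * (N * C) + 1)) ^ 2 := by rw [hσ0]; exact min_le_right _ _
  have hσ1' : σ0 ≤ 1 := by
    refine hσ01.trans ?_
    rw [div_le_one hd0]
    have : (0 : ℝ) ≤ d := Nat.cast_nonneg d
    linarith
  refine ⟨2 * ((1 + (N : ℝ) * (N + 1)) * C ^ 3) + N * C + K, σ0, by positivity, hσ00, hσ1', ?_⟩
  intro σ hσ hσσ Es L _ hL1 hL2 hflat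
  have hσ1 : σ ≤ 1 := hσσ.trans hσ1'
  have h1σ : 1 ≤ 1 / σ := by rw [le_div_iff₀ hσ]; linarith
  have hLge : (1 : ℝ) ≤ L := one_le_L L
  have hL0 : (0 : ℝ) < L := by linarith
  have hLσ : 1 / σ ≤ L := by
    calc 1 / σ = (1 / σ) ^ 1 := (pow_one _).symm
      _ ≤ (1 / σ) ^ (N + 1) := pow_le_pow_right₀ h1σ (by omega)
      _ ≤ L := hL1
  have h26 : 26 * d ≤ L := by
    have h1 : (26 * d + 1 : ℝ) ≤ 1 / σ := by
      rw [le_div_iff₀ hσ]
      have := hσσ.trans hσ01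
      rw [le_div_iff₀ hd0] at this
      linarith
    have h2 : (26 * d : ℝ) ≤ L := by linarith
    exact_mod_cast h2
  obtain ⟨G, hG, hflat⟩ := hflat
  obtain ⟨V, hV, hphi, hVx, hep⟩ := hgood L h26 G hG
  obtain ⟨E0, ψ, hE0, hψ, hE⟩ := hflat V hV
  obtain ⟨l, hl⟩ : ∃ l : ℝ, l = (L : ℝ) ^ ε := ⟨_, rfl⟩
  rw [← hl] at hphi hVx
  have hl1 : 1 ≤ l := by rw [hl]; exact Real.one_le_rpow hLge hε0.le
  have hs0 : 0 < √σ := Real.sqrt_pos.2 hσ
  have hss : √σ * √σ = σ := Real.mul_self_sqrt hσ.le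
  have hs1 : √σ ≤ 1 := Real.sqrt_le_one.2 hσ1
  have hl6 : l ^ 6 * σ ≤ 1 := by
    have e1 : l ^ 6 = (L : ℝ) ^ (ε * 6) := by
      rw [hl, ← Real.rpow_natCast, ← Real.rpow_mul hL0.le]
      norm_num
    have e2 : (L : ℝ) ^ (ε * 6) ≤ ((1 / σ) ^ (2 * (N + 1))) ^ (ε * 6) :=
      Real.rpow_le_rpow hL0.le hL2 (by positivity)
    have e3 : ((1 / σ) ^ (2 * (N + 1))) ^ (ε * 6) = 1 / σ := by
      rw [← Real.rpow_natCast, ← Real.rpow_mul (by positivity)]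
      have e4 : ((2 * (N + 1) : ℕ) : ℝ) * (ε * 6) = 1 := by
        rw [hε]
        push_cast
        field_simp
        norm_num
      rw [e4, Real.rpow_one]
    rw [e1]
    calc (L : ℝ) ^ (ε * 6) * σ ≤ 1 / σ * σ := by
          rw [← e3]
          gcongr
      _ = 1 := by field_simp
  have hl3 : l ^ 3 * √σ ≤ 1 := by
    have e1 : (l ^ 3 * √σ) ^ 2 ≤ 1 ^ 2 := by
      calc (l ^ 3 * √σ) ^ 2 = l ^ 6 * (√σ * √σ) := by ring
        _ ≤ 1 ^ 2 := by rw [hss]; linarith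
    exact le_of_pow_le_pow_left₀ two_ne_zero zero_le_one e1
  have hll : l ≤ l ^ 3 := le_self_pow₀ hl1 (by norm_num)
  have hS1 : 1 ≤ C * l := one_le_mul_of_one_le_of_one_le hC hl1
  have hsmall : σ * (N * (C * l)) ≤ 1 / 2 := by
    have e1 : √σ ≤ 1 / (2 * (N * C) + 1) := by
      rw [Real.sqrt_le_left (by positivity)]
      exact hσσ.trans hσ02
    rw [le_div_iff₀ hNC] at e1
    calc σ * (N * (C * l)) = (√σ * √σ) * (N * (C * l)) := by rw [hss]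
      _ = N * C * √σ * (l * √σ) := by ring
      _ ≤ N * C * √σ * (l ^ 3 * √σ) := by gcongr
      _ ≤ N * C * √σ * 1 := by gcongr
      _ ≤ 1 / 2 := by nlinarith
  have hclose := energy_close V σ N (C * l) hS1 hσ hσ1 hVx hphi hsmall E0 ψ hψ hE
  have hσN : 0 ≤ σ ^ N := by positivity
  have hinvL : 1 / (L : ℝ) ≤ σ ^ N * √σ := by
    have e1 : 1 / (L : ℝ) ≤ σ ^ (N + 1) := by
      rw [div_le_iff₀ hL0]
      calc (1 : ℝ) = σ ^ (N + 1) * (1 / σ) ^ (N + 1) := by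
            rw [← mul_pow]
            field_simp
            simp
        _ ≤ σ ^ (N + 1) * L := by gcongr
    refine e1.trans ?_
    rw [pow_succ]
    apply mul_le_mul_of_nonneg_left _ hσN
    nlinarith
  have b1 : |E0 - tep V σ N| ≤ 2 * ((1 + (N : ℝ) * (N + 1)) * C ^ 3) * (σ ^ N * √σ) := by
    refine hclose.trans ?_
    calc 2 * ((1 + (N : ℝ) * (N + 1)) * (σ ^ (N + 1) * (C * l) ^ 3)) =
          2 * ((1 + (N : ℝ) * (N + 1)) * C ^ 3) * (σ ^ N * (σ * l ^ 3)) := by ring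
      _ = 2 * ((1 + (N : ℝ) * (N + 1)) * C ^ 3) * (σ ^ N * (√σ * (l ^ 3 * √σ))) := by
          have : σ * l ^ 3 = √σ * (l ^ 3 * √σ) := by
            calc σ * l ^ 3 = (√σ * √σ) * l ^ 3 := by rw [hss]
              _ = _ := by ring
          rw [this]
      _ ≤ 2 * ((1 + (N : ℝ) * (N + 1)) * C ^ 3) * (σ ^ N * (√σ * 1)) := by gcongr
      _ = _ := by ring
  have b2 : |tep V σ N - ∑ k ∈ Finset.range N, σ ^ (k + 1) * aL μ d L (k + 1)| ≤
      N * C * (σ ^ N * √σ) := by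
    unfold tep
    rw [← Finset.sum_sub_distrib]
    refine (Finset.abs_sum_le_sum_abs _ _).trans ?_
    refine (Finset.sum_le_sum (g := fun _ => C * (σ ^ N * √σ)) fun k hk => ?_).trans ?_
    · rw [Finset.mem_range] at hk
      rw [← mul_sub, abs_mul, abs_of_pos (pow_pos hσ _)]
      calc σ ^ (k + 1) * |ep V (k + 1) - aL μ d L (k + 1)| ≤ 1 * (C / L) :=
            mul_le_mul (pow_le_one₀ hσ.le hσ1) (hep k hk) (abs_nonneg _) zero_le_one
        _ = C * (1 / L) := by ring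
        _ ≤ C * (σ ^ N * √σ) := by gcongr
    · rw [Finset.sum_const, Finset.card_range, nsmul_eq_mul]
      exact le_of_eq (by ring)
  have b3 : |E0 - Es| ≤ K * (σ ^ N * √σ) := by
    refine hE0.trans ?_
    rw [div_eq_mul_one_div]
    apply mul_le_mul_of_nonneg_left _ hK
    refine le_trans ?_ hinvL
    exact one_div_le_one_div_of_le hL0 (le_self_pow₀ hLge (by norm_num))
  have e1 : Es - ∑ k ∈ Finset.range N, σ ^ (k + 1) * aL μ d L (k + 1) =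
      -(E0 - Es) + (E0 - tep V σ N) +
        (tep V σ N - ∑ k ∈ Finset.range N, σ ^ (k + 1) * aL μ d L (k + 1)) := by ring
  rw [e1]
  refine (abs_add_three _ _ _).trans ?_
  rw [abs_neg]
  linarith

end Pool.Agent.Y661.EX
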