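import Pool.Agent.Y661.EX.Lim

/-! Existence of the infinite volume coefficients. -/

set_option autoImplicit false
set_option linter.unusedSectionVars false

open scoped BigOperators Topology
open MeasureTheory Filter

namespace Pool.Agent.Y661.EX

open Pool.Agent.H4R2.AE (T Hop)
open Pool.Agent.H4R2.AE.Conc (PP QQ)

variable (μ : Measure ℝ) [IsProbabilityMeasure μ] (hμ : ∀ n : ℕ, Integrable (fun t : ℝ => |t| ^ n) μ)

/-- existence of the effective edge to the precision of order `N` -/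
def HE (d : ℕ) (μ : Measure ℝ) (K : ℝ) (N : ℕ) : Prop :=
  ∃ σ1 : ℝ, 0 < σ1 ∧ ∀ σ : ℝ, 0 < σ → σ ≤ σ1 → ∃ Es : ℝ, ∀ (L : ℕ) [NeZero L],
    (L : ℝ) ≤ (1 / σ) ^ (2 * (N + 1)) → FlatAt d μ K σ Es L

include hμ

theorem compare (d : ℕ) (hd : 4 ≤ d) (N : ℕ) (K : ℝ) (hK : 0 ≤ K) (hE : HE d μ K N) :
    ∃ C h0 : ℝ, 0 ≤ C ∧ 0 < h0 ∧ h0 ≤ 1 ∧ ∀ h : ℝ, 0 < h → h ≤ h0 →
      ∀ (L L' : ℕ) [NeZero L] [NeZero L'], (1 / h) ^ (N + 1) ≤ (L : ℝ) →
        (L : ℝ) ≤ 4 * (1 / h) ^ (N + 1) → (1 / h) ^ (N + 1) ≤ (L' : ℝ) →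
        (L' : ℝ) ≤ 4 * (1 / h) ^ (N + 1) → ∀ k < N,
          |h ^ (k + 1) * (aL μ d L (k + 1) - aL μ d L' (k + 1))| ≤ C * (h ^ N * √h) := by
  obtain ⟨C1, σ0, hC1, hσ0, hσ01, hstep⟩ := step μ hμ d hd N K hK
  obtain ⟨C2, hC2, hv⟩ := vdm' N
  obtain ⟨σ1, hσ1, hE⟩ := hE
  have hN0 : (0 : ℝ) ≤ N := Nat.cast_nonneg N
  obtain ⟨h0, hh0⟩ : ∃ h0 : ℝ, h0 = min (1 / (4 * ((N : ℝ) + 1) ^ 2))
    (min (σ0 / (N + 1)) (σ1 / (N + 1))) := ⟨_, rfl⟩
  have a1 : h0 ≤ 1 / (4 * ((N : ℝ) + 1) ^ 2) := by rw [hh0]; exact min_le_left _ _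
  have a2 : h0 ≤ σ0 / (N + 1) := by rw [hh0]; exact (min_le_right _ _).trans (min_le_left _ _)
  have a3 : h0 ≤ σ1 / (N + 1) := by rw [hh0]; exact (min_le_right _ _).trans (min_le_right _ _)
  have h00 : 0 < h0 := by rw [hh0]; positivity
  have h01 : h0 ≤ 1 := by
    refine a1.trans ?_
    rw [div_le_one (by positivity)]
    nlinarith
  refine ⟨C2 * (2 * C1 * ((N : ℝ) + 1) ^ (N + 1)), h0, by positivity, h00, h01, ?_⟩
  intro h hh hhh L L' _ _ l1 l2 l3 l4 k hk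
  have key : ∀ j ≤ N, |∑ k ∈ Finset.range N, (((j : ℝ) + 1) * h) ^ (k + 1) *
      (aL μ d L (k + 1) - aL μ d L' (k + 1))| ≤
        2 * C1 * ((N : ℝ) + 1) ^ (N + 1) * (h ^ N * √h) := by
    intro j hj
    have hjN : (j : ℝ) ≤ N := by exact_mod_cast hj
    have hj0 : (0 : ℝ) ≤ j := Nat.cast_nonneg j
    obtain ⟨σ, hσ⟩ : ∃ σ : ℝ, σ = ((j : ℝ) + 1) * h := ⟨_, rfl⟩
    rw [← hσ]
    have hσ0' : 0 < σ := by rw [hσ]; positivity
    have hσN : σ ≤ (N + 1) * h := by rw [hσ]; gcongr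
    have hσh : h ≤ σ := by
      rw [hσ]
      nlinarith
    have hσσ0 : σ ≤ σ0 := by
      have := hhh.trans a2
      rw [le_div_iff₀ (by positivity)] at this
      linarith
    have hσσ1 : σ ≤ σ1 := by
      have := hhh.trans a3
      rw [le_div_iff₀ (by positivity)] at this
      linarith
    have hup : 4 * (1 / h) ^ (N + 1) ≤ (1 / σ) ^ (2 * (N + 1)) := by
      have e1 : 4 * ((N : ℝ) + 1) ^ 2 * h ≤ 1 := by
        have := hhh.trans a1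
        rw [le_div_iff₀ (by positivity)] at this
        linarith
      have e2 : 4 * σ ^ 2 ≤ h := by
        calc 4 * σ ^ 2 ≤ 4 * ((N + 1) * h) ^ 2 := by gcongr
          _ = (4 * ((N : ℝ) + 1) ^ 2 * h) * h := by ring
          _ ≤ 1 * h := by gcongr
          _ = h := one_mul _
      have e3 : (4 * σ ^ 2) ^ (N + 1) ≤ h ^ (N + 1) := pow_le_pow_left₀ (by positivity) e2 _
      have e4 : (4 : ℝ) ≤ 4 ^ (N + 1) := le_self_pow₀ (by norm_num) (by omega)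
      rw [one_div, one_div, inv_pow, inv_pow, ← div_eq_mul_inv, div_le_iff₀ (by positivity),
        inv_mul_eq_div, le_div_iff₀ (by positivity)]
      calc 4 * σ ^ (2 * (N + 1)) ≤ 4 ^ (N + 1) * σ ^ (2 * (N + 1)) := by gcongr
        _ = (4 * σ ^ 2) ^ (N + 1) := by rw [mul_pow, ← pow_mul]
        _ ≤ _ := e3
    have hlo : (1 / σ) ^ (N + 1) ≤ (1 / h) ^ (N + 1) := by
      apply pow_le_pow_left₀ (by positivity)
      exact one_div_le_one_div_of_le hh hσh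
    obtain ⟨Es, hEs⟩ := hE σ hσ0' hσσ1
    have s1 := hstep σ hσ0' hσσ0 Es L (hlo.trans l1) (l2.trans hup) (hEs L (l2.trans hup))
    have s2 := hstep σ hσ0' hσσ0 Es L' (hlo.trans l3) (l4.trans hup) (hEs L' (l4.trans hup))
    have e1 : ∑ k ∈ Finset.range N, σ ^ (k + 1) *
      (aL μ d L (k + 1) - aL μ d L' (k + 1)) =
      (Es - ∑ k ∈ Finset.range N, σ ^ (k + 1) * aL μ d L' (k + 1)) -
      (Es - ∑ k ∈ Finset.range N, σ ^ (k + 1) * aL μ d L (k + 1)) := by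
      rw [sub_sub_sub_cancel_left, ← Finset.sum_sub_distrib]
      exact Finset.sum_congr rfl fun k _ => by ring
    rw [e1]
    refine (abs_sub _ _).trans ?_
    have e2 : σ ^ N * √σ ≤ ((N : ℝ) + 1) ^ (N + 1) * (h ^ N * √h) := by
      have e3 : √σ ≤ (N + 1) * √h := by
        rw [Real.sqrt_le_left (by positivity), mul_pow, Real.sq_sqrt hh.le]
        refine hσN.trans ?_
        have : (N : ℝ) + 1 ≤ (N + 1) ^ 2 := by nlinarith
        gcongr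
      calc σ ^ N * √σ ≤ ((N + 1) * h) ^ N * ((N + 1) * √h) := by gcongr
        _ = _ := by rw [mul_pow]; ring
    calc |Es - ∑ k ∈ Finset.range N, σ ^ (k + 1) * aL μ d L' (k + 1)| +
          |Es - ∑ k ∈ Finset.range N, σ ^ (k + 1) * aL μ d L (k + 1)| ≤
          C1 * (σ ^ N * √σ) + C1 * (σ ^ N * √σ) := add_le_add s2 s1
      _ = 2 * C1 * (σ ^ N * √σ) := by ring
      _ ≤ 2 * C1 * (((N : ℝ) + 1) ^ (N + 1) * (h ^ N * √h)) := by gcongr
      _ = _ := by ring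
  refine (hv _ h _ key k hk).trans (le_of_eq ?_)
  ring

/-- the coefficient in the infinite volume -/
noncomputable def bco (μ : Measure ℝ) (d k : ℕ) : ℝ :=
  limUnder atTop (fun m : ℕ => aL μ d (2 ^ m) k)

theorem lim_bco (d : ℕ) (hd : 4 ≤ d) (N : ℕ) (K : ℝ) (hK : 0 ≤ K) (hE : HE d μ K N) :
    ∃ (C : ℝ) (n0 : ℕ) (ρ : ℝ), 0 ≤ C ∧ 0 < ρ ∧ ρ < 1 ∧ ρ ^ (N + 1) = 1 / 2 ∧ ∀ k < N,
      Tendsto (fun m : ℕ => aL μ d (2 ^ m) (k + 1)) atTop (𝓝 (bco μ d (k + 1))) ∧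
      (∀ m : ℕ, n0 ≤ m → (ρ ^ m) ^ (k + 1) * |aL μ d (2 ^ m) (k + 1) - bco μ d (k + 1)| ≤
        C * ((ρ ^ m) ^ N * √(ρ ^ m))) ∧
      ∀ m : ℕ, n0 ≤ m → ∀ (L : ℕ) [NeZero L], 2 ^ m ≤ L → L ≤ 2 ^ (m + 1) →
        |aL μ d (2 ^ m) (k + 1) - aL μ d L (k + 1)| ≤ C * √(ρ ^ m) := by
  obtain ⟨C, h0, hC, hh0, hh01, hcmp⟩ := compare μ hμ d hd N K hK hE
  obtain ⟨ρ, hρ⟩ : ∃ ρ : ℝ, ρ = (1 / 2 : ℝ) ^ (1 / ((N : ℝ) + 1)) := ⟨_, rfl⟩
  have hρ0 : 0 < ρ := by rw [hρ]; exact Real.rpow_pos_of_pos (by norm_num) _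
  have hρN : ρ ^ (N + 1) = 1 / 2 := by
    rw [hρ, ← Real.rpow_natCast, ← Real.rpow_mul (by norm_num)]
    have : 1 / ((N : ℝ) + 1) * ((N + 1 : ℕ) : ℝ) = 1 := by
      push_cast
      field_simp
    rw [this, Real.rpow_one]
  have hρ1 : ρ < 1 := by
    by_contra hcon
    push Not at hcon
    have : 1 ≤ ρ ^ (N + 1) := one_le_pow₀ hcon
    rw [hρN] at this
    norm_num at this
  obtain ⟨n0, hn0⟩ : ∃ n0 : ℕ, ρ ^ n0 < h0 := exists_pow_lt_of_lt_one hh0 hρ1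
  have hsm : ∀ m, n0 ≤ m → ρ ^ m ≤ h0 := fun m hm =>
    (pow_le_pow_of_le_one hρ0.le hρ1.le hm).trans hn0.le
  have hpow : ∀ m : ℕ, (1 / ρ ^ m) ^ (N + 1) = 2 ^ m := by
    intro m
    rw [one_div, inv_pow, ← pow_mul, mul_comm, pow_mul, hρN, ← inv_pow]
    norm_num
  -- comparison
  have hcmp2 : ∀ m, n0 ≤ m → ∀ (L : ℕ) [NeZero L], 2 ^ m ≤ L → L ≤ 2 ^ (m + 1) → ∀ k < N,
      |(ρ ^ m) ^ (k + 1) * (aL μ d (2 ^ m) (k + 1) - aL μ d L (k + 1))| ≤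
        C * ((ρ ^ m) ^ N * √(ρ ^ m)) := by
    intro m hm L _ hL1 hL2 k hk
    have e1 : (2 : ℝ) ^ m ≤ L := by exact_mod_cast hL1
    have e2 : (L : ℝ) ≤ 2 ^ (m + 1) := by exact_mod_cast hL2
    have e3 : (0 : ℝ) < 2 ^ m := by positivity
    apply hcmp (ρ ^ m) (by positivity) (hsm m hm) (2 ^ m) L _ _ _ _ k hk
    · rw [hpow]; push_cast; exact le_rfl
    · rw [hpow]; push_cast; linarith
    · rw [hpow]; exact e1
    · rw [hpow]
      rw [pow_succ] at e2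
      linarith
  have hsimp : ∀ m k : ℕ, k < N → ∀ x : ℝ,
      |(ρ ^ m) ^ (k + 1) * x| ≤ C * ((ρ ^ m) ^ N * √(ρ ^ m)) →
      |x| ≤ C * ((ρ ^ m) ^ (N - (k + 1)) * √(ρ ^ m)) := by
    intro m k hk x hx
    have hp : 0 < (ρ ^ m) ^ (k + 1) := by positivity
    rw [abs_mul, abs_of_pos hp] at hx
    have e1 : (ρ ^ m) ^ N = (ρ ^ m) ^ (k + 1) * (ρ ^ m) ^ (N - (k + 1)) := by
      rw [← pow_add]
      congr 1
      omega
    rw [e1] at hx
    have e2 : (ρ ^ m) ^ (k + 1) * |x| ≤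
        (ρ ^ m) ^ (k + 1) * (C * ((ρ ^ m) ^ (N - (k + 1)) * √(ρ ^ m))) := by
      refine hx.trans (le_of_eq (by ring))
    exact le_of_mul_le_mul_left e2 hp
  have hs1 : √ρ < 1 := by
    rw [Real.sqrt_lt' one_pos]
    simpa using hρ1
  have hs0 : 0 < √ρ := Real.sqrt_pos.2 hρ0
  have hsq : ∀ m : ℕ, √(ρ ^ m) = √ρ ^ m := fun m => by
    have h1 : (√ρ ^ m) ^ 2 = ρ ^ m := by
      rw [← pow_mul, mul_comm, pow_mul, Real.sq_sqrt hρ0.le]
    rw [← h1, Real.sqrt_sq (by positivity)]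
  -- limits
  have hlim : ∀ k < N, ∃ b : ℝ, Tendsto (fun m : ℕ => aL μ d (2 ^ m) (k + 1)) atTop (𝓝 b) ∧
      ∀ m, n0 ≤ m → |aL μ d (2 ^ m) (k + 1) - b| ≤
        C / (1 - √ρ) * ((ρ ^ m) ^ (N - (k + 1)) * √(ρ ^ m)) := by
    intro k hk
    obtain ⟨r, hr⟩ : ∃ r : ℝ, r = ρ ^ (N - (k + 1)) * √ρ := ⟨_, rfl⟩
    have hr0 : 0 < r := by rw [hr]; positivity
    have hrs : r ≤ √ρ := by
      rw [hr]
      exact mul_le_of_le_one_left hs0.le (pow_le_one₀ hρ0.le hρ1.le)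
    have hr1 : r < 1 := by linarith
    have hrm : ∀ m : ℕ, (ρ ^ m) ^ (N - (k + 1)) * √(ρ ^ m) = r ^ m := by
      intro m
      rw [hr, hsq, mul_pow, ← pow_mul, ← pow_mul, mul_comm m]
    have hd1 : ∀ m, n0 ≤ m → |aL μ d (2 ^ m) (k + 1) - aL μ d (2 ^ (m + 1)) (k + 1)| ≤
        C * r ^ m := by
      intro m hm
      have h1 := hcmp2 m hm (2 ^ (m + 1)) (Nat.pow_le_pow_right (by norm_num) (by omega)) le_rfl k hk
      have h2 := hsimp m k hk _ h1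
      rwa [hrm] at h2
    obtain ⟨f, hf⟩ : ∃ f : ℕ → ℝ, f = fun m => aL μ d (2 ^ (m + n0)) (k + 1) := ⟨_, rfl⟩
    have hfd : ∀ m, dist (f m) (f (m + 1)) ≤ C * r ^ n0 * r ^ m := by
      intro m
      rw [hf, Real.dist_eq]
      have h1 := hd1 (m + n0) (by omega)
      have e1 : m + 1 + n0 = m + n0 + 1 := by omega
      beta_reduce
      rw [e1]
      refine h1.trans (le_of_eq ?_)
      rw [pow_add]
      ring
    obtain ⟨b, hb⟩ := cauchySeq_tendsto_of_complete (cauchySeq_of_le_geometric r _ hr1 hfd)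
    refine ⟨b, ?_, ?_⟩
    · have h1 : Tendsto (fun m : ℕ => (fun m' : ℕ => aL μ d (2 ^ m') (k + 1)) (m + n0)) atTop
          (𝓝 b) := by
        rw [hf] at hb
        exact hb
      exact (tendsto_add_atTop_iff_nat n0).1 h1
    · intro m hm
      obtain ⟨m', rfl⟩ : ∃ m', m = m' + n0 := ⟨m - n0, by omega⟩
      have h1 := dist_le_of_le_geometric_of_tendsto r _ hr1 hfd hb m'
      rw [Real.dist_eq, hf] at h1
      rw [hrm]
      refine h1.trans ?_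
      rw [pow_add]
      have h2 : 0 < 1 - r := by linarith
      have h3 : 0 < 1 - √ρ := by linarith
      calc C * r ^ n0 * r ^ m' / (1 - r) ≤ C * r ^ n0 * r ^ m' / (1 - √ρ) := by
            gcongr
        _ = _ := by ring
  have hdiv : C ≤ C / (1 - √ρ) := by
    rw [le_div_iff₀ (by linarith)]
    nlinarith
  refine ⟨C / (1 - √ρ), n0, ρ, by
    have : 0 < 1 - √ρ := by linarith
    positivity, hρ0, hρ1, hρN, ?_⟩
  intro k hk
  obtain ⟨b, hb, hb2⟩ := hlim k hk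
  have hbb : bco μ d (k + 1) = b := hb.limUnder_eq
  rw [hbb]
  refine ⟨hb, ?_, ?_⟩
  · intro m hm
    have h1 := hb2 m hm
    have hp : 0 < (ρ ^ m) ^ (k + 1) := by positivity
    calc (ρ ^ m) ^ (k + 1) * |aL μ d (2 ^ m) (k + 1) - b| ≤
          (ρ ^ m) ^ (k + 1) * (C / (1 - √ρ) * ((ρ ^ m) ^ (N - (k + 1)) * √(ρ ^ m))) := by gcongr
      _ = C / (1 - √ρ) * (((ρ ^ m) ^ (k + 1) * (ρ ^ m) ^ (N - (k + 1))) * √(ρ ^ m)) := by ring
      _ = _ := by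
          rw [← pow_add]
          congr 4
          omega
  · intro m hm L _ hL1 hL2
    have h1 := hsimp m k hk _ (hcmp2 m hm L hL1 hL2 k hk)
    refine h1.trans ?_
    calc C * ((ρ ^ m) ^ (N - (k + 1)) * √(ρ ^ m)) ≤ C / (1 - √ρ) * (1 * √(ρ ^ m)) := by
          have : (ρ ^ m) ^ (N - (k + 1)) ≤ 1 := pow_le_one₀ (by positivity)
            (pow_le_one₀ hρ0.le hρ1.le)
          gcongr
      _ = _ := by rw [one_mul]

/-- the asymptotic expansion of the effective edge -/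
theorem expansion (d : ℕ) (hd : 4 ≤ d) (N : ℕ) (K : ℝ) (hK : 0 ≤ K) (hE : HE d μ K N) :
    ∃ C σ0 : ℝ, 0 ≤ C ∧ 0 < σ0 ∧ ∀ σ : ℝ, 0 < σ → σ ≤ σ0 → ∀ Es : ℝ,
      (∀ (L : ℕ) [NeZero L], (L : ℝ) ≤ (1 / σ) ^ (2 * (N + 1)) → FlatAt d μ K σ Es L) →
        |Es - ∑ k ∈ Finset.range N, σ ^ (k + 1) * bco μ d (k + 1)| ≤ C * (σ ^ N * √σ) := by
  obtain ⟨C1, σ0, hC1, hσ0, hσ01, hstep⟩ := step μ hμ d hd N K hK
  obtain ⟨C, n0, ρ, hC, hρ0, hρ1, hρN, hl⟩ := lim_bco μ hμ d hd N K hK hE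
  have hN0 : (0 : ℝ) ≤ N := Nat.cast_nonneg N
  refine ⟨C1 + N * C, min σ0 (min (1 / 2) (ρ ^ n0)), by positivity, by positivity, ?_⟩
  intro σ hσ hσσ Es hflat
  have a1 : σ ≤ σ0 := hσσ.trans (min_le_left _ _)
  have a2 : σ ≤ 1 / 2 := hσσ.trans ((min_le_right _ _).trans (min_le_left _ _))
  have a3 : σ ≤ ρ ^ n0 := hσσ.trans ((min_le_right _ _).trans (min_le_right _ _))
  have h1σ : 1 ≤ 1 / σ := by rw [le_div_iff₀ hσ]; linarith
  have h1 : 1 ≤ (1 / σ) ^ (N + 1) := one_le_pow₀ h1σ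
  obtain ⟨m', hm1, hm2⟩ := exists_nat_pow_near h1 (one_lt_two (α := ℝ))
  obtain ⟨m, hm⟩ : ∃ m, m = m' + 1 := ⟨_, rfl⟩
  rw [← hm] at hm2
  have hm3 : (2 : ℝ) ^ m ≤ (1 / σ) ^ (2 * (N + 1)) := by
    rw [hm, pow_succ]
    calc (2 : ℝ) ^ m' * 2 ≤ (1 / σ) ^ (N + 1) * 2 := by gcongr
      _ ≤ (1 / σ) ^ (N + 1) * (1 / σ) ^ (N + 1) := by
          apply mul_le_mul_of_nonneg_left _ (by positivity)
          calc (2 : ℝ) ≤ 1 / σ := by
                rw [le_div_iff₀ hσ]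
                linarith
            _ ≤ _ := le_self_pow₀ h1σ (by omega)
      _ = _ := by rw [← pow_add]; congr 1; omega
  have hpow : (1 / ρ ^ m) ^ (N + 1) = 2 ^ m := by
    rw [one_div, inv_pow, ← pow_mul, mul_comm, pow_mul, hρN, ← inv_pow]
    norm_num
  have hρσ : ρ ^ m ≤ σ := by
    have h2 : (1 / σ) ^ (N + 1) ≤ (1 / ρ ^ m) ^ (N + 1) := by
      rw [hpow]
      exact hm2.le
    have h3 := le_of_pow_le_pow_left₀ (by omega) (by positivity) h2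
    exact (one_div_le_one_div hσ (by positivity)).1 h3
  have hm0 : n0 ≤ m := by
    by_contra hcon
    push Not at hcon
    have h2 : ρ ^ n0 < ρ ^ m := pow_lt_pow_right_of_lt_one₀ hρ0 hρ1 hcon
    linarith
  have s1 := hstep σ hσ a1 Es (2 ^ m) (by push_cast; exact hm2.le) (by push_cast; exact hm3)
    (hflat (2 ^ m) (by push_cast; exact hm3))
  have s2 : |∑ k ∈ Finset.range N, σ ^ (k + 1) * aL μ d (2 ^ m) (k + 1) -
      ∑ k ∈ Finset.range N, σ ^ (k + 1) * bco μ d (k + 1)| ≤ N * C * (σ ^ N * √σ) := by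
    rw [← Finset.sum_sub_distrib]
    refine (Finset.abs_sum_le_sum_abs _ _).trans ?_
    refine (Finset.sum_le_sum (g := fun _ => C * (σ ^ N * √σ)) fun k hk => ?_).trans ?_
    · rw [Finset.mem_range] at hk
      obtain ⟨-, h2, -⟩ := hl k hk
      have h3 := h2 m hm0
      obtain ⟨h, hh⟩ : ∃ h : ℝ, h = ρ ^ m := ⟨_, rfl⟩
      rw [← hh] at h3 hρσ
      have hh0 : 0 < h := by rw [hh]; positivity
      have e1 : h ^ N = h ^ (k + 1) * h ^ (N - (k + 1)) := by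
        rw [← pow_add]
        congr 1
        omega
      have e1' : σ ^ N = σ ^ (k + 1) * σ ^ (N - (k + 1)) := by
        rw [← pow_add]
        congr 1
        omega
      have e2 : h ^ (k + 1) * |aL μ d (2 ^ m) (k + 1) - bco μ d (k + 1)| ≤
          h ^ (k + 1) * (C * (h ^ (N - (k + 1)) * √h)) := by
        refine h3.trans (le_of_eq ?_)
        rw [e1]
        ring
      have e3 := le_of_mul_le_mul_left e2 (by positivity)
      rw [← mul_sub, abs_mul, abs_of_pos (pow_pos hσ _)]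
      calc σ ^ (k + 1) * |aL μ d (2 ^ m) (k + 1) - bco μ d (k + 1)| ≤
            σ ^ (k + 1) * (C * (h ^ (N - (k + 1)) * √h)) := by gcongr
        _ ≤ σ ^ (k + 1) * (C * (σ ^ (N - (k + 1)) * √σ)) := by gcongr
        _ = C * (σ ^ N * √σ) := by rw [e1']; ring
    · rw [Finset.sum_const, Finset.card_range, nsmul_eq_mul]
      exact le_of_eq (by ring)
  have e1 : Es - ∑ k ∈ Finset.range N, σ ^ (k + 1) * bco μ d (k + 1) =
      (Es - ∑ k ∈ Finset.range N, σ ^ (k + 1) * aL μ d (2 ^ m) (k + 1)) +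
      (∑ k ∈ Finset.range N, σ ^ (k + 1) * aL μ d (2 ^ m) (k + 1) -
      ∑ k ∈ Finset.range N, σ ^ (k + 1) * bco μ d (k + 1)) := by ring
  rw [e1]
  refine (abs_add_le _ _).trans ?_
  linarith

end Pool.Agent.Y661.EX
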