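import Pool.Agent.Y661.EX.Diff2
import Pool.Agent.Y661.EX.ES
import Pool.Agent.H4R2.AE.Good

/-! The correctors as functions of the potential: growth, stationarity, bounds by single sites. -/

set_option autoImplicit false
set_option linter.unusedSectionVars false

open scoped BigOperators
open MeasureTheory
open PowerSeries (coeff mk X C)

namespace Pool.Agent.Y661.EX

open Pool.Agent.H4R2.AE (T)
open Pool.Agent.H4R2.AE.Conc (PP QQ sel sw mp_sel mp_sw int_mp meas_sel meas_sw sel_single)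

variable {d L : ℕ} [NeZero L]

theorem pb_av {F : T d L → (T d L → ℝ) → ℝ} (hF : ∀ x, PBg Wa (F x)) :
    PBg Wa (fun V => av (fun x => F x V)) := by
  have h := pb_mul Wa Wa_ge (pb_sum Wa Wa_ge Finset.univ fun x _ => hF x)
    (pb_const Wa (NS d L)⁻¹)
  exact h

theorem pb_Gr {F : T d L → (T d L → ℝ) → ℝ} (hF : ∀ x, PBg Wa (F x)) (z : T d L) :
    PBg Wa (fun V => Gr (fun x => F x V) z) := by
  have h := pb_sum Wa Wa_ge Finset.univ (F := fun x V => Gz z x * F x V) fun x _ =>
    pb_mul Wa Wa_ge (pb_const Wa (Gz z x)) (hF x)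
  refine (iff_of_eq ?_).mp h
  congr 1
  funext V
  rw [Gr_eq]

theorem pb_phi (n : ℕ) : ∀ x : T d L, PBg Wa (fun V => phi V n x) := by
  induction n using Nat.strong_induction_on with
  | _ n ih =>
    rcases n with - | n
    · intro x
      simp only [phi_zero]
      exact pb_const Wa 1
    · intro x
      have hep : ∀ k : Fin n, PBg Wa (fun V : T d L → ℝ => ep V (k + 1)) := fun k =>
        pb_av fun y => pb_mul Wa Wa_ge (pb_coord y) (ih k (by have := k.2; omega) y)
      have h := pb_Gr (F := fun x V => -(V x * phi V n x) +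
        ∑ k : Fin n, ep V (k + 1) * phi V (n - k) x) (fun y =>
          pb_add Wa Wa_ge (pb_neg Wa Wa_ge (pb_mul Wa Wa_ge (pb_coord y) (ih n (by omega) y)))
            (pb_sum Wa Wa_ge Finset.univ fun k _ => pb_mul Wa Wa_ge (hep k)
              (ih (n - k) (by have := k.2; omega) y))) x
      refine (iff_of_eq ?_).mp h
      congr 1
      funext V
      rw [phi_succ]

theorem pb_ep (n : ℕ) : PBg Wa (fun V : T d L → ℝ => ep V (n + 1)) :=
  pb_av fun y => pb_mul Wa Wa_ge (pb_coord y) (pb_phi n y)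

theorem al_shift (f : T d L → ℝ) (a x : T d L) : Al (fun y => f (y + a)) x = Al f (x + a) := by
  unfold Al dv gd
  refine Finset.sum_congr rfl fun i _ => ?_
  have e1 : x - Pi.single i (1 : ZMod L) + Pi.single i 1 + a = x + a - Pi.single i 1 +
    Pi.single i 1 := by abel
  have e2 : x - Pi.single i (1 : ZMod L) + a = x + a - Pi.single i 1 := by abel
  have e3 : x + Pi.single i (1 : ZMod L) + a = x + a + Pi.single i 1 := by abel
  beta_reduce
  rw [e1, e2, e3]

theorem Gr_shift (f : T d L → ℝ) (a : T d L) :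
    Gr (fun y => f (y + a)) = fun x => Gr f (x + a) := by
  refine (Gr_unique _ _ ?_ fun x => ?_).symm
  · rw [shift_add (Gr f) a]
    exact sum_Gr f
  · rw [al_shift, al_Gr]
    unfold av
    rw [shift_add f a]

theorem av_shift (f : T d L → ℝ) (a : T d L) : av (fun y => f (y + a)) = av f := by
  unfold av
  rw [shift_add f a]

theorem phi_shift (V : T d L → ℝ) (a : T d L) (n : ℕ) :
    phi (fun y => V (y + a)) n = fun x => phi V n (x + a) := by
  induction n using Nat.strong_induction_on with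
  | _ n ih =>
    rcases n with - | n
    · funext x
      rw [phi_zero, phi_zero]
    · rw [phi_succ]
      have hep : ∀ k : Fin n, ep (fun y => V (y + a)) (k + 1) = ep V (k + 1) := by
        intro k
        show av (fun y => V (y + a) * phi (fun y => V (y + a)) k y) = av (fun y => V y * phi V k y)
        rw [ih k (by have := k.2; omega)]
        exact av_shift (fun y => V y * phi V k y) a
      have h1 : (fun x => -(V (x + a) * phi (fun y => V (y + a)) n x) +
          ∑ k : Fin n, ep (fun y => V (y + a)) (k + 1) * phi (fun y => V (y + a)) (n - k) x) =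
          fun x => (fun x => -(V x * phi V n x) +
            ∑ k : Fin n, ep V (k + 1) * phi V (n - k) x) (x + a) := by
        funext x
        beta_reduce
        rw [ih n (by omega)]
        congr 1
        refine Finset.sum_congr rfl fun k _ => ?_
        rw [hep k, ih (n - k) (by omega)]
      rw [h1, Gr_shift (fun x => -(V x * phi V n x) + ∑ k : Fin n, ep V (k + 1) * phi V (n - k) x)]
      funext x
      rw [phi_succ]

section meas

variable (μ : Measure ℝ) [IsProbabilityMeasure μ]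

theorem phi_int (n : ℕ) (x : T d L) (h : ℝ → ℝ) (hh : Continuous h) :
    ∫ V, h (phi V n x) ∂(PP (T d L) μ) = ∫ V, h (phi V n 0) ∂(PP (T d L) μ) := by
  have h1 : ∀ V : T d L → ℝ, phi V n x = phi (fun y => V (y + x)) n 0 := by
    intro V
    rw [phi_shift]
    beta_reduce
    rw [zero_add]
  simp_rw [h1]
  have hmp := Pool.Agent.H4R2.AE.Good.good_mp (L := L) μ x
  exact int_mp hmp (g := fun V => h (phi V n 0)) (hh.comp (pb_phi n 0).1).measurable

theorem phi_mean (hμ : ∀ n : ℕ, Integrable (fun t : ℝ => |t| ^ n) μ) (n : ℕ) (x : T d L) :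
    ∫ V, phi V (n + 1) x ∂(PP (T d L) μ) = 0 := by
  have h1 : ∑ y : T d L, ∫ V, phi V (n + 1) y ∂(PP (T d L) μ) = 0 := by
    rw [← integral_finset_sum _ fun y _ => pb_int μ hμ (pb_phi (n + 1) y)]
    simp only [sum_phi, integral_zero]
  have h2 : ∀ y : T d L, ∫ V, phi V (n + 1) y ∂(PP (T d L) μ) =
      ∫ V, phi V (n + 1) x ∂(PP (T d L) μ) := by
    intro y
    have a := phi_int μ (n + 1) y id continuous_id
    have b := phi_int μ (n + 1) x id continuous_id
    simp only [id] at a b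
    rw [a, b]
  rw [Finset.sum_congr rfl fun y _ => h2 y, sum_const'] at h1
  rcases mul_eq_zero.1 h1 with h | h
  · exact absurd h NS_pos.ne'
  · exact h

end meas

/-- the items that have to be controlled -/
def Dom (n : ℕ) (θ : T d L → ℝ × ℝ) (S : ℝ) : Prop :=
  1 ≤ S ∧ (∀ k ≤ n, ∀ x, |phi (sel ∅ θ) k x| ≤ S) ∧
    (∀ k ≤ n, ∀ y x, |phi (sel {y} θ) k x| ≤ S) ∧ ∀ y, |(θ y).2 - (θ y).1| ≤ S

/-- the sum of the powers of the items -/
noncomputable def It (n r : ℕ) (θ : T d L → ℝ × ℝ) : ℝ :=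
  ∑ k ∈ Finset.range (n + 1), ∑ x, |phi (sel ∅ θ) k x| ^ r +
    ∑ k ∈ Finset.range (n + 1), ∑ y, ∑ x, |phi (sel {y} θ) k x| ^ r +
    ∑ y, |(θ y).2 - (θ y).1| ^ r

/-- a finite family has a dominating number whose powers are bounded by the sum of the powers -/
theorem exists_dom {κ : Type} (s : Finset κ) (a : κ → ℝ) (ha : ∀ k ∈ s, 0 ≤ a k) :
    ∃ S : ℝ, 1 ≤ S ∧ (∀ k ∈ s, a k ≤ S) ∧ ∀ r : ℕ, S ^ r ≤ 1 + ∑ k ∈ s, a k ^ r := by
  rcases s.eq_empty_or_nonempty with h | h
  · subst h
    exact ⟨1, le_rfl, by simp, fun r => by simp⟩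
  · obtain ⟨k0, hk0, hmax⟩ := Finset.exists_max_image s a h
    refine ⟨max 1 (a k0), le_max_left _ _, fun k hk => (hmax k hk).trans (le_max_right _ _),
      fun r => ?_⟩
    have h1 : a k0 ^ r ≤ ∑ k ∈ s, a k ^ r :=
      Finset.single_le_sum (f := fun k => a k ^ r) (fun k hk => pow_nonneg (ha k hk) r) hk0
    have h2 : 0 ≤ a k0 ^ r := pow_nonneg (ha k0 hk0) r
    rcases max_choice 1 (a k0) with h3 | h3
    · rw [h3, one_pow]
      linarith
    · rw [h3]
      linarith

theorem exists_dom_It (n : ℕ) (θ : T d L → ℝ × ℝ) : ∃ S : ℝ, Dom n θ S ∧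
    ∀ r : ℕ, S ^ r ≤ 1 + It n r θ := by
  obtain ⟨S, hS, h1, h2⟩ := exists_dom
    (((Finset.range (n + 1) ×ˢ (Finset.univ : Finset (T d L))).disjSum
      ((Finset.range (n + 1) ×ˢ ((Finset.univ : Finset (T d L)) ×ˢ
        (Finset.univ : Finset (T d L)))).disjSum (Finset.univ : Finset (T d L)))))
    (Sum.elim (fun p => |phi (sel ∅ θ) p.1 p.2|)
      (Sum.elim (fun p => |phi (sel {p.2.1} θ) p.1 p.2.2|) (fun y => |(θ y).2 - (θ y).1|)))
    (fun k _ => by
      rcases k with k | k | k <;> exact abs_nonneg _)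
  refine ⟨S, ⟨hS, fun k hk x => ?_, fun k hk y x => ?_, fun y => ?_⟩, fun r => ?_⟩
  · have := h1 (Sum.inl (k, x)) (by
      rw [Finset.inl_mem_disjSum, Finset.mem_product, Finset.mem_range]
      exact ⟨by omega, Finset.mem_univ x⟩)
    exact this
  · have := h1 (Sum.inr (Sum.inl (k, y, x))) (by
      rw [Finset.inr_mem_disjSum, Finset.inl_mem_disjSum, Finset.mem_product, Finset.mem_range]
      exact ⟨by omega, Finset.mem_product.2 ⟨Finset.mem_univ y, Finset.mem_univ x⟩⟩)
    exact this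
  · have := h1 (Sum.inr (Sum.inr y)) (by
      rw [Finset.inr_mem_disjSum, Finset.inr_mem_disjSum]
      exact Finset.mem_univ y)
    exact this
  · refine (h2 r).trans (le_of_eq ?_)
    unfold It
    rw [Finset.sum_disjSum, Finset.sum_disjSum, Finset.sum_product, Finset.sum_product]
    simp only [Sum.elim_inl, Sum.elim_inr]
    congr 1
    rw [← add_assoc]
    congr 2
    refine Finset.sum_congr rfl fun k _ => ?_
    rw [Finset.sum_product]

theorem pb_phi_sel (n : ℕ) (x : T d L) (S : Finset (T d L)) :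
    PBg Wb (fun θ : T d L → ℝ × ℝ => phi (sel S θ) n x) := pb_sel (pb_phi n x) S

theorem pb_fst (y : T d L) : PBg Wb (fun θ : T d L → ℝ × ℝ => (θ y).1) := by
  have h := pb_sel (pb_coord y) (∅ : Finset (T d L))
  simpa [sel] using h

theorem pb_snd (y : T d L) : PBg Wb (fun θ : T d L → ℝ × ℝ => (θ y).2) := by
  have h := pb_sel (pb_coord y) (Finset.univ : Finset (T d L))
  simpa [sel] using h

theorem pb_It (n r : ℕ) : PBg Wb (It (d := d) (L := L) n r) := by
  refine pb_add Wb Wb_ge (pb_add Wb Wb_ge ?_ ?_) ?_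
  · exact pb_sum Wb Wb_ge _ fun k _ => pb_sum Wb Wb_ge _ fun x _ =>
      pb_pow Wb Wb_ge (pb_abs Wb Wb_ge (pb_phi_sel k x ∅)) r
  · exact pb_sum Wb Wb_ge _ fun k _ => pb_sum Wb Wb_ge _ fun y _ => pb_sum Wb Wb_ge _ fun x _ =>
      pb_pow Wb Wb_ge (pb_abs Wb Wb_ge (pb_phi_sel k x {y})) r
  · exact pb_sum Wb Wb_ge _ fun y _ => pb_pow Wb Wb_ge (pb_abs Wb Wb_ge
      (pb_sub Wb Wb_ge (pb_snd y) (pb_fst y))) r

/-- the single site differences of the next corrector -/
theorem diff_dom (K : ℝ) (hK : 1 ≤ K) (n : ℕ) : ∃ (B : ℝ) (q : ℕ), 1 ≤ B ∧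
    ∀ (d L : ℕ) [NeZero L] (Γ : ℝ), Kern d L K Γ → ∀ (θ : T d L → ℝ × ℝ) (S : ℝ), Dom n θ S →
      (∀ z, Vs (fun V => phi V (n + 1) z) θ ≤ B * Γ * S ^ q) ∧
      ∀ y, |ep (sel {y} θ) (n + 1) - ep (sel ∅ θ) (n + 1)| ≤ B * S ^ q / NS d L := by
  obtain ⟨B, q, hB, h⟩ := diff K hK n
  have hn0 : (0 : ℝ) ≤ n := Nat.cast_nonneg n
  refine ⟨B * ((n : ℝ) + 1) ^ q, q, one_le_mul_of_one_le_of_one_le hB
    (one_le_pow₀ (by linarith)), ?_⟩
  intro d L _ Γ hKern θ S hD
  obtain ⟨hS, h1, h2, h3⟩ := hD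
  have hup : ∀ y, sel {y} θ = Function.update (sel ∅ θ) y ((fun y => (θ y).2) y) := by
    intro y
    rw [sel_single]
    congr 1
    simp [sel]
  have hnrm : ∀ (V : T d L → ℝ) (x : T d L), (∀ k ≤ n, |phi V k x| ≤ S) →
      nrm n (psi V x) ≤ (n + 1) * S := by
    intro V x hV
    unfold nrm
    have : ∀ k ∈ Finset.range (n + 1), |coeff k (psi V x)| ≤ S := fun k hk => by
      rw [Finset.mem_range] at hk
      rw [coeff_psi]
      exact hV k (by omega)
    refine (Finset.sum_le_sum this).trans (le_of_eq ?_)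
    rw [Finset.sum_const, Finset.card_range, nsmul_eq_mul]
    push_cast
    ring
  have hS' : S ≤ (n + 1) * S := le_mul_of_one_le_left (by linarith) (by linarith)
  obtain ⟨a1, a2⟩ := h d L Γ hKern (sel ∅ θ) (fun y => (θ y).2) ((n + 1) * S) (by linarith)
    (fun x => hnrm _ x fun k hk => h1 k hk x) (fun y x => by
      rw [← hup y]
      exact hnrm _ x fun k hk => h2 k hk y x) (fun y => by
      have e1 : sel ∅ θ y = (θ y).1 := by simp [sel]
      rw [e1]
      exact (h3 y).trans hS')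
  have e1 : B * Γ * ((n + 1) * S) ^ q = B * ((n : ℝ) + 1) ^ q * Γ * S ^ q := by
    rw [mul_pow]
    ring
  have e2 : B * ((n + 1) * S) ^ q = B * ((n : ℝ) + 1) ^ q * S ^ q := by
    rw [mul_pow]
    ring
  refine ⟨fun z => ?_, fun y => ?_⟩
  · have := a1 z
    rw [e1] at this
    refine le_trans (le_of_eq ?_) this
    unfold Vs
    refine Finset.sum_congr rfl fun y _ => ?_
    rw [hup y]
    ring
  · have := a2 y
    rw [e2, ← hup y] at this
    exact this

end Pool.Agent.Y661.EX
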