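import Pool.Agent.Y661.EX.Kern

/-! The perturbation series of the ground state: recursion, equation, difference of two series. -/

set_option autoImplicit false
set_option linter.unusedSectionVars false

open scoped BigOperators
open PowerSeries (coeff mk X C)

namespace Pool.Agent.Y661.EX

open Pool.Agent.H4R2.AE (T)

variable {d L : ℕ} [NeZero L]

/-- the correctors -/
noncomputable def phi (V : T d L → ℝ) : ℕ → T d L → ℝ
  | 0 => fun _ => 1
  | (n + 1) => Gr (fun x => -(V x * phi V n x) +
      ∑ k : Fin n, av (fun y => V y * phi V k y) * phi V (n - k) x)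
termination_by n => n
decreasing_by
  · omega
  · have := k.2
    omega
  · omega

/-- the coefficients of the energy -/
noncomputable def ep (V : T d L → ℝ) : ℕ → ℝ
  | 0 => 0
  | (n + 1) => av (fun y => V y * phi V n y)

theorem phi_zero (V : T d L → ℝ) (x : T d L) : phi V 0 x = 1 := by
  rw [phi]

theorem phi_succ (V : T d L → ℝ) (n : ℕ) : phi V (n + 1) = Gr (fun x => -(V x * phi V n x) +
    ∑ k : Fin n, ep V (k + 1) * phi V (n - k) x) := by
  rw [phi]
  rfl

theorem sum_phi (V : T d L → ℝ) (n : ℕ) : ∑ x, phi V (n + 1) x = 0 := by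
  rw [phi_succ]
  exact sum_Gr _

theorem av_phi (V : T d L → ℝ) (n : ℕ) (hn : n ≠ 0) : av (phi V n) = 0 := by
  obtain ⟨m, rfl⟩ := Nat.exists_eq_succ_of_ne_zero hn
  unfold av
  rw [Nat.succ_eq_add_one, sum_phi, zero_div]

theorem al_phi (V : T d L → ℝ) (n : ℕ) (x : T d L) : Al (phi V (n + 1)) x =
    -(V x * phi V n x) + ∑ k ∈ Finset.range (n + 1), ep V (k + 1) * phi V (n - k) x := by
  rw [phi_succ, al_Gr, Finset.sum_range_succ, Nat.sub_self, phi_zero, mul_one,
    Finset.sum_range (fun k => ep V (k + 1) * phi V (n - k) x)]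
  have h1 : av (fun x => -(V x * phi V n x) + ∑ k : Fin n, ep V (k + 1) * phi V (n - k) x) =
      -ep V (n + 1) := by
    rw [av_add]
    have e1 : av (fun x => -(V x * phi V n x)) = -ep V (n + 1) := by
      have := av_smul (-1) (fun x => V x * phi V n x)
      simp only [neg_one_mul] at this
      rw [this]
      rfl
    have e2 : av (fun x => ∑ k : Fin n, ep V (k + 1) * phi V (n - k) x) = 0 := by
      unfold av
      rw [Finset.sum_comm]
      rw [Finset.sum_eq_zero, zero_div]
      intro k _
      rw [← Finset.mul_sum]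
      have hk := k.2
      obtain ⟨m, hm⟩ : ∃ m, n - k = m + 1 := ⟨n - k - 1, by omega⟩
      rw [hm, sum_phi, mul_zero]
    rw [e1, e2, add_zero]
  rw [h1]
  ring

/-- the series of the ground state -/
noncomputable def psi (V : T d L → ℝ) (x : T d L) : PowerSeries ℝ := mk fun n => phi V n x

/-- the series of the energy -/
noncomputable def Ep (V : T d L → ℝ) : PowerSeries ℝ := mk (ep V)

theorem coeff_psi (V : T d L → ℝ) (x : T d L) (n : ℕ) : coeff n (psi V x) = phi V n x := by
  unfold psi
  rw [PowerSeries.coeff_mk]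

theorem coeff_Ep (V : T d L → ℝ) (n : ℕ) : coeff n (Ep V) = ep V n := by
  unfold Ep
  rw [PowerSeries.coeff_mk]

section ring

variable {R : Type} [CommRing R]

/-- the weighted Laplacian over a ring -/
def LA (c : T d L → Fin d → R) (v : T d L → R) (x : T d L) : R :=
  ∑ i, (c (x - Pi.single i 1) i * (v x - v (x - Pi.single i 1)) -
    c x i * (v (x + Pi.single i 1) - v x))

theorem shiftR (f : T d L → R) (a : T d L) : ∑ x, f (x + a) = ∑ x, f x :=
  Fintype.sum_equiv (Equiv.addRight a) _ _ fun _ => rfl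

theorem la_parts (c : T d L → Fin d → R) (u v : T d L → R) :
    ∑ x, u x * LA c v x = ∑ x, ∑ i, c x i * ((u (x + Pi.single i 1) - u x) *
      (v (x + Pi.single i 1) - v x)) := by
  have h1 : ∑ x, u x * LA c v x = ∑ i : Fin d, ∑ x : T d L,
      (u x * (c (x - Pi.single i 1) i * (v x - v (x - Pi.single i 1))) -
        u x * (c x i * (v (x + Pi.single i 1) - v x))) := by
    rw [Finset.sum_comm]
    unfold LA
    refine Finset.sum_congr rfl fun x _ => ?_
    rw [Finset.mul_sum]
    exact Finset.sum_congr rfl fun i _ => by ring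
  rw [h1]
  refine Eq.trans ?_ Finset.sum_comm
  refine Finset.sum_congr rfl fun i _ => ?_
  rw [Finset.sum_sub_distrib]
  have h2 : ∑ x : T d L, u x * (c (x - Pi.single i 1) i * (v x - v (x - Pi.single i 1))) =
      ∑ x : T d L, u (x + Pi.single i 1) * (c x i * (v (x + Pi.single i 1) - v x)) := by
    refine Eq.trans (shiftR (fun x : T d L => u x * (c (x - Pi.single i 1) i *
      (v x - v (x - Pi.single i 1)))) (Pi.single i 1)).symm ?_
    refine Finset.sum_congr rfl fun x _ => ?_
    rw [add_sub_cancel_right]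
  rw [h2, ← Finset.sum_sub_distrib]
  exact Finset.sum_congr rfl fun x _ => by ring

theorem la_symm (c : T d L → Fin d → R) (u v : T d L → R) :
    ∑ x, u x * LA c v x = ∑ x, v x * LA c u x := by
  rw [la_parts, la_parts]
  exact Finset.sum_congr rfl fun x _ => Finset.sum_congr rfl fun i _ => by ring

theorem la_sum (c : T d L → Fin d → R) (v : T d L → R) : ∑ x, LA c v x = 0 := by
  have h := la_parts c (fun _ => 1) v
  simp only [one_mul, sub_self, zero_mul, mul_zero, Finset.sum_const_zero] at h
  exact h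

/-- the ground state transformation -/
theorem la_trans (ψ ψ' g : T d L → R) (r : R) (h : ∀ x, ψ' x = ψ x * (1 + r * g x)) (x : T d L) :
    r * LA (fun y i => ψ y * ψ (y + Pi.single i 1)) g x =
      ψ x * LA (fun _ _ => 1) ψ' x - ψ' x * LA (fun _ _ => 1) ψ x := by
  unfold LA
  rw [Finset.mul_sum, Finset.mul_sum, Finset.mul_sum, ← Finset.sum_sub_distrib]
  refine Finset.sum_congr rfl fun i _ => ?_
  beta_reduce
  rw [sub_add_cancel, h x, h (x + Pi.single i 1), h (x - Pi.single i 1)]
  ring

theorem la_smul (c : T d L → Fin d → R) (r : R) (v : T d L → R) (x : T d L) :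
    LA c (fun y => r * v y) x = r * LA c v x := by
  unfold LA
  rw [Finset.mul_sum]
  exact Finset.sum_congr rfl fun i _ => by ring

end ring

/-- the equation -/
theorem eqn (V : T d L → ℝ) (x : T d L) :
    LA (fun _ _ => 1) (psi V) x = (Ep V - X * C (V x)) * psi V x := by
  ext n
  have hl : coeff n (LA (fun _ _ => (1 : PowerSeries ℝ)) (psi V) x) = Al (phi V n) x := by
    unfold LA Al dv gd
    rw [map_sum]
    refine Finset.sum_congr rfl fun i _ => ?_
    rw [one_mul, one_mul, map_sub, map_sub, map_sub, coeff_psi, coeff_psi, coeff_psi,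
      sub_add_cancel]
  rw [hl, sub_mul, map_sub, mul_assoc, PowerSeries.coeff_mul (φ := Ep V)]
  rcases n with - | n
  · rw [PowerSeries.coeff_zero_X_mul]
    have e1 : phi V 0 = fun _ => (1 : ℝ) := funext fun y => phi_zero V y
    rw [e1, al_const]
    simp [coeff_Ep, ep]
  · have e0 : ∑ p ∈ Finset.HasAntidiagonal.antidiagonal (n + 1),
        coeff p.1 (Ep V) * coeff p.2 (psi V x) =
        ∑ k ∈ Finset.range (n + 1), ep V (k + 1) * phi V (n - k) x := by
      rw [Finset.Nat.sum_antidiagonal_eq_sum_range_succ_mk, Finset.sum_range_succ']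
      simp only [coeff_Ep, coeff_psi]
      have e1 : ep V 0 = 0 := rfl
      rw [e1, zero_mul, add_zero]
      exact Finset.sum_congr rfl fun k _ => by rw [Nat.add_sub_add_right]
    rw [e0, PowerSeries.coeff_succ_X_mul, PowerSeries.coeff_C_mul, coeff_psi, al_phi]
    ring

theorem psi_sum (V : T d L → ℝ) : ∑ x, psi V x = C (NS d L) := by
  ext n
  rw [map_sum]
  simp only [coeff_psi]
  rcases n with - | n
  · simp only [phi_zero]
    rw [sum_const', mul_one]
    simp
  · rw [sum_phi, PowerSeries.coeff_C]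
    simp

theorem psi_const (V : T d L → ℝ) (x : T d L) : PowerSeries.constantCoeff (psi V x) = 1 := by
  rw [← PowerSeries.coeff_zero_eq_constantCoeff_apply, coeff_psi, phi_zero]

/-- the pinned kernel of a weighted Laplacian with conductances `1 + ∑ c k X^k` -/
noncomputable def hk (c : ℕ → T d L → Fin d → ℝ) (z : T d L) : ℕ → T d L → ℝ
  | 0 => Gz z
  | (n + 1) => Gr (fun x => -dv (fun y i => ∑ k : Fin (n + 1), c (k + 1) y i *
      gd (hk c z (n - k)) y i) x)
termination_by n => n
decreasing_by
  omega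

theorem hk_zero (c : ℕ → T d L → Fin d → ℝ) (z : T d L) : hk c z 0 = Gz z := by
  rw [hk]

theorem hk_succ (c : ℕ → T d L → Fin d → ℝ) (z : T d L) (n : ℕ) : hk c z (n + 1) =
    Gr (fun x => -dv (fun y i => ∑ k ∈ Finset.range (n + 1), c (k + 1) y i *
      gd (hk c z (n - k)) y i) x) := by
  rw [hk]
  congr 1
  funext x
  congr 2
  funext y i
  rw [Finset.sum_range (fun k => c (k + 1) y i * gd (hk c z (n - k)) y i)]

theorem sum_hk (c : ℕ → T d L → Fin d → ℝ) (z : T d L) (n : ℕ) : ∑ x, hk c z n x = 0 := by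
  rcases n with - | n
  · rw [hk_zero]
    exact sum_Gr _
  · rw [hk_succ]
    exact sum_Gr _

theorem al_hk (c : ℕ → T d L → Fin d → ℝ) (z : T d L) (n : ℕ) (x : T d L) :
    Al (hk c z (n + 1)) x = dv (fun y i => -∑ k ∈ Finset.range (n + 1), c (k + 1) y i *
      gd (hk c z (n - k)) y i) x := by
  rw [hk_succ, al_Gr]
  obtain ⟨F, hF⟩ : ∃ F : T d L → Fin d → ℝ, F = fun y i => ∑ k ∈ Finset.range (n + 1),
    c (k + 1) y i * gd (hk c z (n - k)) y i := ⟨_, rfl⟩
  rw [← hF]
  have h1 : av (fun x => -dv F x) = 0 := by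
    unfold av
    rw [Finset.sum_neg_distrib, sum_dv, neg_zero, zero_div]
  rw [h1, sub_zero]
  have h2 : (fun (y : T d L) (i : Fin d) => -∑ k ∈ Finset.range (n + 1), c (k + 1) y i *
      gd (hk c z (n - k)) y i) = fun y i => -F y i := by
    rw [hF]
  rw [h2]
  unfold dv
  rw [← Finset.sum_neg_distrib]
  exact Finset.sum_congr rfl fun i _ => by ring

/-- the series of the pinned kernel -/
noncomputable def hs (c : ℕ → T d L → Fin d → ℝ) (z x : T d L) : PowerSeries ℝ :=
  mk fun n => hk c z n x

theorem coeff_hs (c : ℕ → T d L → Fin d → ℝ) (z x : T d L) (n : ℕ) :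
    coeff n (hs c z x) = hk c z n x := by
  unfold hs
  rw [PowerSeries.coeff_mk]

theorem hs_eqn (cc : T d L → Fin d → PowerSeries ℝ)
    (h0 : ∀ x i, coeff 0 (cc x i) = 1) (z x : T d L) :
    LA cc (hs (fun k x i => coeff k (cc x i)) z) x =
      C ((if x = z then 1 else 0) - 1 / NS d L) := by
  obtain ⟨c, hc⟩ : ∃ c : ℕ → T d L → Fin d → ℝ, c = fun k x i => coeff k (cc x i) := ⟨_, rfl⟩
  rw [← hc]
  have hcc : ∀ k y i, coeff k (cc y i) = c k y i := fun k y i => by rw [hc]
  ext n
  have h1 : coeff n (LA cc (hs c z) x) = dv (fun y i => ∑ p ∈ Finset.HasAntidiagonal.antidiagonal n,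
      c p.1 y i * gd (hk c z p.2) y i) x := by
    unfold LA dv gd
    rw [map_sum]
    refine Finset.sum_congr rfl fun i _ => ?_
    beta_reduce
    rw [map_sub, PowerSeries.coeff_mul, PowerSeries.coeff_mul, sub_add_cancel]
    simp only [map_sub, coeff_hs, hcc]
  rw [h1]
  rcases n with - | n
  · simp only [Finset.Nat.antidiagonal_zero, Finset.sum_singleton]
    have e1 : (fun (y : T d L) (i : Fin d) => c 0 y i * gd (hk c z 0) y i) = gd (Gz z) := by
      funext y i
      rw [hc]
      beta_reduce
      rw [h0, one_mul, hk_zero]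
    rw [e1]
    have e2 := al_Gz z x
    unfold Al at e2
    rw [e2]
    simp
  · have e1 : ∀ (y : T d L) (i : Fin d), ∑ p ∈ Finset.HasAntidiagonal.antidiagonal (n + 1),
        c p.1 y i * gd (hk c z p.2) y i = gd (hk c z (n + 1)) y i +
          ∑ k ∈ Finset.range (n + 1), c (k + 1) y i * gd (hk c z (n - k)) y i := by
      intro y i
      rw [Finset.Nat.sum_antidiagonal_eq_sum_range_succ_mk, Finset.sum_range_succ']
      simp only [Nat.sub_zero]
      have e2 : c 0 y i = 1 := by rw [hc]; exact h0 y i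
      rw [e2, one_mul, add_comm]
      congr 1
      exact Finset.sum_congr rfl fun k _ => by rw [Nat.add_sub_add_right]
    simp only [e1]
    have e2 : dv (fun (y : T d L) (i : Fin d) => gd (hk c z (n + 1)) y i +
        ∑ k ∈ Finset.range (n + 1), c (k + 1) y i * gd (hk c z (n - k)) y i) x =
        Al (hk c z (n + 1)) x - dv (fun y i => -∑ k ∈ Finset.range (n + 1), c (k + 1) y i *
          gd (hk c z (n - k)) y i) x := by
      unfold Al dv
      rw [← Finset.sum_sub_distrib]
      exact Finset.sum_congr rfl fun i _ => by ring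
    rw [e2, al_hk, sub_self, PowerSeries.coeff_C]
    simp

/-- representation of the solution by the pinned kernel -/
theorem repr (cc : T d L → Fin d → PowerSeries ℝ)
    (h0 : ∀ x i, coeff 0 (cc x i) = 1) (z : T d L) (g : T d L → PowerSeries ℝ) :
    g z - C (1 / NS d L) * ∑ x, g x =
      ∑ x, hs (fun k x i => coeff k (cc x i)) z x * LA cc g x := by
  rw [la_symm]
  simp only [hs_eqn cc h0 z, map_sub, mul_sub]
  rw [Finset.sum_sub_distrib, ← Finset.sum_mul]
  have : ∀ x : T d L, g x * C (if x = z then (1 : ℝ) else 0) = if x = z then g x else 0 := by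
    intro x
    split_ifs <;> simp
  simp only [this]
  rw [Finset.sum_ite_eq' Finset.univ z g, if_pos (Finset.mem_univ z)]
  ring

end Pool.Agent.Y661.EX
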