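import Pool.Agent.Y661.EX.Mom

/-! All moments of the correctors grow slower than any power of the side. -/

set_option autoImplicit false
set_option linter.unusedSectionVars false

open scoped BigOperators
open MeasureTheory

namespace Pool.Agent.Y661.EX

open Pool.Agent.H4R2.AE (T)
open Pool.Agent.H4R2.AE.Conc (PP QQ sel sw mp_sel mp_sw int_mp meas_sel meas_sw sel_single)

/-- all moments of the correctors up to order `n` are bounded by small powers of the side -/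
def MomN (d : ℕ) (μ : Measure ℝ) (n : ℕ) : Prop :=
  ∀ (p : ℕ) (ε : ℝ), 0 < ε → ∃ C : ℝ, 0 ≤ C ∧ ∀ (L : ℕ) [NeZero L], 26 * d ≤ L → ∀ k ≤ n,
    ∀ x : T d L, ∫ V, |phi V k x| ^ p ∂(PP (T d L) μ) ≤ C * (L : ℝ) ^ ε

theorem one_le_L (L : ℕ) [NeZero L] : (1 : ℝ) ≤ L := by
  exact_mod_cast Nat.one_le_iff_ne_zero.2 (NeZero.ne L)

variable (μ : Measure ℝ) [IsProbabilityMeasure μ] (hμ : ∀ n : ℕ, Integrable (fun t : ℝ => |t| ^ n) μ)

include hμ

theorem pair_int {d L : ℕ} [NeZero L] (r : ℕ) (y : T d L) :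
    ∫ θ, |(θ y).2 - (θ y).1| ^ r ∂(QQ (T d L) μ) ≤ 2 ^ r * (2 * ∫ t, |t| ^ r ∂μ) := by
  have p1 := pb_pow Wb Wb_ge (pb_abs Wb Wb_ge (pb_fst (d := d) (L := L) y)) r
  have p2 := pb_pow Wb Wb_ge (pb_abs Wb Wb_ge (pb_snd (d := d) (L := L) y)) r
  have h1 : ∫ θ, |(θ y).2 - (θ y).1| ^ r ∂(QQ (T d L) μ) ≤
      ∫ θ, 2 ^ r * (|(θ y).1| ^ r + |(θ y).2| ^ r) ∂(QQ (T d L) μ) := by
    apply integral_mono
    · exact pb_int2 μ hμ (pb_pow Wb Wb_ge (pb_abs Wb Wb_ge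
        (pb_sub Wb Wb_ge (pb_snd y) (pb_fst y))) r)
    · exact ((pb_int2 μ hμ p1).add (pb_int2 μ hμ p2)).const_mul _
    · intro θ
      beta_reduce
      obtain ⟨a, ha⟩ : ∃ a, a = (θ y).1 := ⟨_, rfl⟩
      obtain ⟨b, hb⟩ : ∃ b, b = (θ y).2 := ⟨_, rfl⟩
      rw [← ha, ← hb]
      have h0 : |b - a| ≤ |b| + |a| := abs_sub b a
      have ha0 := abs_nonneg a
      have hb0 := abs_nonneg b
      have e1 : |b - a| ≤ 2 * max |a| |b| := by
        have := le_max_left |a| |b|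
        have := le_max_right |a| |b|
        linarith
      have e2 : |b - a| ^ r ≤ (2 * max |a| |b|) ^ r := pow_le_pow_left₀ (abs_nonneg _) e1 r
      refine e2.trans ?_
      rw [mul_pow]
      apply mul_le_mul_of_nonneg_left _ (by positivity)
      rcases max_choice |a| |b| with h | h
      · rw [h]
        have : 0 ≤ |b| ^ r := by positivity
        linarith
      · rw [h]
        have : 0 ≤ |a| ^ r := by positivity
        linarith
  refine h1.trans (le_of_eq ?_)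
  rw [integral_const_mul, integral_add (pb_int2 μ hμ p1) (pb_int2 μ hμ p2)]
  have hev : ∀ S : Finset (T d L), ∫ θ, |sel S θ y| ^ r ∂(QQ (T d L) μ) = ∫ t, |t| ^ r ∂μ := by
    intro S
    have e1 := int_mp (mp_sel μ S) (g := fun V : T d L → ℝ => |V y| ^ r) (by fun_prop)
    have e2 := int_mp (measurePreserving_eval (fun _ : T d L => μ) y)
      (g := fun t : ℝ => |t| ^ r) (by fun_prop)
    exact e1.trans e2
  have a1 := hev ∅
  have a2 := hev Finset.univ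
  simp only [sel, Finset.notMem_empty, if_false, Finset.mem_univ, if_true] at a1 a2
  rw [a1, a2]
  ring

theorem sel_phi_int {d L : ℕ} [NeZero L] (r k : ℕ) (x : T d L) (S : Finset (T d L)) :
    ∫ θ, |phi (sel S θ) k x| ^ r ∂(QQ (T d L) μ) = ∫ V, |phi V k x| ^ r ∂(PP (T d L) μ) :=
  int_mp (mp_sel μ S) (g := fun V : T d L → ℝ => |phi V k x| ^ r)
    ((pb_phi k x).1.abs.pow r).measurable

theorem It_int (d n : ℕ) (h : MomN d μ n) (r : ℕ) : ∃ C : ℝ, 0 ≤ C ∧ ∀ (L : ℕ) [NeZero L],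
    26 * d ≤ L → ∫ θ : T d L → ℝ × ℝ, (1 + It n r θ) ∂(QQ (T d L) μ) ≤
      C * (L : ℝ) ^ (2 * d + 1) := by
  obtain ⟨C, hC, h1⟩ := h r 1 one_pos
  obtain ⟨c, hc⟩ : ∃ c : ℝ, c = 2 ^ r * (2 * ∫ t, |t| ^ r ∂μ) := ⟨_, rfl⟩
  have hc0 : 0 ≤ c := by
    rw [hc]
    have : 0 ≤ ∫ t, |t| ^ r ∂μ := integral_nonneg fun t => by positivity
    positivity
  have hn0 : (0 : ℝ) ≤ n := Nat.cast_nonneg n
  refine ⟨1 + (n + 1) * C + (n + 1) * C + c, by positivity, ?_⟩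
  intro L _ hL
  have hL1 := one_le_L L
  have hL0 : (0 : ℝ) < L := by linarith
  have i1 : ∀ k ∈ Finset.range (n + 1), Integrable
      (fun θ : T d L → ℝ × ℝ => ∑ x, |phi (sel ∅ θ) k x| ^ r) (QQ (T d L) μ) := fun k _ =>
    pb_int2 μ hμ (pb_sum Wb Wb_ge _ fun x _ => pb_pow Wb Wb_ge (pb_abs Wb Wb_ge
      (pb_phi_sel k x ∅)) r)
  have i2 : ∀ k ∈ Finset.range (n + 1), Integrable
      (fun θ : T d L → ℝ × ℝ => ∑ y, ∑ x, |phi (sel {y} θ) k x| ^ r) (QQ (T d L) μ) := fun k _ =>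
    pb_int2 μ hμ (pb_sum Wb Wb_ge _ fun y _ => pb_sum Wb Wb_ge _ fun x _ =>
      pb_pow Wb Wb_ge (pb_abs Wb Wb_ge (pb_phi_sel k x {y})) r)
  have i3 : ∀ y ∈ (Finset.univ : Finset (T d L)), Integrable
      (fun θ : T d L → ℝ × ℝ => |(θ y).2 - (θ y).1| ^ r) (QQ (T d L) μ) := fun y _ =>
    pb_int2 μ hμ (pb_pow Wb Wb_ge (pb_abs Wb Wb_ge (pb_sub Wb Wb_ge (pb_snd y) (pb_fst y))) r)
  have e0 : ∫ θ : T d L → ℝ × ℝ, (1 + It n r θ) ∂(QQ (T d L) μ) =
      1 + (∑ k ∈ Finset.range (n + 1), ∫ θ : T d L → ℝ × ℝ, ∑ x, |phi (sel ∅ θ) k x| ^ r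
        ∂(QQ (T d L) μ) + ∑ k ∈ Finset.range (n + 1), ∫ θ : T d L → ℝ × ℝ, ∑ y, ∑ x,
          |phi (sel {y} θ) k x| ^ r ∂(QQ (T d L) μ) +
        ∑ y : T d L, ∫ θ : T d L → ℝ × ℝ, |(θ y).2 - (θ y).1| ^ r ∂(QQ (T d L) μ)) := by
    rw [integral_add (integrable_const _) (pb_int2 μ hμ (pb_It n r))]
    unfold It
    have j1 := integrable_finset_sum _ i1
    have j2 := integrable_finset_sum _ i2
    have j3 := integrable_finset_sum _ i3
    have j12 : Integrable (fun θ : T d L → ℝ × ℝ =>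
        (∑ k ∈ Finset.range (n + 1), ∑ x, |phi (sel ∅ θ) k x| ^ r) +
        ∑ k ∈ Finset.range (n + 1), ∑ y, ∑ x, |phi (sel {y} θ) k x| ^ r)
        (QQ (T d L) μ) := j1.add j2
    rw [integral_add j12 j3, integral_add j1 j2, integral_finset_sum _ i1,
      integral_finset_sum _ i2, integral_finset_sum _ i3]
    simp
  have hN : NS d L = (L : ℝ) ^ d := NS_eq
  have hN0 := NS_pos (d := d) (L := L)
  have hrp : (L : ℝ) ^ (1 : ℝ) = L := Real.rpow_one _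
  have b1 : ∀ k ∈ Finset.range (n + 1), ∫ θ : T d L → ℝ × ℝ, ∑ x, |phi (sel ∅ θ) k x| ^ r
      ∂(QQ (T d L) μ) ≤ NS d L * (C * L) := by
    intro k hk
    rw [Finset.mem_range] at hk
    rw [integral_finset_sum _ fun x _ => pb_int2 μ hμ (pb_pow Wb Wb_ge (pb_abs Wb Wb_ge
      (pb_phi_sel k x ∅)) r), ← sum_const' (d := d) (L := L)]
    refine Finset.sum_le_sum fun x _ => ?_
    rw [sel_phi_int μ hμ]
    have := h1 L hL k (by omega) x
    rwa [hrp] at this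
  have b2 : ∀ k ∈ Finset.range (n + 1), ∫ θ : T d L → ℝ × ℝ, ∑ y, ∑ x,
      |phi (sel {y} θ) k x| ^ r ∂(QQ (T d L) μ) ≤ NS d L * (NS d L * (C * L)) := by
    intro k hk
    rw [Finset.mem_range] at hk
    rw [integral_finset_sum _ fun y _ => pb_int2 μ hμ (pb_sum Wb Wb_ge _ fun x _ =>
      pb_pow Wb Wb_ge (pb_abs Wb Wb_ge (pb_phi_sel k x {y})) r), ← sum_const' (d := d) (L := L)]
    refine Finset.sum_le_sum fun y _ => ?_
    rw [integral_finset_sum _ fun x _ => pb_int2 μ hμ (pb_pow Wb Wb_ge (pb_abs Wb Wb_ge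
      (pb_phi_sel k x {y})) r), ← sum_const' (d := d) (L := L)]
    refine Finset.sum_le_sum fun x _ => ?_
    rw [sel_phi_int μ hμ]
    have := h1 L hL k (by omega) x
    rwa [hrp] at this
  have b3 : ∑ y : T d L, ∫ θ : T d L → ℝ × ℝ, |(θ y).2 - (θ y).1| ^ r ∂(QQ (T d L) μ) ≤
      NS d L * c := by
    rw [← sum_const' (d := d) (L := L)]
    refine Finset.sum_le_sum fun y _ => ?_
    rw [hc]
    exact pair_int μ hμ r y
  have c1 := Finset.sum_le_sum b1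
  have c2 := Finset.sum_le_sum b2
  rw [Finset.sum_const, Finset.card_range, nsmul_eq_mul] at c1 c2
  push_cast at c1 c2
  rw [e0]
  have p1 : (1 : ℝ) ≤ (L : ℝ) ^ (2 * d + 1) := one_le_pow₀ hL1
  have p2 : NS d L * L ≤ (L : ℝ) ^ (2 * d + 1) := by
    rw [hN, ← pow_succ]
    exact pow_le_pow_right₀ hL1 (by omega)
  have p3 : NS d L * (NS d L * L) = (L : ℝ) ^ (2 * d + 1) := by
    rw [hN]
    ring
  have p4 : NS d L ≤ (L : ℝ) ^ (2 * d + 1) := by
    rw [hN]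
    exact pow_le_pow_right₀ hL1 (by omega)
  have q1 : ((n : ℝ) + 1) * (NS d L * (C * L)) ≤ (n + 1) * C * (L : ℝ) ^ (2 * d + 1) := by
    calc ((n : ℝ) + 1) * (NS d L * (C * L)) = (n + 1) * C * (NS d L * L) := by ring
      _ ≤ _ := by gcongr
  have q2 : ((n : ℝ) + 1) * (NS d L * (NS d L * (C * L))) = (n + 1) * C * (L : ℝ) ^ (2 * d + 1) := by
    rw [← p3]
    ring
  have q3 : NS d L * c ≤ c * (L : ℝ) ^ (2 * d + 1) := by
    rw [mul_comm]
    gcongr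
  linarith

/-- quantities bounded by a power of the dominating number have small expectations -/
theorem dom_int (d n : ℕ) (h : MomN d μ n) (m : ℕ) (ε : ℝ) (hε : 0 < ε) : ∃ C : ℝ, 0 ≤ C ∧
    ∀ (L : ℕ) [NeZero L], 26 * d ≤ L → ∀ (X : (T d L → ℝ × ℝ) → ℝ) (A : ℝ), 0 ≤ A →
      PBg Wb X → (∀ θ S, Dom n θ S → X θ ≤ A * S ^ m) →
      ∫ θ, X θ ∂(QQ (T d L) μ) ≤ A * C * (L : ℝ) ^ ε := by
  obtain ⟨e, he⟩ : ∃ e : ℝ, e = ε / (m + 1) := ⟨_, rfl⟩
  have he0 : 0 < e := by rw [he]; positivity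
  obtain ⟨r, hr⟩ : ∃ r : ℕ, max (m : ℝ) ((2 * d + 1) / e) ≤ r := exists_nat_ge _
  have hrm : m ≤ r := by exact_mod_cast (le_max_left _ _).trans hr
  have hre : (2 * d + 1 : ℝ) ≤ e * r := by
    have := (le_max_right _ _).trans hr
    rw [div_le_iff₀ he0] at this
    linarith
  obtain ⟨C, hC, h1⟩ := It_int μ hμ d n h r
  refine ⟨1 + C, by positivity, ?_⟩
  intro L _ hL X A hA hX hXA
  have hL1 := one_le_L L
  have hL0 : (0 : ℝ) < L := by linarith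
  obtain ⟨l, hl⟩ : ∃ l : ℝ, l = (L : ℝ) ^ e := ⟨_, rfl⟩
  have hl1 : 1 ≤ l := by rw [hl]; exact Real.one_le_rpow hL1 he0.le
  have hl0 : 0 < l := by linarith
  have hlr : (L : ℝ) ^ (2 * d + 1) ≤ l ^ r := by
    rw [hl, ← Real.rpow_natCast, ← Real.rpow_natCast, ← Real.rpow_mul hL0.le]
    apply Real.rpow_le_rpow_of_exponent_le hL1
    push_cast
    exact hre
  have hlm : l ^ m ≤ (L : ℝ) ^ ε := by
    rw [hl, ← Real.rpow_natCast, ← Real.rpow_mul hL0.le]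
    apply Real.rpow_le_rpow_of_exponent_le hL1
    rw [he, div_mul_eq_mul_div, div_le_iff₀ (by positivity)]
    nlinarith
  have hpt : ∀ θ, X θ ≤ A * l ^ m * (1 + (l ^ r)⁻¹ * (1 + It n r θ)) := by
    intro θ
    obtain ⟨S, hS, hS2⟩ := exists_dom_It n θ
    have hS1 := hS.1
    have e1 : S ^ m ≤ l ^ m * (1 + (l ^ r)⁻¹ * S ^ r) := by
      rcases le_total S l with h2 | h2
      · have e2 : S ^ m ≤ l ^ m := pow_le_pow_left₀ (by linarith) h2 m
        have e3 : 0 ≤ (l ^ r)⁻¹ * S ^ r := by positivity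
        have e4 : 0 < l ^ m := by positivity
        nlinarith
      · have e2 : 1 ≤ S / l := by rwa [one_le_div hl0]
        have e3 : (S / l) ^ m ≤ (S / l) ^ r := pow_le_pow_right₀ e2 hrm
        rw [div_pow, div_pow, div_le_iff₀ (by positivity)] at e3
        have e4 : S ^ r / l ^ r * l ^ m = l ^ m * ((l ^ r)⁻¹ * S ^ r) := by
          field_simp
        have e5 : 0 < l ^ m := by positivity
        rw [e4] at e3
        linarith
    calc X θ ≤ A * S ^ m := hXA θ S hS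
      _ ≤ A * (l ^ m * (1 + (l ^ r)⁻¹ * S ^ r)) := by gcongr
      _ ≤ A * (l ^ m * (1 + (l ^ r)⁻¹ * (1 + It n r θ))) := by
          have := hS2 r
          gcongr
      _ = _ := by ring
  have hint : Integrable (fun θ : T d L → ℝ × ℝ => 1 + It n r θ) (QQ (T d L) μ) :=
    (integrable_const _).add (pb_int2 μ hμ (pb_It n r))
  calc ∫ θ, X θ ∂(QQ (T d L) μ) ≤
        ∫ θ, A * l ^ m * (1 + (l ^ r)⁻¹ * (1 + It n r θ)) ∂(QQ (T d L) μ) := by
        apply integral_mono (pb_int2 μ hμ hX)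
        · exact ((integrable_const _).add (hint.const_mul _)).const_mul _
        · exact hpt
    _ = A * l ^ m * (1 + (l ^ r)⁻¹ * ∫ θ : T d L → ℝ × ℝ, (1 + It n r θ) ∂(QQ (T d L) μ)) := by
        rw [integral_const_mul, integral_add (integrable_const _) (hint.const_mul _),
          integral_const_mul]
        simp
    _ ≤ A * l ^ m * (1 + (l ^ r)⁻¹ * (C * (L : ℝ) ^ (2 * d + 1))) := by
        have := h1 L hL
        gcongr
    _ ≤ A * l ^ m * (1 + (l ^ r)⁻¹ * (C * l ^ r)) := by gcongr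
    _ = A * (1 + C) * l ^ m := by
        field_simp
    _ ≤ A * (1 + C) * (L : ℝ) ^ ε := by gcongr

theorem pb_Vs {d L : ℕ} [NeZero L] (n : ℕ) (z : T d L) :
    PBg Wb (Vs (fun V => phi V n z)) :=
  pb_sum Wb Wb_ge _ fun j _ => pb_pow Wb Wb_ge
    (pb_sub Wb Wb_ge (pb_phi_sel n z ∅) (pb_phi_sel n z {j})) 2

/-- moments of the sum of squares of the single site differences -/
theorem Vs_int (d : ℕ) (hd : 4 ≤ d) (n : ℕ) (h : MomN d μ n) (p : ℕ) (ε : ℝ) (hε : 0 < ε) :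
    ∃ C : ℝ, 0 ≤ C ∧ ∀ (L : ℕ) [NeZero L], 26 * d ≤ L → ∀ z : T d L,
      ∫ θ, Vs (fun V => phi V (n + 1) z) θ ^ p ∂(QQ (T d L) μ) ≤ C * (L : ℝ) ^ ε := by
  obtain ⟨K, hK, hk⟩ := kern d hd
  obtain ⟨B, q, hB, hdiff⟩ := diff_dom K hK n
  obtain ⟨C1, hC1, hkern⟩ := hk (ε / (2 * (p + 1))) (by positivity)
  obtain ⟨C, hC, hdom⟩ := dom_int μ hμ d n h (q * p) (ε / 2) (by positivity)
  refine ⟨(B * C1) ^ p * C, by positivity, ?_⟩
  intro L _ hL z
  have hL1 := one_le_L L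
  have hL0 : (0 : ℝ) < L := by linarith
  obtain ⟨l, hl⟩ : ∃ l : ℝ, l = (L : ℝ) ^ (ε / (2 * (p + 1))) := ⟨_, rfl⟩
  have hl0 : 0 < l := by rw [hl]; exact Real.rpow_pos_of_pos hL0 _
  have hlp : l ^ p ≤ (L : ℝ) ^ (ε / 2) := by
    rw [hl, ← Real.rpow_natCast, ← Real.rpow_mul hL0.le]
    apply Real.rpow_le_rpow_of_exponent_le hL1
    rw [div_mul_eq_mul_div, div_le_div_iff₀ (by positivity) (by norm_num)]
    nlinarith
  have h2 := hdom L hL (fun θ => Vs (fun V => phi V (n + 1) z) θ ^ p) ((B * (C1 * l)) ^ p)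
    (by positivity) (pb_pow Wb Wb_ge (pb_Vs μ hμ (n + 1) z) p) (fun θ S hS => by
      have h3 := (hdiff d L (C1 * l) (by rw [hl]; exact hkern L hL) θ S hS).1 z
      have h4 : 0 ≤ Vs (fun V => phi V (n + 1) z) θ := Finset.sum_nonneg fun j _ => sq_nonneg _
      refine (pow_le_pow_left₀ h4 h3 p).trans (le_of_eq ?_)
      rw [mul_pow, ← pow_mul])
  refine h2.trans ?_
  calc (B * (C1 * l)) ^ p * C * (L : ℝ) ^ (ε / 2) = (B * C1) ^ p * C * (l ^ p * (L : ℝ) ^ (ε / 2)) := by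
        rw [← mul_assoc B C1 l, mul_pow (B * C1) l]
        ring
    _ ≤ (B * C1) ^ p * C * ((L : ℝ) ^ (ε / 2) * (L : ℝ) ^ (ε / 2)) := by gcongr
    _ = (B * C1) ^ p * C * (L : ℝ) ^ ε := by
        rw [← Real.rpow_add hL0, add_halves]

theorem mom_step (d : ℕ) (hd : 4 ≤ d) (n : ℕ) (h : MomN d μ n) : MomN d μ (n + 1) := by
  -- dyadic moments
  have key : ∀ (k : ℕ) (ε : ℝ), 0 < ε → ∃ C : ℝ, 0 ≤ C ∧ ∀ (L : ℕ) [NeZero L], 26 * d ≤ L →
      ∀ z : T d L, ∫ V, (phi V (n + 1) z ^ 2) ^ (2 ^ k) ∂(PP (T d L) μ) ≤ C * (L : ℝ) ^ ε := by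
    intro k
    induction k with
    | zero =>
      intro ε hε
      obtain ⟨C, hC, h1⟩ := Vs_int μ hμ d hd n h 1 ε hε
      refine ⟨2 * C, by positivity, ?_⟩
      intro L _ hL z
      have h2 := moment μ hμ (fun V => phi V (n + 1) z) (pb_phi (n + 1) z) 0
      have h3 := h1 L hL z
      simp only [zero_add, pow_one, Nat.cast_zero, pow_zero, one_pow, mul_one] at h2 h3
      rw [phi_mean μ hμ n z] at h2
      simp only [pow_zero, pow_one]
      linarith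
    | succ k ih =>
      intro ε hε
      obtain ⟨p, hp⟩ : ∃ p : ℕ, 2 ^ (k + 1) = p + 1 :=
        ⟨2 ^ (k + 1) - 1, by have := Nat.one_le_two_pow (n := k + 1); omega⟩
      obtain ⟨C, hC, h1⟩ := Vs_int μ hμ d hd n h (p + 1) ε hε
      obtain ⟨C', hC', h2⟩ := ih (ε / 2) (by positivity)
      refine ⟨2 * C' ^ 2 + 2 * (((p : ℝ) + 1) ^ 2 * (2 * ((p : ℝ) + 1) ^ 2) ^ p) * C,
        by positivity, ?_⟩
      intro L _ hL z
      have hL0 : (0 : ℝ) < L := by linarith [one_le_L L]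
      have h3 := moment μ hμ (fun V => phi V (n + 1) z) (pb_phi (n + 1) z) p
      have h4 := h1 L hL z
      have h5 := h2 L hL z
      have h6 : ∫ V, phi V (n + 1) z ^ (p + 1) ∂(PP (T d L) μ) =
          ∫ V, (phi V (n + 1) z ^ 2) ^ (2 ^ k) ∂(PP (T d L) μ) := by
        apply integral_congr_ae
        refine Filter.Eventually.of_forall fun V => ?_
        beta_reduce
        rw [← pow_mul, ← hp, pow_succ, mul_comm 2]
      have h7 : 0 ≤ ∫ V, (phi V (n + 1) z ^ 2) ^ (2 ^ k) ∂(PP (T d L) μ) :=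
        integral_nonneg fun V => by positivity
      have h8 : (∫ V, phi V (n + 1) z ^ (p + 1) ∂(PP (T d L) μ)) ^ 2 ≤ C' ^ 2 * (L : ℝ) ^ ε := by
        rw [h6]
        calc (∫ V, (phi V (n + 1) z ^ 2) ^ (2 ^ k) ∂(PP (T d L) μ)) ^ 2 ≤
              (C' * (L : ℝ) ^ (ε / 2)) ^ 2 := pow_le_pow_left₀ h7 h5 2
          _ = C' ^ 2 * ((L : ℝ) ^ (ε / 2) * (L : ℝ) ^ (ε / 2)) := by ring
          _ = _ := by rw [← Real.rpow_add hL0, add_halves]
      rw [hp]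
      refine h3.trans ?_
      have h9 : 2 * (((p : ℝ) + 1) ^ 2 * (2 * ((p : ℝ) + 1) ^ 2) ^ p) *
          ∫ θ, Vs (fun V => phi V (n + 1) z) θ ^ (p + 1) ∂(QQ (T d L) μ) ≤
          2 * (((p : ℝ) + 1) ^ 2 * (2 * ((p : ℝ) + 1) ^ 2) ^ p) * (C * (L : ℝ) ^ ε) := by gcongr
      linarith
  intro p ε hε
  obtain ⟨C1, hC1, h1⟩ := h p ε hε
  obtain ⟨C2, hC2, h2⟩ := key p ε hε
  refine ⟨C1 + (1 + C2), by positivity, ?_⟩
  intro L _ hL k hk x
  have hL1 := one_le_L L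
  have hLe : 1 ≤ (L : ℝ) ^ ε := Real.one_le_rpow hL1 hε.le
  rcases Nat.lt_or_ge n k with hnk | hnk
  · have hk1 : k = n + 1 := by omega
    subst hk1
    have h3 : ∫ V, |phi V (n + 1) x| ^ p ∂(PP (T d L) μ) ≤
        ∫ V, (1 + (phi V (n + 1) x ^ 2) ^ (2 ^ p)) ∂(PP (T d L) μ) := by
      apply integral_mono
      · exact pb_int μ hμ (pb_pow Wa Wa_ge (pb_abs Wa Wa_ge (pb_phi (n + 1) x)) p)
      · exact (integrable_const _).add (pb_int μ hμ (pb_pow Wa Wa_ge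
          (pb_pow Wa Wa_ge (pb_phi (n + 1) x) 2) _))
      · intro V
        beta_reduce
        obtain ⟨a, ha⟩ : ∃ a, a = |phi V (n + 1) x| := ⟨_, rfl⟩
        have ha0 : 0 ≤ a := by rw [ha]; exact abs_nonneg _
        rw [← sq_abs, ← ha, ← pow_mul]
        rcases le_total a 1 with h4 | h4
        · have e1 : a ^ p ≤ 1 := pow_le_one₀ ha0 h4
          have e2 : 0 ≤ a ^ (2 * 2 ^ p) := by positivity
          linarith
        · have e1 : a ^ p ≤ a ^ (2 * 2 ^ p) := pow_le_pow_right₀ h4 (by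
            have := Nat.lt_two_pow_self (n := p)
            omega)
          linarith
    refine h3.trans ?_
    rw [integral_add (integrable_const _) (pb_int μ hμ (pb_pow Wa Wa_ge
          (pb_pow Wa Wa_ge (pb_phi (n + 1) x) 2) _))]
    have h5 := h2 L hL x
    have h6 : ∫ _V : T d L → ℝ, (1 : ℝ) ∂(PP (T d L) μ) = 1 := by simp
    rw [h6]
    nlinarith
  · have h3 := h1 L hL k hnk x
    nlinarith

theorem mom_all (d : ℕ) (hd : 4 ≤ d) (n : ℕ) : MomN d μ n := by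
  induction n with
  | zero =>
    intro p ε hε
    refine ⟨1, zero_le_one, ?_⟩
    intro L _ _ k hk x
    have hk0 : k = 0 := by omega
    subst hk0
    simp only [phi_zero, abs_one, one_pow]
    have h6 : ∫ _V : T d L → ℝ, (1 : ℝ) ∂(PP (T d L) μ) = 1 := by simp
    rw [h6, one_mul]
    exact Real.one_le_rpow (one_le_L L) hε.le
  | succ n ih => exact mom_step μ hμ d hd n ih

/-- the variance of the coefficients of the energy -/
theorem ep_var (d : ℕ) (hd : 4 ≤ d) (n : ℕ) (ε : ℝ) (hε : 0 < ε) : ∃ C : ℝ, 0 ≤ C ∧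
    ∀ (L : ℕ) [NeZero L], 26 * d ≤ L →
      ∫ V : T d L → ℝ, ep V (n + 1) ^ 2 ∂(PP (T d L) μ) -
        (∫ V : T d L → ℝ, ep V (n + 1) ∂(PP (T d L) μ)) ^ 2 ≤ C * (L : ℝ) ^ ε / NS d L := by
  obtain ⟨K, hK, hk⟩ := kern d hd
  obtain ⟨B, q, hB, hdiff⟩ := diff_dom K hK n
  obtain ⟨C1, hC1, hkern⟩ := hk 1 one_pos
  obtain ⟨C, hC, hdom⟩ := dom_int μ hμ d n (mom_all μ hμ d hd n) (q * 2) ε hε
  refine ⟨B ^ 2 * C, by positivity, ?_⟩
  intro L _ hL
  have hN := NS_pos (d := d) (L := L)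
  have h1 := efron μ hμ (fun V : T d L → ℝ => ep V (n + 1)) (pb_ep n)
  refine h1.trans ?_
  have h2 : ∀ j : T d L, ∫ θ, (ep (sel ∅ θ) (n + 1) - ep (sel {j} θ) (n + 1)) ^ 2
      ∂(QQ (T d L) μ) ≤ (B / NS d L) ^ 2 * C * (L : ℝ) ^ ε := by
    intro j
    apply hdom L hL _ _ (by positivity)
    · exact pb_pow Wb Wb_ge (pb_sub Wb Wb_ge (pb_sel (pb_ep n) ∅) (pb_sel (pb_ep n) {j})) 2
    · intro θ S hS
      have h3 := (hdiff d L _ (hkern L hL) θ S hS).2 j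
      have h4 : (ep (sel ∅ θ) (n + 1) - ep (sel {j} θ) (n + 1)) ^ 2 ≤ (B * S ^ q / NS d L) ^ 2 := by
        rw [← sq_abs, abs_sub_comm]
        exact pow_le_pow_left₀ (abs_nonneg _) h3 2
      refine h4.trans (le_of_eq ?_)
      rw [pow_mul]
      ring
  have h3 := Finset.sum_le_sum fun (j : T d L) (_ : j ∈ Finset.univ) => h2 j
  rw [sum_const'] at h3
  have hLe : 0 ≤ (L : ℝ) ^ ε := Real.rpow_nonneg (by linarith [one_le_L L]) _
  have h5 : NS d L * ((B / NS d L) ^ 2 * C * (L : ℝ) ^ ε) = B ^ 2 * C * (L : ℝ) ^ ε / NS d L := by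
    field_simp
  rw [h5] at h3
  have h6 : 0 ≤ B ^ 2 * C * (L : ℝ) ^ ε / NS d L := by positivity
  linarith

end Pool.Agent.Y661.EX
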