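import Pool.Agent.Y661.EX.Hardy
import Pool.Agent.H4R2.AE.Green

/-! Weighted estimates for the pseudo-inverse of the Laplacian on the torus. -/

set_option autoImplicit false
set_option linter.unusedSectionVars false

open scoped BigOperators

namespace Pool.Agent.Y661.EX

open Pool.Agent.H4R2.AE (T LapW GB)

variable {d L : ℕ} [NeZero L]

/-- the gradient -/
def gd (g : T d L → ℝ) (x : T d L) (i : Fin d) : ℝ := g (x + Pi.single i 1) - g x

/-- the (negative) divergence -/
def dv (F : T d L → Fin d → ℝ) (x : T d L) : ℝ := ∑ i, (F (x - Pi.single i 1) i - F x i)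

/-- the (positive) Laplacian -/
def Al (g : T d L → ℝ) (x : T d L) : ℝ := dv (gd g) x

theorem shift_sub (f : T d L → ℝ) (a : T d L) : ∑ x, f (x - a) = ∑ x, f x :=
  Fintype.sum_equiv (Equiv.subRight a) _ _ fun _ => rfl

theorem parts (g : T d L → ℝ) (F : T d L → Fin d → ℝ) :
    ∑ x, g x * dv F x = ∑ x, ∑ i, gd g x i * F x i := by
  have h1 : ∑ x, g x * dv F x = ∑ i : Fin d, ∑ x : T d L,
      (g x * F (x - Pi.single i 1) i - g x * F x i) := by
    rw [Finset.sum_comm]
    unfold dv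
    refine Finset.sum_congr rfl fun x _ => ?_
    rw [Finset.mul_sum]
    exact Finset.sum_congr rfl fun i _ => by ring
  have h2 : ∑ x, ∑ i, gd g x i * F x i = ∑ i : Fin d, ∑ x : T d L,
      (g (x + Pi.single i 1) * F x i - g x * F x i) := by
    rw [Finset.sum_comm]
    unfold gd
    exact Finset.sum_congr rfl fun i _ => Finset.sum_congr rfl fun x _ => by ring
  rw [h1, h2]
  refine Finset.sum_congr rfl fun i _ => ?_
  rw [Finset.sum_sub_distrib, Finset.sum_sub_distrib]
  congr 1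
  refine Eq.trans (shift_add (fun x : T d L => g x * F (x - Pi.single i 1) i)
    (Pi.single i 1)).symm ?_
  refine Finset.sum_congr rfl fun x _ => ?_
  rw [add_sub_cancel_right]

theorem sum_dv (F : T d L → Fin d → ℝ) : ∑ x, dv F x = 0 := by
  have h := parts (fun _ => 1) F
  simp only [one_mul, gd, sub_self, zero_mul, Finset.sum_const_zero] at h
  exact h

theorem gr_eq (g : T d L → ℝ) : gr g = ∑ x, ∑ i, gd g x i * gd g x i := by
  unfold gr gd
  exact Finset.sum_congr rfl fun x _ => Finset.sum_congr rfl fun i _ => by ring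

theorem al_parts (u v : T d L → ℝ) : ∑ x, u x * Al v x = ∑ x, ∑ i, gd u x i * gd v x i :=
  parts u (gd v)

theorem al_symm (u v : T d L → ℝ) : ∑ x, u x * Al v x = ∑ x, v x * Al u x := by
  rw [al_parts, al_parts]
  exact Finset.sum_congr rfl fun x _ => Finset.sum_congr rfl fun i _ => by ring

theorem gd_al (v : T d L → ℝ) (x : T d L) (i : Fin d) :
    Al (fun y => gd v y i) x = gd (Al v) x i := by
  unfold Al gd dv
  rw [← Finset.sum_sub_distrib]
  refine Finset.sum_congr rfl fun j _ => ?_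
  beta_reduce
  have e1 : x - Pi.single j (1 : ZMod L) + Pi.single j 1 = x := sub_add_cancel _ _
  have e2 : x - Pi.single j (1 : ZMod L) + Pi.single i 1 = x + Pi.single i 1 - Pi.single j 1 := by
    abel
  have e3 : x + Pi.single i (1 : ZMod L) - Pi.single j 1 + Pi.single j 1 = x + Pi.single i 1 :=
    sub_add_cancel _ _
  have e4 : x + Pi.single j (1 : ZMod L) + Pi.single i 1 = x + Pi.single i 1 + Pi.single j 1 := by
    abel
  rw [e1, e2, e3, e4]
  ring

theorem hess (v : T d L → ℝ) : ∑ i, gr (fun x => gd v x i) = ∑ x, Al v x ^ 2 := by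
  have h1 : ∀ i : Fin d, gr (fun x => gd v x i) = ∑ x, gd v x i * gd (Al v) x i := by
    intro i
    rw [gr_eq, ← al_parts]
    exact Finset.sum_congr rfl fun x _ => by rw [gd_al]
  rw [Finset.sum_congr rfl fun i _ => h1 i, Finset.sum_comm, ← al_parts v (Al v), al_symm]
  exact Finset.sum_congr rfl fun x _ => by ring

/-- the number of sites -/
noncomputable def NS (d L : ℕ) [NeZero L] : ℝ := (Fintype.card (T d L) : ℝ)

theorem NS_pos : 0 < NS d L := by
  unfold NS
  exact_mod_cast Fintype.card_pos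

theorem NS_eq : NS d L = (L : ℝ) ^ d := by
  unfold NS
  simp [Fintype.card_pi, ZMod.card]

/-- the average -/
noncomputable def av (f : T d L → ℝ) : ℝ := (∑ x, f x) / NS d L

theorem sum_const' (c : ℝ) : ∑ _x : T d L, c = NS d L * c := by
  rw [Finset.sum_const, Finset.card_univ, nsmul_eq_mul]
  rfl

theorem sum_sub_av (f : T d L → ℝ) : ∑ x, (f x - av f) = 0 := by
  rw [Finset.sum_sub_distrib, sum_const']
  unfold av
  rw [mul_div_cancel₀ _ NS_pos.ne', sub_self]

theorem al_add (f g : T d L → ℝ) (x : T d L) : Al (fun y => f y + g y) x = Al f x + Al g x := by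
  unfold Al dv gd
  rw [← Finset.sum_add_distrib]
  exact Finset.sum_congr rfl fun i _ => by ring

theorem al_smul (c : ℝ) (f : T d L → ℝ) (x : T d L) : Al (fun y => c * f y) x = c * Al f x := by
  unfold Al dv gd
  rw [Finset.mul_sum]
  exact Finset.sum_congr rfl fun i _ => by ring

theorem al_const (c : ℝ) (x : T d L) : Al (fun _ => c) x = 0 := by
  unfold Al dv gd
  simp

/-- the Laplacian plus the average -/
noncomputable def opA (d L : ℕ) [NeZero L] : (T d L → ℝ) →ₗ[ℝ] (T d L → ℝ) where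
  toFun f := fun x => Al f x + av f
  map_add' f g := by
    funext x
    have h := al_add f g x
    simp only [Pi.add_apply]
    rw [show (f + g) = fun y => f y + g y from rfl, h]
    unfold av
    rw [Finset.sum_add_distrib, add_div]
    ring
  map_smul' c f := by
    funext x
    have h := al_smul c f x
    simp only [Pi.smul_apply, smul_eq_mul, RingHom.id_apply]
    rw [show (c • f) = fun y => c * f y from rfl, h]
    unfold av
    rw [← Finset.mul_sum, mul_div_assoc]
    ring

theorem opA_inj : Function.Injective (opA d L) := by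
  rw [← LinearMap.ker_eq_bot, LinearMap.ker_eq_bot']
  intro f hf
  have h0 : ∀ x, Al f x + av f = 0 := fun x => congrFun hf x
  have h1 : ∑ x, (Al f x + av f) = 0 := by simp [h0]
  have h2 : av f = 0 := by
    rw [Finset.sum_add_distrib, show ∑ x, Al f x = 0 from sum_dv _, zero_add, sum_const'] at h1
    rcases mul_eq_zero.1 h1 with h | h
    · exact absurd h NS_pos.ne'
    · exact h
  have h3 : ∑ x, f x = 0 := by
    unfold av at h2
    rcases div_eq_zero_iff.1 h2 with h | h
    · exact h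
    · exact absurd h NS_pos.ne'
  have h4 := poin f h3
  have h5 : gr f = 0 := by
    rw [gr_eq, ← al_parts]
    refine Finset.sum_eq_zero fun x _ => ?_
    have := h0 x
    rw [h2, add_zero] at this
    rw [this, mul_zero]
  rw [h5, mul_zero] at h4
  funext x
  have h6 := (Finset.sum_eq_zero_iff_of_nonneg fun x _ => sq_nonneg (f x)).1
    (le_antisymm h4 (Finset.sum_nonneg fun x _ => sq_nonneg (f x))) x (Finset.mem_univ x)
  exact pow_eq_zero_iff (two_ne_zero) |>.1 h6

theorem opA_bij : Function.Bijective (opA d L) :=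
  ⟨opA_inj, LinearMap.injective_iff_surjective.1 opA_inj⟩

/-- the pseudo-inverse of the Laplacian -/
noncomputable def Gr (f : T d L → ℝ) : T d L → ℝ :=
  fun x => (LinearEquiv.ofBijective (opA d L) opA_bij).symm f x -
    av ((LinearEquiv.ofBijective (opA d L) opA_bij).symm f)

theorem sum_Gr (f : T d L → ℝ) : ∑ x, Gr f x = 0 := sum_sub_av _

theorem al_Gr (f : T d L → ℝ) (x : T d L) : Al (Gr f) x = f x - av f := by
  obtain ⟨g, hg⟩ : ∃ g, g = (LinearEquiv.ofBijective (opA d L) opA_bij).symm f := ⟨_, rfl⟩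
  have h1 : opA d L g = f := by
    rw [hg]
    exact (LinearEquiv.ofBijective (opA d L) opA_bij).apply_symm_apply f
  have h2 : ∀ x, Al g x + av g = f x := fun x => congrFun h1 x
  have h3 : av g = av f := by
    have h4 : ∑ x, (Al g x + av g) = ∑ x, f x := Finset.sum_congr rfl fun x _ => h2 x
    rw [Finset.sum_add_distrib, show ∑ x, Al g x = 0 from sum_dv _, zero_add, sum_const'] at h4
    unfold av at h4 ⊢
    rw [← h4, mul_div_cancel_left₀ _ NS_pos.ne']
  have h4 : Gr f = fun y => g y + (fun _ => -av g) y := by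
    funext y
    unfold Gr
    rw [← hg]
    ring
  rw [h4, al_add, al_const, add_zero, ← h3]
  linarith [h2 x]

theorem al_zero (v : T d L → ℝ) (h : ∀ x, Al v x = 0) (hs : ∑ x, v x = 0) : ∀ x, v x = 0 := by
  have h1 : opA d L v = 0 := by
    funext x
    show Al v x + av v = 0
    unfold av
    rw [h x, hs, zero_div, add_zero]
  have h2 := opA_inj (h1.trans (map_zero (opA d L)).symm)
  intro x
  rw [h2]
  rfl

theorem Gr_unique (f g : T d L → ℝ) (hs : ∑ x, g x = 0) (h : ∀ x, Al g x = f x - av f) :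
    g = Gr f := by
  have h1 : ∀ x, (fun y => g y + -1 * Gr f y) x = 0 := by
    apply al_zero
    · intro x
      rw [al_add g (fun y => -1 * Gr f y), al_smul, al_Gr, h x]
      ring
    · rw [Finset.sum_add_distrib, ← Finset.mul_sum, hs, sum_Gr]
      ring
  funext x
  have := h1 x
  simp only at this
  linarith

theorem av_add (f g : T d L → ℝ) : av (fun x => f x + g x) = av f + av g := by
  unfold av
  rw [Finset.sum_add_distrib, add_div]

theorem av_smul (c : ℝ) (f : T d L → ℝ) : av (fun x => c * f x) = c * av f := by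
  unfold av
  rw [← Finset.mul_sum, mul_div_assoc]

theorem Gr_add (f g : T d L → ℝ) : Gr (fun x => f x + g x) = fun x => Gr f x + Gr g x := by
  refine (Gr_unique _ _ ?_ fun x => ?_).symm
  · rw [Finset.sum_add_distrib, sum_Gr, sum_Gr, add_zero]
  · rw [al_add, al_Gr, al_Gr, av_add]
    ring

theorem Gr_smul (c : ℝ) (f : T d L → ℝ) : Gr (fun x => c * f x) = fun x => c * Gr f x := by
  refine (Gr_unique _ _ ?_ fun x => ?_).symm
  · rw [← Finset.mul_sum, sum_Gr, mul_zero]
  · rw [al_smul, al_Gr, av_smul]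
    ring

/-- the kernel -/
noncomputable def Gz (z : T d L) : T d L → ℝ := Gr fun x => if x = z then 1 else 0

theorem al_Gz (z x : T d L) : Al (Gz z) x = (if x = z then 1 else 0) - 1 / NS d L := by
  unfold Gz
  rw [al_Gr]
  unfold av
  simp

theorem Gr_eq (f : T d L → ℝ) (z : T d L) : Gr f z = ∑ x, Gz z x * f x := by
  have h1 : ∑ x, Gz z x * Al (Gr f) x = ∑ x, Gr f x * Al (Gz z) x := al_symm _ _
  have h2 : ∑ x, Gz z x * Al (Gr f) x = ∑ x, Gz z x * f x := by
    have : ∀ x, Gz z x * Al (Gr f) x = Gz z x * f x - av f * Gz z x := fun x => by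
      rw [al_Gr]; ring
    rw [Finset.sum_congr rfl fun x _ => this x, Finset.sum_sub_distrib, ← Finset.mul_sum,
      show ∑ x, Gz z x = 0 from sum_Gr _, mul_zero, sub_zero]
  have h3 : ∑ x, Gr f x * Al (Gz z) x = Gr f z := by
    have : ∀ x, Gr f x * Al (Gz z) x = (if x = z then Gr f x else 0) - 1 / NS d L * Gr f x :=
      fun x => by
        rw [al_Gz]
        split_ifs <;> ring
    rw [Finset.sum_congr rfl fun x _ => this x, Finset.sum_sub_distrib, ← Finset.mul_sum,
      sum_Gr, mul_zero, sub_zero]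
    simp
  rw [← h2, h1, h3]

/-- the weighted square norm of a vector field -/
noncomputable def wn (w : T d L → ℝ) (F : T d L → Fin d → ℝ) : ℝ := ∑ x, ∑ i, w x * F x i ^ 2

theorem wn_nonneg (w : T d L → ℝ) (hw : ∀ x, 0 ≤ w x) (F : T d L → Fin d → ℝ) : 0 ≤ wn w F :=
  Finset.sum_nonneg fun x _ => Finset.sum_nonneg fun i _ => mul_nonneg (hw x) (sq_nonneg _)

/-- what is needed of a weight -/
def Adm (C : ℝ) (z : T d L) (w : T d L → ℝ) : Prop :=
  (∀ u, 1 ≤ w u) ∧ (∀ u (i : Fin d), (w (u + Pi.single i 1) - w u) ^ 2 ≤ 8 * w u) ∧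
    (∀ g : T d L → ℝ, ∑ x, g x = 0 → ∑ u, g u ^ 2 / w u ≤ C * gr g) ∧ w z ≤ C ∧
    ∀ u, w u ≤ C * (L : ℝ) ^ 2

theorem adm (hd : 4 ≤ d) (hL : hh L ≤ 1 / (4 * d)) (z : T d L) :
    Adm (600 * d) z (fun u => w0 (u - z)) := by
  have hd1 : (4 : ℝ) ≤ d := by exact_mod_cast hd
  have hL1 : (1 : ℝ) ≤ L := by exact_mod_cast Nat.one_le_iff_ne_zero.2 (NeZero.ne L)
  refine ⟨fun u => ?_, fun u i => ?_, fun g hg => ?_, ?_, fun u => ?_⟩
  · have := w0_ge (u - z)
    linarith
  · have e1 : u + Pi.single i 1 - z = (u - z) + Pi.single i 1 := by abel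
    beta_reduce
    rw [e1]
    exact w0_succ_sq (by omega) _ _
  · have h1 := hardy0 hd hL (fun u => g (u + z)) (by rw [shift_add g z]; exact hg)
    have h2 : gr (fun u => g (u + z)) = gr g := by
      unfold gr
      refine Eq.trans ?_ (shift_add (fun u => ∑ i : Fin d, (g (u + Pi.single i 1) - g u) ^ 2) z)
      refine Finset.sum_congr rfl fun u _ => Finset.sum_congr rfl fun i _ => ?_
      have e1 : u + Pi.single i 1 + z = u + z + Pi.single i 1 := by abel
      beta_reduce
      rw [e1]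
    have h3 : ∑ u, g (u + z) ^ 2 / w0 u = ∑ u, g u ^ 2 / w0 (u - z) := by
      rw [← shift_add (fun u => g u ^ 2 / w0 (u - z)) z]
      exact Finset.sum_congr rfl fun u _ => by rw [add_sub_cancel_right]
    rw [h2, h3] at h1
    refine h1.trans ?_
    have := gr_nonneg g
    gcongr
    norm_num
  · beta_reduce
    rw [sub_self]
    unfold w0
    simp only [Pi.zero_apply, kp_zero, Finset.sum_const_zero, add_zero]
    linarith
  · unfold w0
    have h1 : ∑ i, kp ((u - z) i) ≤ ∑ _i : Fin d, (L : ℝ) ^ 2 :=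
      Finset.sum_le_sum fun i _ => kp_le _
    rw [Finset.sum_const, Finset.card_univ, Fintype.card_fin, nsmul_eq_mul] at h1
    have h2 : (1 : ℝ) ≤ (L : ℝ) ^ 2 := one_le_pow₀ hL1
    nlinarith

section

variable (C : ℝ) (z : T d L) (w : T d L → ℝ) (hA : Adm C z w)

include hA

theorem dual_hardy (F : T d L → Fin d → ℝ) (g : T d L → ℝ) (hg : ∑ x, g x = 0)
    (h : ∀ x, Al g x = dv F x) : ∑ x, g x ^ 2 ≤ C * wn w F := by
  obtain ⟨hw1, hw2, hw3, hw4, hw5⟩ := hA
  have hw0 : ∀ u, 0 < w u := fun u => lt_of_lt_of_le one_pos (hw1 u)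
  obtain ⟨v, hv⟩ : ∃ v, v = Gr g := ⟨_, rfl⟩
  have h1 : ∀ x, Al v x = g x := fun x => by
    rw [hv, al_Gr]
    unfold av
    rw [hg, zero_div, sub_zero]
  obtain ⟨S, hS⟩ : ∃ S, S = ∑ x, g x ^ 2 := ⟨_, rfl⟩
  have hS0 : 0 ≤ S := by rw [hS]; exact Finset.sum_nonneg fun x _ => sq_nonneg _
  have h2 : S = ∑ x, ∑ i, gd v x i * F x i := by
    rw [← parts, hS]
    have h3 := al_symm v g
    have h4 : ∑ x, v x * Al g x = ∑ x, v x * dv F x := Finset.sum_congr rfl fun x _ => by rw [h x]
    have h5 : ∑ x, g x * Al v x = ∑ x, g x ^ 2 := Finset.sum_congr rfl fun x _ => by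
      rw [h1 x]; ring
    rw [← h4, h3, h5]
  have hY := wn_nonneg w (fun x => (hw0 x).le) F
  have h3 : S ^ 2 ≤ wn w F * ∑ x, ∑ i, gd v x i ^ 2 / w x := by
    rw [h2]
    unfold wn
    rw [← Finset.sum_product', ← Finset.sum_product', ← Finset.sum_product']
    have h4 := Finset.sum_sq_le_sum_mul_sum_of_sq_eq_mul (Finset.univ ×ˢ Finset.univ)
      (f := fun p : T d L × Fin d => w p.1 * F p.1 p.2 ^ 2)
      (g := fun p : T d L × Fin d => gd v p.1 p.2 ^ 2 / w p.1)
      (r := fun p : T d L × Fin d => gd v p.1 p.2 * F p.1 p.2)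
      (fun p _ => mul_nonneg (hw0 _).le (sq_nonneg _))
      (fun p _ => div_nonneg (sq_nonneg _) (hw0 _).le) (fun p _ => by
        have := (hw0 p.1).ne'
        field_simp)
    exact h4
  have h4 : ∑ x, ∑ i, gd v x i ^ 2 / w x ≤ C * S := by
    rw [Finset.sum_comm]
    have h5 : ∀ i : Fin d, ∑ x, gd v x i ^ 2 / w x ≤ C * gr (fun x => gd v x i) := by
      intro i
      apply hw3
      unfold gd
      rw [Finset.sum_sub_distrib, shift_add, sub_self]
    refine (Finset.sum_le_sum fun i _ => h5 i).trans ?_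
    rw [← Finset.mul_sum, hess, hS]
    apply le_of_eq
    congr 1
    exact Finset.sum_congr rfl fun x _ => by rw [h1 x]
  rw [← hS]
  rcases eq_or_lt_of_le hS0 with h6 | h6
  · rw [← h6]
    have h7 : 0 ≤ C := by
      have := hw1 z
      linarith
    positivity
  · have h7 : S ^ 2 ≤ wn w F * (C * S) := h3.trans (mul_le_mul_of_nonneg_left h4 hY)
    have h8 : S * S ≤ (C * wn w F) * S := by nlinarith
    exact le_of_mul_le_mul_right h8 h6

/-- testing with the weight -/
theorem test (g : T d L → ℝ) (F : T d L → Fin d → ℝ) :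
    ∑ x, w x * g x * dv F x = ∑ x, ∑ i, w x * gd g x i * F x i +
      ∑ x, ∑ i, g (x + Pi.single i 1) * gd w x i * F x i := by
  rw [parts (fun x => w x * g x) F, ← Finset.sum_add_distrib]
  refine Finset.sum_congr rfl fun x _ => ?_
  rw [← Finset.sum_add_distrib]
  refine Finset.sum_congr rfl fun i _ => ?_
  unfold gd
  ring

theorem weighted (F : T d L → Fin d → ℝ) (g : T d L → ℝ) (hg : ∑ x, g x = 0)
    (h : ∀ x, Al g x = dv F x) : wn w (gd g) ≤ (3 + 32 * d * C) * wn w F := by
  have hdh := dual_hardy C z w hA F g hg h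
  obtain ⟨hw1, hw2, hw3, hw4, hw5⟩ := id hA
  have hw0 : ∀ u, 0 < w u := fun u => lt_of_lt_of_le one_pos (hw1 u)
  have h1 : ∑ x, w x * g x * dv (gd g) x = ∑ x, w x * g x * dv F x :=
    Finset.sum_congr rfl fun x _ => by
      have := h x
      unfold Al at this
      rw [this]
  rw [test C z w hA, test C z w hA] at h1
  have h2 : ∀ (x : T d L) (i : Fin d), w x * gd g x i * F x i + g (x + Pi.single i 1) * gd w x i * F x i -
      g (x + Pi.single i 1) * gd w x i * gd g x i ≤
      1 / 2 * (w x * gd g x i ^ 2) + 5 / 4 * (w x * F x i ^ 2) + 16 * g (x + Pi.single i 1) ^ 2 := by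
    intro x i
    obtain ⟨a, ha⟩ : ∃ a, a = w x := ⟨_, rfl⟩
    obtain ⟨b, hb⟩ : ∃ b, b = gd w x i := ⟨_, rfl⟩
    obtain ⟨p, hp⟩ : ∃ p, p = gd g x i := ⟨_, rfl⟩
    obtain ⟨f, hf⟩ : ∃ f, f = F x i := ⟨_, rfl⟩
    obtain ⟨q, hq⟩ : ∃ q, q = g (x + Pi.single i 1) := ⟨_, rfl⟩
    rw [← ha, ← hb, ← hp, ← hf, ← hq]
    have ha0 : 0 < a := by rw [ha]; exact hw0 x
    have hb2 : b ^ 2 ≤ 8 * a := by
      rw [hb, ha]
      exact hw2 x i
    have e1 : a * p * f ≤ 1 / 4 * (a * p ^ 2) + a * f ^ 2 := by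
      have : 0 ≤ a * (1 / 2 * p - f) ^ 2 := by positivity
      nlinarith
    have e2 : q * b * (f - p) ≤ 16 * q ^ 2 + 1 / 64 * (b ^ 2 * (f - p) ^ 2) := by
      nlinarith [sq_nonneg (4 * q - 1 / 8 * (b * (f - p)))]
    have e3 : b ^ 2 * (f - p) ^ 2 ≤ 8 * a * (2 * f ^ 2 + 2 * p ^ 2) := by
      apply mul_le_mul hb2 _ (sq_nonneg _) (by positivity)
      nlinarith [sq_nonneg (f + p)]
    nlinarith
  have h3 : wn w (gd g) ≤ 1 / 2 * wn w (gd g) + 5 / 4 * wn w F + 16 * (d * ∑ x, g x ^ 2) := by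
    have e1 : wn w (gd g) = ∑ x, ∑ i, w x * gd g x i * gd g x i := by
      unfold wn
      exact Finset.sum_congr rfl fun x _ => Finset.sum_congr rfl fun i _ => by ring
    have e2 : wn w (gd g) = ∑ x, ∑ i, (w x * gd g x i * F x i +
        g (x + Pi.single i 1) * gd w x i * F x i -
        g (x + Pi.single i 1) * gd w x i * gd g x i) := by
      have e3 : ∑ x, ∑ i, (w x * gd g x i * F x i +
        g (x + Pi.single i 1) * gd w x i * F x i -
        g (x + Pi.single i 1) * gd w x i * gd g x i) = ∑ x, ∑ i, w x * gd g x i * F x i +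
          ∑ x, ∑ i, g (x + Pi.single i 1) * gd w x i * F x i -
          ∑ x, ∑ i, g (x + Pi.single i 1) * gd w x i * gd g x i := by
        simp only [Finset.sum_add_distrib, Finset.sum_sub_distrib]
      rw [e3, e1]
      linarith
    have e4 : ∑ x : T d L, ∑ i : Fin d, g (x + Pi.single i 1) ^ 2 = d * ∑ x, g x ^ 2 := by
      rw [Finset.sum_comm]
      have : ∀ i : Fin d, ∑ x : T d L, g (x + Pi.single i 1) ^ 2 = ∑ x, g x ^ 2 := fun i =>
        shift_add (fun x : T d L => g x ^ 2) (Pi.single i 1)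
      rw [Finset.sum_congr rfl fun i _ => this i, Finset.sum_const, Finset.card_univ,
        Fintype.card_fin, nsmul_eq_mul]
    rw [← e4]
    conv_lhs => rw [e2]
    refine (Finset.sum_le_sum fun x _ => Finset.sum_le_sum fun i _ => h2 x i).trans (le_of_eq ?_)
    unfold wn
    simp only [Finset.mul_sum, ← Finset.sum_add_distrib]
  have hd0 : (0 : ℝ) ≤ d := Nat.cast_nonneg d
  have h4 : (d : ℝ) * ∑ x, g x ^ 2 ≤ d * (C * wn w F) := by gcongr
  have hY := wn_nonneg w (fun x => (hw0 x).le) F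
  nlinarith

theorem base (hd : 4 ≤ d) : wn w (gd (Gz z)) ≤ (4 * C + 8 * d) * (1 + ∑ x, Gz z x ^ 2) := by
  obtain ⟨hw1, hw2, hw3, hw4, hw5⟩ := id hA
  have hw0 : ∀ u, 0 < w u := fun u => lt_of_lt_of_le one_pos (hw1 u)
  have hC : 1 ≤ C := (hw1 z).trans hw4
  have hL1 : (1 : ℝ) ≤ L := by exact_mod_cast Nat.one_le_iff_ne_zero.2 (NeZero.ne L)
  obtain ⟨g, hg⟩ : ∃ g, g = Gz z := ⟨_, rfl⟩
  obtain ⟨S, hS⟩ : ∃ S, S = ∑ x, g x ^ 2 := ⟨_, rfl⟩
  have hS0 : 0 ≤ S := by rw [hS]; exact Finset.sum_nonneg fun x _ => sq_nonneg _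
  have h1 := test C z w hA g (gd g)
  have h2 : ∑ x, w x * g x * dv (gd g) x = w z * g z - 1 / NS d L * ∑ x, w x * g x := by
    have : ∀ x, w x * g x * dv (gd g) x = (if x = z then w x * g x else 0) -
        1 / NS d L * (w x * g x) := by
      intro x
      have h3 := al_Gz z x
      rw [← hg] at h3
      unfold Al at h3
      rw [h3]
      split_ifs <;> ring
    rw [Finset.sum_congr rfl fun x _ => this x, Finset.sum_sub_distrib, ← Finset.mul_sum]
    simp
  have h3 : wn w (gd g) = ∑ x, ∑ i, w x * gd g x i * gd g x i := by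
    unfold wn
    exact Finset.sum_congr rfl fun x _ => Finset.sum_congr rfl fun i _ => by ring
  have hgz : |g z| ≤ 1 / 2 * (1 + S) := by
    have e1 : g z ^ 2 ≤ S := by
      rw [hS]
      exact Finset.single_le_sum (f := fun x => g x ^ 2) (fun x _ => sq_nonneg _)
        (Finset.mem_univ z)
    rw [← sq_abs] at e1
    nlinarith [sq_nonneg (|g z| - 1)]
  have h4 : w z * g z ≤ C * (1 / 2 * (1 + S)) := by
    calc w z * g z ≤ w z * |g z| := mul_le_mul_of_nonneg_left (le_abs_self _) (hw0 z).le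
      _ ≤ C * (1 / 2 * (1 + S)) := by gcongr
  have h5 : -(1 / NS d L * ∑ x, w x * g x) ≤ C * (1 / 2 * (1 + S)) := by
    have hN := NS_pos (d := d) (L := L)
    have e0 : -(1 / NS d L * ∑ x, w x * g x) = 1 / NS d L * ∑ x, w x * -g x := by
      rw [← mul_neg, ← Finset.sum_neg_distrib]
      congr 1
      exact Finset.sum_congr rfl fun x _ => by ring
    rw [e0]
    have e2 : ∀ x, w x * -g x ≤ C * (1 / 2 * NS d L * g x ^ 2 + 1 / 2) := by
      intro x
      have hLN : (L : ℝ) ^ 4 ≤ NS d L := by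
        rw [NS_eq]
        exact pow_le_pow_right₀ hL1 hd
      have a1 : w x * -g x ≤ w x * |g x| := mul_le_mul_of_nonneg_left (neg_le_abs _) (hw0 x).le
      have a2 : w x * |g x| ≤ C * (L : ℝ) ^ 2 * |g x| :=
        mul_le_mul_of_nonneg_right (hw5 x) (abs_nonneg _)
      have a3 : (L : ℝ) ^ 2 * |g x| ≤ 1 / 2 * NS d L * g x ^ 2 + 1 / 2 := by
        have b1 : (L : ℝ) ^ 2 * |g x| ≤ 1 / 2 * ((L : ℝ) ^ 2 * |g x|) ^ 2 + 1 / 2 := by
          nlinarith [sq_nonneg ((L : ℝ) ^ 2 * |g x| - 1)]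
        have b2 : ((L : ℝ) ^ 2 * |g x|) ^ 2 = (L : ℝ) ^ 4 * g x ^ 2 := by
          rw [mul_pow, sq_abs]
          ring
        have b3 : (L : ℝ) ^ 4 * g x ^ 2 ≤ NS d L * g x ^ 2 := by gcongr
        linarith
      calc w x * -g x ≤ C * ((L : ℝ) ^ 2 * |g x|) := by linarith
        _ ≤ _ := by gcongr
    calc 1 / NS d L * ∑ x, w x * -g x ≤
          1 / NS d L * ∑ x, C * (1 / 2 * NS d L * g x ^ 2 + 1 / 2) := by
          apply mul_le_mul_of_nonneg_left (Finset.sum_le_sum fun x _ => e2 x) (by positivity)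
      _ = C * (1 / 2 * (1 + S)) := by
          rw [← Finset.mul_sum, Finset.sum_add_distrib, ← Finset.mul_sum, sum_const', hS]
          field_simp
          ring
  have h6 : ∀ (x : T d L) (i : Fin d), -(g (x + Pi.single i 1) * gd w x i * gd g x i) ≤
      4 * g (x + Pi.single i 1) ^ 2 + 1 / 2 * (w x * gd g x i ^ 2) := by
    intro x i
    have e1 := hw2 x i
    have e2 : (gd w x i * gd g x i) ^ 2 ≤ 8 * w x * gd g x i ^ 2 := by
      rw [mul_pow]
      exact mul_le_mul_of_nonneg_right e1 (sq_nonneg _)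
    nlinarith [sq_nonneg (2 * g (x + Pi.single i 1) + 1 / 4 * (gd w x i * gd g x i))]
  have h7 : -∑ x, ∑ i, g (x + Pi.single i 1) * gd w x i * gd g x i ≤
      4 * (d * S) + 1 / 2 * wn w (gd g) := by
    have e4 : ∑ x : T d L, ∑ i : Fin d, g (x + Pi.single i 1) ^ 2 = d * S := by
      rw [Finset.sum_comm, hS]
      have : ∀ i : Fin d, ∑ x : T d L, g (x + Pi.single i 1) ^ 2 = ∑ x, g x ^ 2 := fun i =>
        shift_add (fun x : T d L => g x ^ 2) (Pi.single i 1)
      rw [Finset.sum_congr rfl fun i _ => this i, Finset.sum_const, Finset.card_univ,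
        Fintype.card_fin, nsmul_eq_mul]
    rw [← e4, ← Finset.sum_neg_distrib]
    refine (Finset.sum_le_sum fun x _ => ?_ : _ ≤ ∑ x, ∑ i : Fin d,
      (4 * g (x + Pi.single i 1) ^ 2 + 1 / 2 * (w x * gd g x i ^ 2))).trans (le_of_eq ?_)
    · rw [← Finset.sum_neg_distrib]
      exact Finset.sum_le_sum fun i _ => h6 x i
    · unfold wn
      simp only [Finset.mul_sum, ← Finset.sum_add_distrib]
  rw [← hg, ← hS]
  rw [h2, ← h3] at h1
  have hd0 : (0 : ℝ) ≤ d := Nat.cast_nonneg d
  have hdS : 0 ≤ d * S := by positivity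
  nlinarith

end

end Pool.Agent.Y661.EX
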